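import Pool.Agent.Strip051.Box.Base

/-! # Kernel-decidable first-order arithmetic in 4 variables (generated) -/

namespace Pool.Agent.Strip051.Box4

open Pool.Agent.Strip051.Box

/-- An affine form with remainder. Signed numbers are differences `p - n` of naturals. -/
structure TM where
  (p0 n0 p1 n1 p2 n2 p3 n3 p4 n4 r bad : Nat)

/-- A point of the unit cube. -/
structure Pt where
  (e1 e2 e3 e4 : ℝ)
  (h1 : |e1| ≤ 1)
  (h2 : |e2| ≤ 1)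
  (h3 : |e3| ≤ 1)
  (h4 : |e4| ≤ 1)

/-- The centre, as a real number. -/
def c0 (X : TM) : ℝ := (X.p0 : ℝ) - X.n0

/-- The linear part. -/
def lin (E : Pt) (X : TM) : ℝ := ((X.p1 : ℝ) - X.n1) * E.e1 + ((X.p2 : ℝ) - X.n2) * E.e2 + ((X.p3 : ℝ) - X.n3) * E.e3 + ((X.p4 : ℝ) - X.n4) * E.e4

/-- `X` encloses `v` at the point `E` of the unit cube (`v` in units of `1 / S`). -/
def Enc (S : ℕ) (E : Pt) (X : TM) (v : ℝ) : Prop :=
  X.bad = 0 → |(S : ℝ) * v - (c0 X + lin E X)| ≤ X.r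

/-- The radius of the linear part. -/
def rdl (X : TM) : Nat := Nat.add (Nat.add X.p1 X.n1) (Nat.add (Nat.add X.p2 X.n2) (Nat.add (Nat.add X.p3 X.n3) (Nat.add X.p4 X.n4)))

/-- The radius. -/
def rad (X : TM) : Nat := Nat.add (rdl X) X.r

/-- The absolute value of the centre. -/
def mid (X : TM) : Nat := Nat.add X.p0 X.n0

def tadd (X Y : TM) : TM :=
  ⟨nd (Nat.add X.p0 Y.p0) (Nat.add X.n0 Y.n0), nd (Nat.add X.n0 Y.n0) (Nat.add X.p0 Y.p0), nd (Nat.add X.p1 Y.p1) (Nat.add X.n1 Y.n1), nd (Nat.add X.n1 Y.n1) (Nat.add X.p1 Y.p1), nd (Nat.add X.p2 Y.p2) (Nat.add X.n2 Y.n2), nd (Nat.add X.n2 Y.n2) (Nat.add X.p2 Y.p2), nd (Nat.add X.p3 Y.p3) (Nat.add X.n3 Y.n3), nd (Nat.add X.n3 Y.n3) (Nat.add X.p3 Y.p3), nd (Nat.add X.p4 Y.p4) (Nat.add X.n4 Y.n4), nd (Nat.add X.n4 Y.n4) (Nat.add X.p4 Y.p4), Nat.add X.r Y.r, Nat.add X.bad Y.bad⟩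

def tsub (X Y : TM) : TM :=
  ⟨nd (Nat.add X.p0 Y.n0) (Nat.add X.n0 Y.p0), nd (Nat.add X.n0 Y.p0) (Nat.add X.p0 Y.n0), nd (Nat.add X.p1 Y.n1) (Nat.add X.n1 Y.p1), nd (Nat.add X.n1 Y.p1) (Nat.add X.p1 Y.n1), nd (Nat.add X.p2 Y.n2) (Nat.add X.n2 Y.p2), nd (Nat.add X.n2 Y.p2) (Nat.add X.p2 Y.n2), nd (Nat.add X.p3 Y.n3) (Nat.add X.n3 Y.p3), nd (Nat.add X.n3 Y.p3) (Nat.add X.p3 Y.n3), nd (Nat.add X.p4 Y.n4) (Nat.add X.n4 Y.p4), nd (Nat.add X.n4 Y.p4) (Nat.add X.p4 Y.n4), Nat.add X.r Y.r, Nat.add X.bad Y.bad⟩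

def tneg (X : TM) : TM :=
  ⟨X.n0, X.p0, X.n1, X.p1, X.n2, X.p2, X.n3, X.p3, X.n4, X.p4, X.r, X.bad⟩

/-- a constant with error `r` -/
def tconst (p n r : Nat) : TM :=
  ⟨p, n, 0, 0, 0, 0, 0, 0, 0, 0, r, 0⟩

def tvar1 (p n q : Nat) : TM :=
  ⟨p, n, q, 0, 0, 0, 0, 0, 0, 0, 0, 0⟩

def tvar2 (p n q : Nat) : TM :=
  ⟨p, n, 0, 0, q, 0, 0, 0, 0, 0, 0, 0⟩

def tvar3 (p n q : Nat) : TM :=
  ⟨p, n, 0, 0, 0, 0, q, 0, 0, 0, 0, 0⟩

def tvar4 (p n q : Nat) : TM :=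
  ⟨p, n, 0, 0, 0, 0, 0, 0, q, 0, 0, 0⟩

/-- multiplication by the rational `a / b` -/
def tscale (a b : Nat) (X : TM) : TM :=
  ⟨Nat.div (Nat.mul X.p0 a) b, Nat.div (Nat.mul X.n0 a) b, Nat.div (Nat.mul X.p1 a) b, Nat.div (Nat.mul X.n1 a) b, Nat.div (Nat.mul X.p2 a) b, Nat.div (Nat.mul X.n2 a) b, Nat.div (Nat.mul X.p3 a) b, Nat.div (Nat.mul X.n3 a) b, Nat.div (Nat.mul X.p4 a) b, Nat.div (Nat.mul X.n4 a) b, Nat.add (Nat.div (Nat.mul X.r a) b) 6, X.bad⟩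

/-- multiplication by the natural `a` -/
def tnat (a : Nat) (X : TM) : TM :=
  ⟨Nat.mul X.p0 a, Nat.mul X.n0 a, Nat.mul X.p1 a, Nat.mul X.n1 a, Nat.mul X.p2 a, Nat.mul X.n2 a, Nat.mul X.p3 a, Nat.mul X.n3 a, Nat.mul X.p4 a, Nat.mul X.n4 a, Nat.mul X.r a, X.bad⟩

def tmul (S : Nat) (X Y : TM) : TM :=
  ⟨Nat.div (nd (mp X.p0 X.n0 Y.p0 Y.n0) (mn X.p0 X.n0 Y.p0 Y.n0)) S, Nat.div (nd (mn X.p0 X.n0 Y.p0 Y.n0) (mp X.p0 X.n0 Y.p0 Y.n0)) S, Nat.div (nd (Nat.add (mp X.p0 X.n0 Y.p1 Y.n1) (mp Y.p0 Y.n0 X.p1 X.n1)) (Nat.add (mn X.p0 X.n0 Y.p1 Y.n1) (mn Y.p0 Y.n0 X.p1 X.n1))) S, Nat.div (nd (Nat.add (mn X.p0 X.n0 Y.p1 Y.n1) (mn Y.p0 Y.n0 X.p1 X.n1)) (Nat.add (mp X.p0 X.n0 Y.p1 Y.n1) (mp Y.p0 Y.n0 X.p1 X.n1))) S, Nat.div (nd (Nat.add (mp X.p0 X.n0 Y.p2 Y.n2) (mp Y.p0 Y.n0 X.p2 X.n2)) (Nat.add (mn X.p0 X.n0 Y.p2 Y.n2) (mn Y.p0 Y.n0 X.p2 X.n2))) S, Nat.div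 (nd (Nat.add (mn X.p0 X.n0 Y.p2 Y.n2) (mn Y.p0 Y.n0 X.p2 X.n2)) (Nat.add (mp X.p0 X.n0 Y.p2 Y.n2) (mp Y.p0 Y.n0 X.p2 X.n2))) S, Nat.div (nd (Nat.add (mp X.p0 X.n0 Y.p3 Y.n3) (mp Y.p0 Y.n0 X.p3 X.n3)) (Nat.add (mn X.p0 X.n0 Y.p3 Y.n3) (mn Y.p0 Y.n0 X.p3 X.n3))) S, Nat.div (nd (Nat.add (mn X.p0 X.n0 Y.p3 Y.n3) (mn Y.p0 Y.n0 X.p3 X.n3)) (Nat.add (mp X.p0 X.n0 Y.p3 Y.n3) (mp Y.p0 Y.n0 X.p3 X.n3))) S, Nat.div (nd (Nat.add (mp X.p0 X.n0 Y.p4 Y.n4) (mp Y.p0 Y.n0 X.p4 X.n4)) (Nat.add (mn X.p0 X.n0 Y.p4 Y.n4) (mn Y.p0 Y.n0 X.p4 X.n4))) S, Nat.div (nd (Nat.add (mn X.p0 X.n0 Y.p4 Y.n4) (mn Y.p0 Y.n0 X.p4 X.n4)) (Nat.add (mp X.p0 X.n0 Y.p4 Y.n4) (mp Y.p0 Y.n0 X.p4 X.n4))) S, Nat.add (Nat.div (Nat.add (Nat.mul (rad X) (rad Y)) (Nat.add (Nat.mul (mid X) Y.r) (Nat.mul (mid Y) X.r))) S) 6, Nat.add X.bad Y.bad⟩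

/-- half of the square of the radius -/
def hsq (X : TM) : Nat := Nat.div (Nat.mul (rad X) (rad X)) 2

def tsq (S : Nat) (X : TM) : TM :=
  ⟨Nat.div (Nat.add (mp X.p0 X.n0 X.p0 X.n0) (hsq X)) S, Nat.div (mn X.p0 X.n0 X.p0 X.n0) S, Nat.div (Nat.mul 2 (mp X.p0 X.n0 X.p1 X.n1)) S, Nat.div (Nat.mul 2 (mn X.p0 X.n0 X.p1 X.n1)) S, Nat.div (Nat.mul 2 (mp X.p0 X.n0 X.p2 X.n2)) S, Nat.div (Nat.mul 2 (mn X.p0 X.n0 X.p2 X.n2)) S, Nat.div (Nat.mul 2 (mp X.p0 X.n0 X.p3 X.n3)) S, Nat.div (Nat.mul 2 (mn X.p0 X.n0 X.p3 X.n3)) S, Nat.div (Nat.mul 2 (mp X.p0 X.n0 X.p4 X.n4)) S, Nat.div (Nat.mul 2 (mn X.p0 X.n0 X.p4 X.n4)) S, Nat.add (Nat.div (Nat.add (hsq X) (Nat.mul 2 (Nat.mul (mid X) X.r))) S) 8, X.bad⟩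

/-- The centre as a natural number (for positive quantities). -/
def cen (X : TM) : Nat := nd X.p0 X.n0

/-- zero iff the lower bound `cen - rad` is positive -/
def npos (X : TM) : Nat := nd (Nat.add (rad X) 1) (cen X)

/-- approximate inverse of the centre -/
def invc (S : Nat) (X : TM) : Nat := Nat.div (Nat.mul S S) (cen X)

/-- half of the quadratic remainder of the inverse -/
def invm (S : Nat) (X : TM) : Nat := Nat.div (Nat.div (Nat.mul (Nat.add (invc S X) 1) (Nat.mul (rad X) (rad X))) (Nat.mul (cen X) (nd (cen X) (rad X)))) 2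

def tinv (S : Nat) (X : TM) : TM :=
  ⟨Nat.add (invc S X) (invm S X), 0, Nat.div (Nat.mul (invc S X) X.n1) (cen X), Nat.div (Nat.mul (invc S X) X.p1) (cen X), Nat.div (Nat.mul (invc S X) X.n2) (cen X), Nat.div (Nat.mul (invc S X) X.p2) (cen X), Nat.div (Nat.mul (invc S X) X.n3) (cen X), Nat.div (Nat.mul (invc S X) X.p3) (cen X), Nat.div (Nat.mul (invc S X) X.n4) (cen X), Nat.div (Nat.mul (invc S X) X.p4) (cen X), Nat.add (Nat.add (Nat.div (Nat.mul (Nat.add (invc S X) 1) X.r) (cen X)) (invm S X)) 9, Nat.add X.bad (npos X)⟩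

/-- approximate square root of `S * cen` -/
def sqc (S : Nat) (X : TM) : Nat := Nat.add (isq S (cen X)) 1

/-- error of `sqc` -/
def sqe (S : Nat) (X : TM) : Nat := Nat.add (Nat.div (Nat.add (nd (Nat.mul (sqc S X) (sqc S X)) (Nat.mul S (cen X))) (nd (Nat.mul S (cen X)) (Nat.mul (sqc S X) (sqc S X)))) (sqc S X)) 1

/-- `2 cen - rad` -/
def sqd (X : TM) : Nat := nd (Nat.mul 2 (cen X)) (rad X)

/-- half of the quadratic remainder of the square root -/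
def sqm (S : Nat) (X : TM) : Nat := Nat.div (Nat.div (Nat.mul (Nat.add (sqc S X) (sqe S X)) (Nat.mul (rad X) (rad X))) (Nat.mul 2 (Nat.mul (sqd X) (sqd X)))) 2

def tsqrt (S : Nat) (X : TM) : TM :=
  ⟨nd (sqc S X) (sqm S X), nd (sqm S X) (sqc S X), Nat.div (Nat.mul (sqc S X) X.p1) (Nat.mul 2 (cen X)), Nat.div (Nat.mul (sqc S X) X.n1) (Nat.mul 2 (cen X)), Nat.div (Nat.mul (sqc S X) X.p2) (Nat.mul 2 (cen X)), Nat.div (Nat.mul (sqc S X) X.n2) (Nat.mul 2 (cen X)), Nat.div (Nat.mul (sqc S X) X.p3) (Nat.mul 2 (cen X)), Nat.div (Nat.mul (sqc S X) X.n3) (Nat.mul 2 (cen X)), Nat.div (Nat.mul (sqc S X) X.p4) (Nat.mul 2 (cen X)), Nat.div (Nat.mul (sqc S X) X.n4) (Nat.mul 2 (cen X)), Nat.add (Nat.add (Nat.mul 2 (sqe S X)) (Nat.add (Nat.div (Nat.mul (Nat.add (sqc S X) (sqe S X)) X.r) (Nat.mul 2 (cen X))) (sqm S X))) 7, Nat.add X.bad (npos X)⟩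

/-- upper bound of the quantity -/
def up (X : TM) : Nat := nd (Nat.add X.p0 (rad X)) X.n0

/-- enclosure of a nonnegative number `≤ u / S` without first-order information -/
def flat (u bad : Nat) : TM := ⟨Nat.div u 2, 0, 0, 0, 0, 0, 0, 0, 0, 0, Nat.add (Nat.div u 2) 1, bad⟩

/-- crude enclosure of a square root, no positivity needed -/
def tsqrt0 (S : Nat) (X : TM) : TM := flat (ush S (up X)) X.bad

/-- square root: first order if well inside the domain, crude otherwise -/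
def tsqrtg (S : Nat) (X : TM) : TM :=
  cond (Nat.ble (Nat.add (Nat.mul 2 (rad X)) 1) (cen X)) (tsqrt S X) (tsqrt0 S X)

/-- absolute value -/
def tabs (X : TM) : TM :=
  cond (Nat.ble (Nat.add X.n0 (rad X)) X.p0) X (cond (Nat.ble (Nat.add X.p0 (rad X)) X.n0) (tneg X) (flat (Nat.add (mid X) (rad X)) X.bad))

/-- positive part: chord approximation if the sign changes -/
def plo (X : TM) : Nat := nd (Nat.add X.n0 (rad X)) X.p0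

/-- half of the maximal defect of the chord -/
def pch (X : TM) : Nat := Nat.div (Nat.div (Nat.mul (up X) (plo X)) (Nat.add (up X) (plo X))) 2

def tposc (X : TM) : TM :=
  ⟨nd (Nat.add (Nat.div (Nat.mul X.p0 (up X)) (Nat.add (up X) (plo X))) (pch X)) (Nat.div (Nat.mul X.n0 (up X)) (Nat.add (up X) (plo X))), nd (Nat.div (Nat.mul X.n0 (up X)) (Nat.add (up X) (plo X))) (Nat.add (Nat.div (Nat.mul X.p0 (up X)) (Nat.add (up X) (plo X))) (pch X)), Nat.div (Nat.mul X.p1 (up X)) (Nat.add (up X) (plo X)), Nat.div (Nat.mul X.n1 (up X)) (Nat.add (up X) (plo X)), Nat.div (Nat.mul X.p2 (up X)) (Nat.add (up X) (plo X)), Nat.div (Nat.mul X.n2 (up X)) (Nat.add (up X) (plo X)), Nat.div (Nat.mul X.p3 (up X)) (Nat.add (up X) (plo X)), Nat.div (Nat.mul X.n3 (up X)) (Nat.add (up X) (plo X)), Nat.div (Nat.mul X.p4 (up X)) (Nat.add (up X) (plo X)), Nat.div (Nat.mul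 X.n4 (up X)) (Nat.add (up X) (plo X)), Nat.add (Nat.add (Nat.div (Nat.mul X.r (up X)) (Nat.add (up X) (plo X))) (pch X)) 8, X.bad⟩

def tpos (X : TM) : TM :=
  cond (Nat.ble (Nat.add X.n0 (rad X)) X.p0) X (cond (Nat.ble (Nat.add X.p0 (rad X)) X.n0) (flat 0 X.bad) (tposc X))

/-- maximum -/
def tmax (X Y : TM) : TM := tadd Y (tpos (tsub X Y))

/-- minimum -/
def tmin (X Y : TM) : TM := tsub X (tpos (tsub X Y))

/-- decision: the enclosed quantity is positive -/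
def pos (X : TM) : Bool := and (Nat.beq X.bad 0) (Nat.ble (Nat.add (Nat.add X.n0 (rad X)) 1) X.p0)

/-- decision: the enclosed quantity is nonnegative -/
def nonneg (X : TM) : Bool := and (Nat.beq X.bad 0) (Nat.ble (Nat.add X.n0 (rad X)) X.p0)

/-! ### Soundness -/

theorem rdl_cast (X : TM) : ((rdl X : ℕ) : ℝ) = ((X.p1 : ℝ) + X.n1) + ((X.p2 : ℝ) + X.n2) + ((X.p3 : ℝ) + X.n3) + ((X.p4 : ℝ) + X.n4) := by
  unfold rdl
  simp only [cadd]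
  ring

theorem rad_cast (X : TM) : ((rad X : ℕ) : ℝ) = (rdl X : ℕ) + X.r := cadd _ _

theorem lin_le (E : Pt) (X : TM) : |lin E X| ≤ (rdl X : ℕ) := by
  rw [rdl_cast]
  unfold lin
  have a1 : |((X.p1 : ℝ) - X.n1) * E.e1| ≤ (X.p1 : ℝ) + X.n1 := by
    refine mul_e ?_ E.h1
    have h1 : (0 : ℝ) ≤ X.p1 := Nat.cast_nonneg _
    have h2 : (0 : ℝ) ≤ X.n1 := Nat.cast_nonneg _
    rw [abs_le]; constructor <;> linarith
  have a2 : |((X.p2 : ℝ) - X.n2) * E.e2| ≤ (X.p2 : ℝ) + X.n2 := by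
    refine mul_e ?_ E.h2
    have h1 : (0 : ℝ) ≤ X.p2 := Nat.cast_nonneg _
    have h2 : (0 : ℝ) ≤ X.n2 := Nat.cast_nonneg _
    rw [abs_le]; constructor <;> linarith
  have a3 : |((X.p3 : ℝ) - X.n3) * E.e3| ≤ (X.p3 : ℝ) + X.n3 := by
    refine mul_e ?_ E.h3
    have h1 : (0 : ℝ) ≤ X.p3 := Nat.cast_nonneg _
    have h2 : (0 : ℝ) ≤ X.n3 := Nat.cast_nonneg _
    rw [abs_le]; constructor <;> linarith
  have a4 : |((X.p4 : ℝ) - X.n4) * E.e4| ≤ (X.p4 : ℝ) + X.n4 := by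
    refine mul_e ?_ E.h4
    have h1 : (0 : ℝ) ≤ X.p4 := Nat.cast_nonneg _
    have h2 : (0 : ℝ) ≤ X.n4 := Nat.cast_nonneg _
    rw [abs_le]; constructor <;> linarith
  rw [abs_le] at a1 a2 a3 a4 ⊢
  constructor <;> linarith [a1.1, a1.2, a2.1, a2.2, a3.1, a3.2, a4.1, a4.2]

theorem mid_le (X : TM) : |c0 X| ≤ (mid X : ℕ) := by
  unfold c0 mid
  rw [cadd]
  have h1 : (0 : ℝ) ≤ X.p0 := Nat.cast_nonneg _
  have h2 : (0 : ℝ) ≤ X.n0 := Nat.cast_nonneg _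
  rw [abs_le]; constructor <;> linarith

/-- distance from the centre -/
theorem dist_c {S : ℕ} {E : Pt} {X : TM} {v : ℝ} (h : |(S : ℝ) * v - (c0 X + lin E X)| ≤ X.r) :
    |(S : ℝ) * v - c0 X| ≤ (rad X : ℕ) := by
  have h1 := lin_le E X
  rw [rad_cast]
  rw [abs_le] at h h1 ⊢
  constructor <;> linarith [h.1, h.2, h1.1, h1.2]

theorem bad_add {a b : ℕ} (h : Nat.add a b = 0) : a = 0 ∧ b = 0 := Nat.add_eq_zero_iff.mp h

theorem enc_add {S : ℕ} {E : Pt} {X Y : TM} {v w : ℝ} (hX : Enc S E X v) (hY : Enc S E Y w) :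
    Enc S E (tadd X Y) (v + w) := by
  intro hb
  obtain ⟨b1, b2⟩ := bad_add hb
  have h1 := hX b1
  have h2 := hY b2
  have hc : c0 (tadd X Y) = c0 X + c0 Y := by
    unfold c0
    refine (nd_sub (Nat.add X.p0 Y.p0) (Nat.add X.n0 Y.n0)).trans ?_
    simp only [cadd]; ring
  have hl : lin E (tadd X Y) = lin E X + lin E Y := by
    unfold lin
    have a1 : (((tadd X Y).p1 : ℕ) : ℝ) - ((tadd X Y).n1 : ℕ) = ((X.p1 : ℝ) - X.n1) + ((Y.p1 : ℝ) - Y.n1) := by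
      refine (nd_sub (Nat.add X.p1 Y.p1) (Nat.add X.n1 Y.n1)).trans ?_
      simp only [cadd]; ring
    have a2 : (((tadd X Y).p2 : ℕ) : ℝ) - ((tadd X Y).n2 : ℕ) = ((X.p2 : ℝ) - X.n2) + ((Y.p2 : ℝ) - Y.n2) := by
      refine (nd_sub (Nat.add X.p2 Y.p2) (Nat.add X.n2 Y.n2)).trans ?_
      simp only [cadd]; ring
    have a3 : (((tadd X Y).p3 : ℕ) : ℝ) - ((tadd X Y).n3 : ℕ) = ((X.p3 : ℝ) - X.n3) + ((Y.p3 : ℝ) - Y.n3) := by
      refine (nd_sub (Nat.add X.p3 Y.p3) (Nat.add X.n3 Y.n3)).trans ?_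
      simp only [cadd]; ring
    have a4 : (((tadd X Y).p4 : ℕ) : ℝ) - ((tadd X Y).n4 : ℕ) = ((X.p4 : ℝ) - X.n4) + ((Y.p4 : ℝ) - Y.n4) := by
      refine (nd_sub (Nat.add X.p4 Y.p4) (Nat.add X.n4 Y.n4)).trans ?_
      simp only [cadd]; ring
    rw [a1, a2, a3, a4]
    ring
  have hr : (((tadd X Y).r : ℕ) : ℝ) = X.r + Y.r := cadd _ _
  rw [hc, hl, hr]
  rw [abs_le] at h1 h2 ⊢
  constructor <;> linarith [h1.1, h1.2, h2.1, h2.2]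

theorem enc_sub {S : ℕ} {E : Pt} {X Y : TM} {v w : ℝ} (hX : Enc S E X v) (hY : Enc S E Y w) :
    Enc S E (tsub X Y) (v - w) := by
  intro hb
  obtain ⟨b1, b2⟩ := bad_add hb
  have h1 := hX b1
  have h2 := hY b2
  have hc : c0 (tsub X Y) = c0 X - c0 Y := by
    unfold c0
    refine (nd_sub (Nat.add X.p0 Y.n0) (Nat.add X.n0 Y.p0)).trans ?_
    simp only [cadd]; ring
  have hl : lin E (tsub X Y) = lin E X - lin E Y := by
    unfold lin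
    have a1 : (((tsub X Y).p1 : ℕ) : ℝ) - ((tsub X Y).n1 : ℕ) = ((X.p1 : ℝ) - X.n1) - ((Y.p1 : ℝ) - Y.n1) := by
      refine (nd_sub (Nat.add X.p1 Y.n1) (Nat.add X.n1 Y.p1)).trans ?_
      simp only [cadd]; ring
    have a2 : (((tsub X Y).p2 : ℕ) : ℝ) - ((tsub X Y).n2 : ℕ) = ((X.p2 : ℝ) - X.n2) - ((Y.p2 : ℝ) - Y.n2) := by
      refine (nd_sub (Nat.add X.p2 Y.n2) (Nat.add X.n2 Y.p2)).trans ?_
      simp only [cadd]; ring
    have a3 : (((tsub X Y).p3 : ℕ) : ℝ) - ((tsub X Y).n3 : ℕ) = ((X.p3 : ℝ) - X.n3) - ((Y.p3 : ℝ) - Y.n3) := by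
      refine (nd_sub (Nat.add X.p3 Y.n3) (Nat.add X.n3 Y.p3)).trans ?_
      simp only [cadd]; ring
    have a4 : (((tsub X Y).p4 : ℕ) : ℝ) - ((tsub X Y).n4 : ℕ) = ((X.p4 : ℝ) - X.n4) - ((Y.p4 : ℝ) - Y.n4) := by
      refine (nd_sub (Nat.add X.p4 Y.n4) (Nat.add X.n4 Y.p4)).trans ?_
      simp only [cadd]; ring
    rw [a1, a2, a3, a4]
    ring
  have hr : (((tsub X Y).r : ℕ) : ℝ) = X.r + Y.r := cadd _ _
  rw [hc, hl, hr]
  rw [abs_le] at h1 h2 ⊢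
  constructor <;> linarith [h1.1, h1.2, h2.1, h2.2]

theorem enc_neg {S : ℕ} {E : Pt} {X : TM} {v : ℝ} (hX : Enc S E X v) : Enc S E (tneg X) (-v) := by
  intro hb
  have h1 := hX hb
  have hc : c0 (tneg X) = -c0 X := by unfold c0 tneg; ring
  have hl : lin E (tneg X) = -lin E X := by unfold lin tneg; ring
  have hr : (((tneg X).r : ℕ) : ℝ) = X.r := rfl
  rw [hc, hl, hr]
  rw [abs_le] at h1 ⊢
  constructor <;> linarith [h1.1, h1.2]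

theorem enc_const {S : ℕ} (E : Pt) {p n r : ℕ} {v : ℝ} (h : |(S : ℝ) * v - ((p : ℝ) - n)| ≤ r) :
    Enc S E (tconst p n r) v := by
  intro _
  have hl : lin E (tconst p n r) = 0 := by unfold lin tconst; simp
  have hc : c0 (tconst p n r) = (p : ℝ) - n := rfl
  rw [hl, hc, add_zero]
  exact h

theorem enc_var1 {S : ℕ} (E : Pt) {p n q : ℕ} {v : ℝ} (h : (S : ℝ) * v = ((p : ℝ) - n) + q * E.e1) :
    Enc S E (tvar1 p n q) v := by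
  intro _
  have hl : lin E (tvar1 p n q) = q * E.e1 := by unfold lin tvar1; simp
  have hc : c0 (tvar1 p n q) = (p : ℝ) - n := rfl
  rw [hl, hc, h]
  simp [tvar1]

theorem enc_var2 {S : ℕ} (E : Pt) {p n q : ℕ} {v : ℝ} (h : (S : ℝ) * v = ((p : ℝ) - n) + q * E.e2) :
    Enc S E (tvar2 p n q) v := by
  intro _
  have hl : lin E (tvar2 p n q) = q * E.e2 := by unfold lin tvar2; simp
  have hc : c0 (tvar2 p n q) = (p : ℝ) - n := rfl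
  rw [hl, hc, h]
  simp [tvar2]

theorem enc_var3 {S : ℕ} (E : Pt) {p n q : ℕ} {v : ℝ} (h : (S : ℝ) * v = ((p : ℝ) - n) + q * E.e3) :
    Enc S E (tvar3 p n q) v := by
  intro _
  have hl : lin E (tvar3 p n q) = q * E.e3 := by unfold lin tvar3; simp
  have hc : c0 (tvar3 p n q) = (p : ℝ) - n := rfl
  rw [hl, hc, h]
  simp [tvar3]

theorem enc_var4 {S : ℕ} (E : Pt) {p n q : ℕ} {v : ℝ} (h : (S : ℝ) * v = ((p : ℝ) - n) + q * E.e4) :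
    Enc S E (tvar4 p n q) v := by
  intro _
  have hl : lin E (tvar4 p n q) = q * E.e4 := by unfold lin tvar4; simp
  have hc : c0 (tvar4 p n q) = (p : ℝ) - n := rfl
  rw [hl, hc, h]
  simp [tvar4]

theorem enc_rat {S : ℕ} (E : Pt) (a : ℕ) {b : ℕ} (hb : 0 < b) :
    Enc S E (tconst (Nat.div (Nat.mul a S) b) 0 1) ((a : ℝ) / b) := by
  refine enc_const E ?_
  have h1 := cdiv_le (Nat.mul a S) b
  have h2 := lt_cdiv (a := Nat.mul a S) hb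
  rw [cmul] at h1 h2
  have e : (S : ℝ) * ((a : ℝ) / b) = (a : ℝ) * S / b := by ring
  rw [e, abs_le]
  push_cast
  constructor <;> linarith

theorem enc_nc {S : ℕ} (E : Pt) (a : ℕ) : Enc S E (tconst (Nat.mul a S) 0 0) (a : ℝ) := by
  refine enc_const E ?_
  rw [cmul]
  simp [mul_comm]

theorem enc_sqrtn {S : ℕ} (E : Pt) {m p : ℕ} (h1 : p * p ≤ m * S * S) (h2 : m * S * S ≤ (p + 1) * (p + 1)) :
    Enc S E (tconst p 0 1) (Real.sqrt m) := by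
  refine enc_const E ?_
  simpa using sqrtn_err h1 h2

/-- The enclosure from roundings of the coefficients. -/
theorem of_round {E : Pt} {Z : TM} {V z0 z1 z2 z3 z4 R : ℝ} (h0 : |c0 Z - z0| ≤ 1)
    (h1 : |((Z.p1 : ℝ) - Z.n1) - z1| ≤ 1)
    (h2 : |((Z.p2 : ℝ) - Z.n2) - z2| ≤ 1)
    (h3 : |((Z.p3 : ℝ) - Z.n3) - z3| ≤ 1)
    (h4 : |((Z.p4 : ℝ) - Z.n4) - z4| ≤ 1)
    (h : |V - (z0 + (z1 * E.e1 + z2 * E.e2 + z3 * E.e3 + z4 * E.e4))| ≤ R) :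
    |V - (c0 Z + lin E Z)| ≤ R + 5 := by
  unfold lin
  have a1 := mul_e h1 E.h1
  have a2 := mul_e h2 E.h2
  have a3 := mul_e h3 E.h3
  have a4 := mul_e h4 E.h4
  rw [abs_le] at a1 a2 a3 a4 h0 h ⊢
  constructor <;> linarith [a1.1, a1.2, a2.1, a2.2, a3.1, a3.2, a4.1, a4.2, h0.1, h0.2, h.1, h.2]

theorem enc_scale {S : ℕ} {E : Pt} {X : TM} {v : ℝ} (a : ℕ) {b : ℕ} (hb0 : 0 < b) (hX : Enc S E X v) :
    Enc S E (tscale a b X) ((a : ℝ) / b * v) := by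
  intro hb
  have h1 := hX hb
  have hbr : (0 : ℝ) < b := by exact_mod_cast hb0
  have h3 := lt_cdiv (a := Nat.mul X.r a) hb0
  have hr : (((tscale a b X).r : ℕ) : ℝ) = (Nat.div (Nat.mul X.r a) b : ℕ) + (6 : ℕ) := cadd _ _
  rw [hr]
  rw [cmul] at h3
  have h4 : |(S : ℝ) * ((a : ℝ) / b * v) - ((a : ℝ) / b * c0 X + ((a : ℝ) / b * ((X.p1 : ℝ) - X.n1) * E.e1 + (a : ℝ) / b * ((X.p2 : ℝ) - X.n2) * E.e2 + (a : ℝ) / b * ((X.p3 : ℝ) - X.n3) * E.e3 + (a : ℝ) / b * ((X.p4 : ℝ) - X.n4) * E.e4))| ≤ (X.r : ℝ) * a / b := by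
    have h5 : (S : ℝ) * ((a : ℝ) / b * v) - ((a : ℝ) / b * c0 X + ((a : ℝ) / b * ((X.p1 : ℝ) - X.n1) * E.e1 + (a : ℝ) / b * ((X.p2 : ℝ) - X.n2) * E.e2 + (a : ℝ) / b * ((X.p3 : ℝ) - X.n3) * E.e3 + (a : ℝ) / b * ((X.p4 : ℝ) - X.n4) * E.e4)) = (a : ℝ) / b * ((S : ℝ) * v - (c0 X + lin E X)) := by
      unfold lin; ring
    rw [h5, abs_mul, abs_of_nonneg (by positivity : (0 : ℝ) ≤ (a : ℝ) / b)]
    calc (a : ℝ) / b * |(S : ℝ) * v - (c0 X + lin E X)| ≤ (a : ℝ) / b * X.r := by gcongr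
      _ = _ := by ring
  have r0 : |((((tscale a b X).p0 : ℕ) : ℝ) - ((tscale a b X).n0 : ℕ)) - (a : ℝ) / b * ((X.p0 : ℝ) - X.n0)| ≤ 1 := by
    have := rd2 (Nat.mul X.p0 a) (Nat.mul X.n0 a) hb0
    rw [cmul, cmul] at this
    have e1 : (a : ℝ) / b * ((X.p0 : ℝ) - X.n0) = ((X.p0 : ℝ) * a - X.n0 * a) / b := by ring
    rw [e1]; exact this
  have r1 : |((((tscale a b X).p1 : ℕ) : ℝ) - ((tscale a b X).n1 : ℕ)) - (a : ℝ) / b * ((X.p1 : ℝ) - X.n1)| ≤ 1 := by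
    have := rd2 (Nat.mul X.p1 a) (Nat.mul X.n1 a) hb0
    rw [cmul, cmul] at this
    have e1 : (a : ℝ) / b * ((X.p1 : ℝ) - X.n1) = ((X.p1 : ℝ) * a - X.n1 * a) / b := by ring
    rw [e1]; exact this
  have r2 : |((((tscale a b X).p2 : ℕ) : ℝ) - ((tscale a b X).n2 : ℕ)) - (a : ℝ) / b * ((X.p2 : ℝ) - X.n2)| ≤ 1 := by
    have := rd2 (Nat.mul X.p2 a) (Nat.mul X.n2 a) hb0
    rw [cmul, cmul] at this
    have e1 : (a : ℝ) / b * ((X.p2 : ℝ) - X.n2) = ((X.p2 : ℝ) * a - X.n2 * a) / b := by ring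
    rw [e1]; exact this
  have r3 : |((((tscale a b X).p3 : ℕ) : ℝ) - ((tscale a b X).n3 : ℕ)) - (a : ℝ) / b * ((X.p3 : ℝ) - X.n3)| ≤ 1 := by
    have := rd2 (Nat.mul X.p3 a) (Nat.mul X.n3 a) hb0
    rw [cmul, cmul] at this
    have e1 : (a : ℝ) / b * ((X.p3 : ℝ) - X.n3) = ((X.p3 : ℝ) * a - X.n3 * a) / b := by ring
    rw [e1]; exact this
  have r4 : |((((tscale a b X).p4 : ℕ) : ℝ) - ((tscale a b X).n4 : ℕ)) - (a : ℝ) / b * ((X.p4 : ℝ) - X.n4)| ≤ 1 := by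
    have := rd2 (Nat.mul X.p4 a) (Nat.mul X.n4 a) hb0
    rw [cmul, cmul] at this
    have e1 : (a : ℝ) / b * ((X.p4 : ℝ) - X.n4) = ((X.p4 : ℝ) * a - X.n4 * a) / b := by ring
    rw [e1]; exact this
  refine (of_round r0 r1 r2 r3 r4 h4).trans ?_
  push_cast
  linarith

theorem enc_nat {S : ℕ} {E : Pt} {X : TM} {v : ℝ} (a : ℕ) (hX : Enc S E X v) :
    Enc S E (tnat a X) ((a : ℝ) * v) := by
  intro hb
  have h1 := hX hb
  have hc : c0 (tnat a X) = (a : ℝ) * c0 X := by unfold c0 tnat; simp only [cmul]; ring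
  have hl : lin E (tnat a X) = (a : ℝ) * lin E X := by unfold lin tnat; simp only [cmul]; ring
  have hr : (((tnat a X).r : ℕ) : ℝ) = X.r * a := cmul _ _
  rw [hc, hl, hr]
  have h2 : (S : ℝ) * ((a : ℝ) * v) - ((a : ℝ) * c0 X + (a : ℝ) * lin E X) = (a : ℝ) * ((S : ℝ) * v - (c0 X + lin E X)) := by ring
  rw [h2, abs_mul, abs_of_nonneg (Nat.cast_nonneg a), mul_comm]
  gcongr

theorem enc_mul {S : ℕ} (hS : 0 < S) {E : Pt} {X Y : TM} {v w : ℝ} (hX : Enc S E X v) (hY : Enc S E Y w) :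
    Enc S E (tmul S X Y) (v * w) := by
  intro hb
  obtain ⟨b1, b2⟩ := bad_add hb
  have h1 := hX b1
  have h2 := hY b2
  have hSr : (0 : ℝ) < S := by exact_mod_cast hS
  have h3 := mul_core hSr h1 h2 (lin_le E X) (lin_le E Y)
  have h3a : (S : ℝ) * v * ((S : ℝ) * w) / S = (S : ℝ) * (v * w) := by field_simp
  rw [h3a] at h3
  have h4 := lt_cdiv (a := Nat.add (Nat.mul (rad X) (rad Y)) (Nat.add (Nat.mul (mid X) Y.r) (Nat.mul (mid Y) X.r))) hS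
  simp only [cadd, cmul] at h4
  rw [rad_cast, rad_cast] at h4
  have hr : (((tmul S X Y).r : ℕ) : ℝ) = (Nat.div (Nat.add (Nat.mul (rad X) (rad Y)) (Nat.add (Nat.mul (mid X) Y.r) (Nat.mul (mid Y) X.r))) S : ℕ) + (6 : ℕ) := cadd _ _
  rw [hr]
  have h5 : ((rdl X + X.r : ℝ) * (rdl Y + Y.r) + (|c0 X| * Y.r + |c0 Y| * X.r)) / S ≤ ((rdl X + X.r : ℝ) * (rdl Y + Y.r) + ((mid X : ℕ) * Y.r + (mid Y : ℕ) * X.r)) / S := by
    have := mid_le X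
    have := mid_le Y
    gcongr
  have h6 : |(S : ℝ) * (v * w) - (c0 X * c0 Y / S + ((c0 X * ((Y.p1 : ℝ) - Y.n1) + c0 Y * ((X.p1 : ℝ) - X.n1)) / S * E.e1 + (c0 X * ((Y.p2 : ℝ) - Y.n2) + c0 Y * ((X.p2 : ℝ) - X.n2)) / S * E.e2 + (c0 X * ((Y.p3 : ℝ) - Y.n3) + c0 Y * ((X.p3 : ℝ) - X.n3)) / S * E.e3 + (c0 X * ((Y.p4 : ℝ) - Y.n4) + c0 Y * ((X.p4 : ℝ) - X.n4)) / S * E.e4))| ≤ ((rdl X + X.r : ℝ) * (rdl Y + Y.r) + (|c0 X| * Y.r + |c0 Y| * X.r)) / S := by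
    have h7 : c0 X * c0 Y / S + ((c0 X * ((Y.p1 : ℝ) - Y.n1) + c0 Y * ((X.p1 : ℝ) - X.n1)) / S * E.e1 + (c0 X * ((Y.p2 : ℝ) - Y.n2) + c0 Y * ((X.p2 : ℝ) - X.n2)) / S * E.e2 + (c0 X * ((Y.p3 : ℝ) - Y.n3) + c0 Y * ((X.p3 : ℝ) - X.n3)) / S * E.e3 + (c0 X * ((Y.p4 : ℝ) - Y.n4) + c0 Y * ((X.p4 : ℝ) - X.n4)) / S * E.e4) = c0 X * c0 Y / S + (c0 X * lin E Y + c0 Y * lin E X) / S := by
      unfold lin; ring
    rw [h7]; exact h3
  have r0 : |c0 (tmul S X Y) - c0 X * c0 Y / S| ≤ 1 := by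
    have := rd (mp X.p0 X.n0 Y.p0 Y.n0) (mn X.p0 X.n0 Y.p0 Y.n0) hS
    rw [cmpn] at this
    exact this
  have r1 : |((((tmul S X Y).p1 : ℕ) : ℝ) - ((tmul S X Y).n1 : ℕ)) - (c0 X * ((Y.p1 : ℝ) - Y.n1) + c0 Y * ((X.p1 : ℝ) - X.n1)) / S| ≤ 1 := by
    have := rd (Nat.add (mp X.p0 X.n0 Y.p1 Y.n1) (mp Y.p0 Y.n0 X.p1 X.n1)) (Nat.add (mn X.p0 X.n0 Y.p1 Y.n1) (mn Y.p0 Y.n0 X.p1 X.n1)) hS
    have e1 : (((Nat.add (mp X.p0 X.n0 Y.p1 Y.n1) (mp Y.p0 Y.n0 X.p1 X.n1) : ℕ) : ℝ) - (Nat.add (mn X.p0 X.n0 Y.p1 Y.n1) (mn Y.p0 Y.n0 X.p1 X.n1) : ℕ)) = c0 X * ((Y.p1 : ℝ) - Y.n1) + c0 Y * ((X.p1 : ℝ) - X.n1) := by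
      rw [cadd, cadd]
      have u1 := cmpn X.p0 X.n0 Y.p1 Y.n1
      have u2 := cmpn Y.p0 Y.n0 X.p1 X.n1
      unfold c0
      linarith
    rw [e1] at this; exact this
  have r2 : |((((tmul S X Y).p2 : ℕ) : ℝ) - ((tmul S X Y).n2 : ℕ)) - (c0 X * ((Y.p2 : ℝ) - Y.n2) + c0 Y * ((X.p2 : ℝ) - X.n2)) / S| ≤ 1 := by
    have := rd (Nat.add (mp X.p0 X.n0 Y.p2 Y.n2) (mp Y.p0 Y.n0 X.p2 X.n2)) (Nat.add (mn X.p0 X.n0 Y.p2 Y.n2) (mn Y.p0 Y.n0 X.p2 X.n2)) hS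
    have e1 : (((Nat.add (mp X.p0 X.n0 Y.p2 Y.n2) (mp Y.p0 Y.n0 X.p2 X.n2) : ℕ) : ℝ) - (Nat.add (mn X.p0 X.n0 Y.p2 Y.n2) (mn Y.p0 Y.n0 X.p2 X.n2) : ℕ)) = c0 X * ((Y.p2 : ℝ) - Y.n2) + c0 Y * ((X.p2 : ℝ) - X.n2) := by
      rw [cadd, cadd]
      have u1 := cmpn X.p0 X.n0 Y.p2 Y.n2
      have u2 := cmpn Y.p0 Y.n0 X.p2 X.n2
      unfold c0
      linarith
    rw [e1] at this; exact this
  have r3 : |((((tmul S X Y).p3 : ℕ) : ℝ) - ((tmul S X Y).n3 : ℕ)) - (c0 X * ((Y.p3 : ℝ) - Y.n3) + c0 Y * ((X.p3 : ℝ) - X.n3)) / S| ≤ 1 := by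
    have := rd (Nat.add (mp X.p0 X.n0 Y.p3 Y.n3) (mp Y.p0 Y.n0 X.p3 X.n3)) (Nat.add (mn X.p0 X.n0 Y.p3 Y.n3) (mn Y.p0 Y.n0 X.p3 X.n3)) hS
    have e1 : (((Nat.add (mp X.p0 X.n0 Y.p3 Y.n3) (mp Y.p0 Y.n0 X.p3 X.n3) : ℕ) : ℝ) - (Nat.add (mn X.p0 X.n0 Y.p3 Y.n3) (mn Y.p0 Y.n0 X.p3 X.n3) : ℕ)) = c0 X * ((Y.p3 : ℝ) - Y.n3) + c0 Y * ((X.p3 : ℝ) - X.n3) := by
      rw [cadd, cadd]
      have u1 := cmpn X.p0 X.n0 Y.p3 Y.n3
      have u2 := cmpn Y.p0 Y.n0 X.p3 X.n3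
      unfold c0
      linarith
    rw [e1] at this; exact this
  have r4 : |((((tmul S X Y).p4 : ℕ) : ℝ) - ((tmul S X Y).n4 : ℕ)) - (c0 X * ((Y.p4 : ℝ) - Y.n4) + c0 Y * ((X.p4 : ℝ) - X.n4)) / S| ≤ 1 := by
    have := rd (Nat.add (mp X.p0 X.n0 Y.p4 Y.n4) (mp Y.p0 Y.n0 X.p4 X.n4)) (Nat.add (mn X.p0 X.n0 Y.p4 Y.n4) (mn Y.p0 Y.n0 X.p4 X.n4)) hS
    have e1 : (((Nat.add (mp X.p0 X.n0 Y.p4 Y.n4) (mp Y.p0 Y.n0 X.p4 X.n4) : ℕ) : ℝ) - (Nat.add (mn X.p0 X.n0 Y.p4 Y.n4) (mn Y.p0 Y.n0 X.p4 X.n4) : ℕ)) = c0 X * ((Y.p4 : ℝ) - Y.n4) + c0 Y * ((X.p4 : ℝ) - X.n4) := by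
      rw [cadd, cadd]
      have u1 := cmpn X.p0 X.n0 Y.p4 Y.n4
      have u2 := cmpn Y.p0 Y.n0 X.p4 X.n4
      unfold c0
      linarith
    rw [e1] at this; exact this
  refine (of_round r0 r1 r2 r3 r4 h6).trans ?_
  push_cast
  linarith

theorem enc_sq {S : ℕ} (hS : 0 < S) {E : Pt} {X : TM} {v : ℝ} (hX : Enc S E X v) :
    Enc S E (tsq S X) (v ^ 2) := by
  intro hb
  have h1 := hX hb
  have hSr : (0 : ℝ) < S := by exact_mod_cast hS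
  have hS1 : (1 : ℝ) ≤ S := by exact_mod_cast hS
  have h3 := sq_core hSr h1 (lin_le E X)
  have h3a : ((S : ℝ) * v) ^ 2 / S = (S : ℝ) * v ^ 2 := by field_simp
  rw [h3a, ← rad_cast] at h3
  have h4 := lt_cdiv (a := Nat.add (hsq X) (Nat.mul 2 (Nat.mul (mid X) X.r))) hS
  simp only [cadd, cmul] at h4
  have g1 := lt_cdiv (a := Nat.mul (rad X) (rad X)) (b := 2) (by norm_num)
  have g2 := cdiv_le (Nat.mul (rad X) (rad X)) 2
  have g3 : ((Nat.div (Nat.mul (rad X) (rad X)) 2 : ℕ) : ℝ) = (hsq X : ℕ) := rfl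
  rw [cmul, g3] at g1 g2
  push_cast at g1 g2 h4
  have g4 : (rad X : ℝ) ^ 2 / 2 / S ≤ ((hsq X : ℕ) : ℝ) / S + 1 := by
    have : (rad X : ℝ) ^ 2 / 2 / S ≤ (((hsq X : ℕ) : ℝ) + 1) / S := by gcongr; linarith
    have : (((hsq X : ℕ) : ℝ) + 1) / S ≤ ((hsq X : ℕ) : ℝ) / S + 1 := by rw [add_div]; gcongr; rw [div_le_one hSr]; exact hS1
    linarith
  have g5 : ((hsq X : ℕ) : ℝ) / S ≤ (rad X : ℝ) ^ 2 / 2 / S := by gcongr; linarith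
  have hr : (((tsq S X).r : ℕ) : ℝ) = (Nat.div (Nat.add (hsq X) (Nat.mul 2 (Nat.mul (mid X) X.r))) S : ℕ) + (8 : ℕ) := cadd _ _
  rw [hr]
  have h5 : ((rad X : ℝ) ^ 2 / 2 + 2 * |c0 X| * X.r) / S ≤ ((hsq X : ℕ) + 2 * ((mid X : ℕ) * (X.r : ℝ))) / S + 1 := by
    have h6 := mid_le X
    have h7 : (2 * |c0 X| * X.r) / S ≤ (2 * ((mid X : ℕ) * (X.r : ℝ))) / S := by
      rw [mul_assoc]; gcongr
    rw [add_div, add_div]
    linarith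
  have h6 : |(S : ℝ) * v ^ 2 - ((c0 X ^ 2 / S + ((hsq X : ℕ) : ℝ) / S) + (2 * (c0 X * ((X.p1 : ℝ) - X.n1)) / S * E.e1 + 2 * (c0 X * ((X.p2 : ℝ) - X.n2)) / S * E.e2 + 2 * (c0 X * ((X.p3 : ℝ) - X.n3)) / S * E.e3 + 2 * (c0 X * ((X.p4 : ℝ) - X.n4)) / S * E.e4))| ≤ ((rad X : ℝ) ^ 2 / 2 + 2 * |c0 X| * X.r) / S + 1 := by
    have h7 : (2 * (c0 X * ((X.p1 : ℝ) - X.n1)) / S * E.e1 + 2 * (c0 X * ((X.p2 : ℝ) - X.n2)) / S * E.e2 + 2 * (c0 X * ((X.p3 : ℝ) - X.n3)) / S * E.e3 + 2 * (c0 X * ((X.p4 : ℝ) - X.n4)) / S * E.e4) = 2 * c0 X * lin E X / S := by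
      unfold lin; ring
    rw [h7]
    rw [abs_le] at h3 ⊢
    constructor <;> linarith [h3.1, h3.2]
  have r0 : |c0 (tsq S X) - (c0 X ^ 2 / S + ((hsq X : ℕ) : ℝ) / S)| ≤ 1 := by
    have := rd2 (Nat.add (mp X.p0 X.n0 X.p0 X.n0) (hsq X)) (mn X.p0 X.n0 X.p0 X.n0) hS
    rw [cadd] at this
    have u1 := cmpn X.p0 X.n0 X.p0 X.n0
    have e1 : (((mp X.p0 X.n0 X.p0 X.n0 : ℕ) : ℝ) + (hsq X : ℕ) - (mn X.p0 X.n0 X.p0 X.n0 : ℕ)) = c0 X ^ 2 + (hsq X : ℕ) := by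
      unfold c0; nlinarith
    rw [e1, add_div] at this
    exact this
  have r1 : |((((tsq S X).p1 : ℕ) : ℝ) - ((tsq S X).n1 : ℕ)) - 2 * (c0 X * ((X.p1 : ℝ) - X.n1)) / S| ≤ 1 := by
    have := rd2 (Nat.mul 2 (mp X.p0 X.n0 X.p1 X.n1)) (Nat.mul 2 (mn X.p0 X.n0 X.p1 X.n1)) hS
    rw [cmul, cmul] at this
    have u1 := cmpn X.p0 X.n0 X.p1 X.n1
    push_cast at this
    have e1 : (2 * ((mp X.p0 X.n0 X.p1 X.n1 : ℕ) : ℝ) - 2 * (mn X.p0 X.n0 X.p1 X.n1 : ℕ)) = 2 * (c0 X * ((X.p1 : ℝ) - X.n1)) := by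
      unfold c0; linarith
    rw [e1] at this; exact this
  have r2 : |((((tsq S X).p2 : ℕ) : ℝ) - ((tsq S X).n2 : ℕ)) - 2 * (c0 X * ((X.p2 : ℝ) - X.n2)) / S| ≤ 1 := by
    have := rd2 (Nat.mul 2 (mp X.p0 X.n0 X.p2 X.n2)) (Nat.mul 2 (mn X.p0 X.n0 X.p2 X.n2)) hS
    rw [cmul, cmul] at this
    have u1 := cmpn X.p0 X.n0 X.p2 X.n2
    push_cast at this
    have e1 : (2 * ((mp X.p0 X.n0 X.p2 X.n2 : ℕ) : ℝ) - 2 * (mn X.p0 X.n0 X.p2 X.n2 : ℕ)) = 2 * (c0 X * ((X.p2 : ℝ) - X.n2)) := by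
      unfold c0; linarith
    rw [e1] at this; exact this
  have r3 : |((((tsq S X).p3 : ℕ) : ℝ) - ((tsq S X).n3 : ℕ)) - 2 * (c0 X * ((X.p3 : ℝ) - X.n3)) / S| ≤ 1 := by
    have := rd2 (Nat.mul 2 (mp X.p0 X.n0 X.p3 X.n3)) (Nat.mul 2 (mn X.p0 X.n0 X.p3 X.n3)) hS
    rw [cmul, cmul] at this
    have u1 := cmpn X.p0 X.n0 X.p3 X.n3
    push_cast at this
    have e1 : (2 * ((mp X.p0 X.n0 X.p3 X.n3 : ℕ) : ℝ) - 2 * (mn X.p0 X.n0 X.p3 X.n3 : ℕ)) = 2 * (c0 X * ((X.p3 : ℝ) - X.n3)) := by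
      unfold c0; linarith
    rw [e1] at this; exact this
  have r4 : |((((tsq S X).p4 : ℕ) : ℝ) - ((tsq S X).n4 : ℕ)) - 2 * (c0 X * ((X.p4 : ℝ) - X.n4)) / S| ≤ 1 := by
    have := rd2 (Nat.mul 2 (mp X.p0 X.n0 X.p4 X.n4)) (Nat.mul 2 (mn X.p0 X.n0 X.p4 X.n4)) hS
    rw [cmul, cmul] at this
    have u1 := cmpn X.p0 X.n0 X.p4 X.n4
    push_cast at this
    have e1 : (2 * ((mp X.p0 X.n0 X.p4 X.n4 : ℕ) : ℝ) - 2 * (mn X.p0 X.n0 X.p4 X.n4 : ℕ)) = 2 * (c0 X * ((X.p4 : ℝ) - X.n4)) := by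
      unfold c0; linarith
    rw [e1] at this; exact this
  refine (of_round r0 r1 r2 r3 r4 h6).trans ?_
  push_cast
  linarith

theorem cen_pos {X : TM} (h : npos X = 0) : 0 < cen X ∧ c0 X = (cen X : ℕ) ∧ ((rad X : ℕ) : ℝ) < (cen X : ℕ) := by
  have h1 := le_nd_zero h
  rw [cadd] at h1
  push_cast at h1
  have h2 : (0 : ℝ) ≤ (rad X : ℕ) := Nat.cast_nonneg _
  have h3 : (0 : ℝ) < (cen X : ℕ) := by linarith
  have h4 : 0 < cen X := by exact_mod_cast h3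
  refine ⟨h4, ?_, by linarith⟩
  have h5 := nd_sub X.p0 X.n0
  have h6 : nd X.n0 X.p0 = 0 := by
    have h7 : 0 < X.p0 - X.n0 := h4
    have h8 : X.n0 - X.p0 = 0 := by omega
    exact h8
  rw [h6] at h5
  have h9 : ((nd X.p0 X.n0 : ℕ) : ℝ) = (cen X : ℕ) := rfl
  unfold c0
  rw [h9] at h5
  simp only [Nat.cast_zero, sub_zero] at h5
  linarith

theorem val_pos {S : ℕ} (hS : 0 < S) {E : Pt} {X : TM} {v : ℝ} (hX : |(S : ℝ) * v - (c0 X + lin E X)| ≤ X.r) (h : npos X = 0) : 0 < v := by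
  obtain ⟨h1, h2, h3⟩ := cen_pos h
  have h4 := dist_c hX
  rw [abs_le] at h4
  have hSr : (0 : ℝ) < S := by exact_mod_cast hS
  have h5 : 0 < (S : ℝ) * v := by linarith [h4.1]
  exact (mul_pos_iff_of_pos_left hSr).mp h5

theorem half_floor (m : ℕ) : |((Nat.div m 2 : ℕ) : ℝ) - ((m : ℝ) + 1) / 2| ≤ 1 ∧ ((m : ℝ) + 1) / 2 ≤ (Nat.div m 2 : ℕ) + 1 := by
  have h1 := cdiv_le m 2
  have h2 := lt_cdiv (a := m) (b := 2) (by norm_num)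
  have h3 : (m : ℝ) < 2 * (Nat.div m 2 : ℕ) + 2 := by push_cast at h2; linarith
  have h4 : m < 2 * Nat.div m 2 + 2 := by exact_mod_cast h3
  have h5 : m + 1 ≤ 2 * Nat.div m 2 + 2 := h4
  have h6 : (m : ℝ) + 1 ≤ 2 * (Nat.div m 2 : ℕ) + 2 := by exact_mod_cast h5
  push_cast at h1
  rw [abs_le]
  refine ⟨⟨?_, ?_⟩, ?_⟩ <;> linarith

theorem enc_inv {S : ℕ} (hS : 0 < S) {E : Pt} {X : TM} {v : ℝ} (hX : Enc S E X v) :
    Enc S E (tinv S X) (v⁻¹) := by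
  intro hb
  obtain ⟨b1, b2⟩ := bad_add hb
  have h1 := hX b1
  have hv := val_pos hS h1 b2
  obtain ⟨hc, hcc, hcr⟩ := cen_pos b2
  have hSr : (0 : ℝ) < S := by exact_mod_cast hS
  have hcR : (0 : ℝ) < (cen X : ℕ) := by exact_mod_cast hc
  rw [hcc] at h1
  have hrr : ((rdl X : ℕ) : ℝ) + X.r < (cen X : ℕ) := by rw [← rad_cast]; exact hcr
  set t : ℕ := invc S X with ht
  have t1 := cdiv_le (Nat.mul S S) (cen X)
  have t2 := lt_cdiv (a := Nat.mul S S) hc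
  rw [cmul] at t1 t2
  have t3 : ((Nat.div (Nat.mul S S) (cen X) : ℕ) : ℝ) = (t : ℕ) := rfl
  rw [t3] at t1 t2
  set m : ℕ := Nat.div (Nat.mul (Nat.add (invc S X) 1) (Nat.mul (rad X) (rad X))) (Nat.mul (cen X) (nd (cen X) (rad X))) with hm
  have hnd : ((nd (cen X) (rad X) : ℕ) : ℝ) = (cen X : ℕ) - (rad X : ℕ) := by
    have : rad X ≤ cen X := by exact_mod_cast hcr.le
    exact Nat.cast_sub this
  have hnd0 : 0 < nd (cen X) (rad X) := by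
    have : (0 : ℝ) < (nd (cen X) (rad X) : ℕ) := by rw [hnd]; linarith
    exact_mod_cast this
  have hM := lt_cdiv (a := Nat.mul (Nat.add (invc S X) 1) (Nat.mul (rad X) (rad X))) (b := Nat.mul (cen X) (nd (cen X) (rad X))) (Nat.mul_pos hc hnd0)
  rw [← hm] at hM
  simp only [cmul, cadd] at hM
  rw [hnd, ← ht, rad_cast] at hM
  have hM2 : ((t : ℝ) + 1) * ((rdl X : ℕ) + (X.r : ℝ)) ^ 2 / ((cen X : ℕ) * ((cen X : ℕ) - ((rdl X : ℕ) + (X.r : ℝ)))) ≤ (m : ℝ) + 1 := by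
    refine le_trans (le_of_eq ?_) hM.le
    push_cast
    ring
  have key := inv_core (S := (S : ℝ)) hcR hrr h1 (lin_le E X) (Nat.cast_nonneg t) (by rw [sq]; exact t1) (by rw [sq]; exact t2.le) hM2
  have k1 : (S : ℝ) ^ 2 / ((S : ℝ) * v) = (S : ℝ) * v⁻¹ := by field_simp
  rw [k1] at key
  obtain ⟨f1, f2⟩ := half_floor m
  have f3 : ((Nat.div m 2 : ℕ) : ℝ) = (invm S X : ℕ) := rfl
  rw [f3] at f1 f2
  have g1 := lt_cdiv (a := Nat.mul (Nat.add (invc S X) 1) X.r) hc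
  rw [cmul, cadd, ← ht] at g1
  have hr : (((tinv S X).r : ℕ) : ℝ) = ((Nat.div (Nat.mul (Nat.add t 1) X.r) (cen X) : ℕ) : ℝ) + (invm S X : ℕ) + (9 : ℕ) := by
    refine (cadd _ _).trans ?_
    rw [cadd]
  rw [hr]
  push_cast at g1
  have h6 : |(S : ℝ) * v⁻¹ - (((t : ℝ) + ((m : ℝ) + 1) / 2) + (-((t : ℝ) * ((X.p1 : ℝ) - X.n1)) / (cen X : ℕ) * E.e1 + -((t : ℝ) * ((X.p2 : ℝ) - X.n2)) / (cen X : ℕ) * E.e2 + -((t : ℝ) * ((X.p3 : ℝ) - X.n3)) / (cen X : ℕ) * E.e3 + -((t : ℝ) * ((X.p4 : ℝ) - X.n4)) / (cen X : ℕ) * E.e4))| ≤ 2 + ((t : ℝ) + 1) * X.r / (cen X : ℕ) + ((m : ℝ) + 1) / 2 := by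
    have h7 : (-((t : ℝ) * ((X.p1 : ℝ) - X.n1)) / (cen X : ℕ) * E.e1 + -((t : ℝ) * ((X.p2 : ℝ) - X.n2)) / (cen X : ℕ) * E.e2 + -((t : ℝ) * ((X.p3 : ℝ) - X.n3)) / (cen X : ℕ) * E.e3 + -((t : ℝ) * ((X.p4 : ℝ) - X.n4)) / (cen X : ℕ) * E.e4) = -((t : ℝ) * lin E X / (cen X : ℕ)) := by
      unfold lin; ring
    rw [h7, ← sub_eq_add_neg]; exact key
  have r0 : |c0 (tinv S X) - ((t : ℝ) + ((m : ℝ) + 1) / 2)| ≤ 1 := by
    have e1 : c0 (tinv S X) = (t : ℝ) + (invm S X : ℕ) := by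
      have : c0 (tinv S X) = ((Nat.add (invc S X) (invm S X) : ℕ) : ℝ) - ((0 : ℕ) : ℝ) := rfl
      rw [this, cadd]; simp [ht]
    rw [e1]
    have e2 : (t : ℝ) + (invm S X : ℕ) - ((t : ℝ) + ((m : ℝ) + 1) / 2) = (invm S X : ℕ) - ((m : ℝ) + 1) / 2 := by ring
    rw [e2]; exact f1
  have r1 : |((((tinv S X).p1 : ℕ) : ℝ) - ((tinv S X).n1 : ℕ)) - -((t : ℝ) * ((X.p1 : ℝ) - X.n1)) / (cen X : ℕ)| ≤ 1 := by
    have := rd2 (Nat.mul (invc S X) X.n1) (Nat.mul (invc S X) X.p1) hc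
    rw [cmul, cmul, ← ht] at this
    have e1 : -((t : ℝ) * ((X.p1 : ℝ) - X.n1)) / (cen X : ℕ) = ((t : ℝ) * X.n1 - (t : ℝ) * X.p1) / (cen X : ℕ) := by ring
    rw [e1]; exact this
  have r2 : |((((tinv S X).p2 : ℕ) : ℝ) - ((tinv S X).n2 : ℕ)) - -((t : ℝ) * ((X.p2 : ℝ) - X.n2)) / (cen X : ℕ)| ≤ 1 := by
    have := rd2 (Nat.mul (invc S X) X.n2) (Nat.mul (invc S X) X.p2) hc
    rw [cmul, cmul, ← ht] at this
    have e1 : -((t : ℝ) * ((X.p2 : ℝ) - X.n2)) / (cen X : ℕ) = ((t : ℝ) * X.n2 - (t : ℝ) * X.p2) / (cen X : ℕ) := by ring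
    rw [e1]; exact this
  have r3 : |((((tinv S X).p3 : ℕ) : ℝ) - ((tinv S X).n3 : ℕ)) - -((t : ℝ) * ((X.p3 : ℝ) - X.n3)) / (cen X : ℕ)| ≤ 1 := by
    have := rd2 (Nat.mul (invc S X) X.n3) (Nat.mul (invc S X) X.p3) hc
    rw [cmul, cmul, ← ht] at this
    have e1 : -((t : ℝ) * ((X.p3 : ℝ) - X.n3)) / (cen X : ℕ) = ((t : ℝ) * X.n3 - (t : ℝ) * X.p3) / (cen X : ℕ) := by ring
    rw [e1]; exact this
  have r4 : |((((tinv S X).p4 : ℕ) : ℝ) - ((tinv S X).n4 : ℕ)) - -((t : ℝ) * ((X.p4 : ℝ) - X.n4)) / (cen X : ℕ)| ≤ 1 := by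
    have := rd2 (Nat.mul (invc S X) X.n4) (Nat.mul (invc S X) X.p4) hc
    rw [cmul, cmul, ← ht] at this
    have e1 : -((t : ℝ) * ((X.p4 : ℝ) - X.n4)) / (cen X : ℕ) = ((t : ℝ) * X.n4 - (t : ℝ) * X.p4) / (cen X : ℕ) := by ring
    rw [e1]; exact this
  refine (of_round r0 r1 r2 r3 r4 h6).trans ?_
  push_cast
  linarith

theorem enc_sqrt {S : ℕ} (hS : 0 < S) {E : Pt} {X : TM} {v : ℝ} (hX : Enc S E X v) :
    Enc S E (tsqrt S X) (Real.sqrt v) := by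
  intro hb
  obtain ⟨b1, b2⟩ := bad_add hb
  have h1 := hX b1
  have hv := val_pos hS h1 b2
  obtain ⟨hc, hcc, hcr⟩ := cen_pos b2
  have hSr : (0 : ℝ) < S := by exact_mod_cast hS
  have hcR : (0 : ℝ) < (cen X : ℕ) := by exact_mod_cast hc
  rw [hcc] at h1
  have hrr : ((rdl X : ℕ) : ℝ) + X.r < (cen X : ℕ) := by rw [← rad_cast]; exact hcr
  set s : ℕ := sqc S X with hs
  set e : ℕ := sqe S X with he
  have hs0 : 0 < s := Nat.succ_pos _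
  have hsR : (0 : ℝ) < (s : ℕ) := by exact_mod_cast hs0
  have herr : |Real.sqrt ((S : ℝ) * (cen X : ℕ)) - s| ≤ (e : ℝ) := by
    refine sqrt_err hsR (by positivity) ?_
    have u1 := lt_cdiv (a := Nat.add (nd (Nat.mul s s) (Nat.mul S (cen X))) (nd (Nat.mul S (cen X)) (Nat.mul s s))) hs0
    rw [cadd, nd_abs, cmul, cmul] at u1
    have u2 : ((e : ℕ) : ℝ) = (Nat.div (Nat.add (nd (Nat.mul s s) (Nat.mul S (cen X))) (nd (Nat.mul S (cen X)) (Nat.mul s s))) s : ℕ) + (1 : ℕ) := cadd _ _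
    rw [u2, sq]
    push_cast
    exact u1.le
  set m : ℕ := Nat.div (Nat.mul (Nat.add (sqc S X) (sqe S X)) (Nat.mul (rad X) (rad X))) (Nat.mul 2 (Nat.mul (sqd X) (sqd X))) with hm
  have hnd : ((sqd X : ℕ) : ℝ) = 2 * (cen X : ℕ) - (rad X : ℕ) := by
    have h0 : rad X ≤ 2 * cen X := by
      have : rad X ≤ cen X := by exact_mod_cast hcr.le
      omega
    have : ((2 * cen X - rad X : ℕ) : ℝ) = 2 * (cen X : ℕ) - (rad X : ℕ) := by rw [Nat.cast_sub h0]; push_cast; ring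
    exact this
  have hsq0 : 0 < sqd X := by
    have : (0 : ℝ) < (sqd X : ℕ) := by rw [hnd]; linarith
    exact_mod_cast this
  have hM := lt_cdiv (a := Nat.mul (Nat.add (sqc S X) (sqe S X)) (Nat.mul (rad X) (rad X))) (b := Nat.mul 2 (Nat.mul (sqd X) (sqd X))) (Nat.mul_pos (by norm_num) (Nat.mul_pos hsq0 hsq0))
  rw [← hm] at hM
  simp only [cmul, cadd] at hM
  rw [hnd, ← hs, ← he, rad_cast] at hM
  have hM2 : ((s : ℝ) + e) * ((rdl X : ℕ) + (X.r : ℝ)) ^ 2 / (2 * (2 * (cen X : ℕ) - ((rdl X : ℕ) + (X.r : ℝ))) ^ 2) ≤ (m : ℝ) + 1 := by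
    refine le_trans (le_of_eq ?_) hM.le
    push_cast
    ring
  have key := sqrt_core hSr hcR hrr h1 (lin_le E X) herr hM2
  have k1 : Real.sqrt ((S : ℝ) * ((S : ℝ) * v)) = (S : ℝ) * Real.sqrt v := by
    rw [← mul_assoc, Real.sqrt_mul (by positivity), Real.sqrt_mul_self hSr.le]
  rw [k1] at key
  obtain ⟨f1, f2⟩ := half_floor m
  have f3 : ((Nat.div m 2 : ℕ) : ℝ) = (sqm S X : ℕ) := rfl
  rw [f3] at f1 f2
  have h2c : 0 < Nat.mul 2 (cen X) := Nat.mul_pos (by norm_num) hc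
  have g1 := lt_cdiv (a := Nat.mul (Nat.add (sqc S X) (sqe S X)) X.r) h2c
  simp only [cmul, cadd] at g1
  rw [← hs, ← he] at g1
  have hr : (((tsqrt S X).r : ℕ) : ℝ) = 2 * (e : ℝ) + (((Nat.div (Nat.mul (Nat.add (sqc S X) (sqe S X)) X.r) (Nat.mul 2 (cen X)) : ℕ) : ℝ) + (sqm S X : ℕ)) + (7 : ℕ) := by
    refine (cadd _ _).trans ?_
    rw [cadd, cmul, cadd]
    push_cast
    rfl
  rw [hr]
  push_cast at g1
  have h6 : |(S : ℝ) * Real.sqrt v - (((s : ℝ) - ((m : ℝ) + 1) / 2) + ((s : ℝ) * ((X.p1 : ℝ) - X.n1) / (2 * (cen X : ℕ)) * E.e1 + (s : ℝ) * ((X.p2 : ℝ) - X.n2) / (2 * (cen X : ℕ)) * E.e2 + (s : ℝ) * ((X.p3 : ℝ) - X.n3) / (2 * (cen X : ℕ)) * E.e3 + (s : ℝ) * ((X.p4 : ℝ) - X.n4) / (2 * (cen X : ℕ)) * E.e4))| ≤ 2 * (e : ℝ) + ((s : ℝ) + e) * X.r / (2 * (cen X : ℕ)) + ((m : ℝ) + 1) / 2 := by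
    have h7 : ((s : ℝ) * ((X.p1 : ℝ) - X.n1) / (2 * (cen X : ℕ)) * E.e1 + (s : ℝ) * ((X.p2 : ℝ) - X.n2) / (2 * (cen X : ℕ)) * E.e2 + (s : ℝ) * ((X.p3 : ℝ) - X.n3) / (2 * (cen X : ℕ)) * E.e3 + (s : ℝ) * ((X.p4 : ℝ) - X.n4) / (2 * (cen X : ℕ)) * E.e4) = (s : ℝ) * lin E X / (2 * (cen X : ℕ)) := by
      unfold lin; ring
    rw [h7]; exact key
  have r0 : |c0 (tsqrt S X) - ((s : ℝ) - ((m : ℝ) + 1) / 2)| ≤ 1 := by
    have e1 : c0 (tsqrt S X) = (s : ℝ) - (sqm S X : ℕ) := nd_sub (sqc S X) (sqm S X)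
    rw [e1]
    have e2 : (s : ℝ) - (sqm S X : ℕ) - ((s : ℝ) - ((m : ℝ) + 1) / 2) = -((sqm S X : ℕ) - ((m : ℝ) + 1) / 2) := by ring
    rw [e2, abs_neg]; exact f1
  have r1 : |((((tsqrt S X).p1 : ℕ) : ℝ) - ((tsqrt S X).n1 : ℕ)) - (s : ℝ) * ((X.p1 : ℝ) - X.n1) / (2 * (cen X : ℕ))| ≤ 1 := by
    have := rd2 (Nat.mul (sqc S X) X.p1) (Nat.mul (sqc S X) X.n1) h2c
    simp only [cmul] at this
    rw [← hs] at this
    have e1 : (s : ℝ) * ((X.p1 : ℝ) - X.n1) / (2 * (cen X : ℕ)) = ((s : ℝ) * X.p1 - (s : ℝ) * X.n1) / (((2 : ℕ) : ℝ) * (cen X : ℕ)) := by push_cast; ring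
    rw [e1]; exact this
  have r2 : |((((tsqrt S X).p2 : ℕ) : ℝ) - ((tsqrt S X).n2 : ℕ)) - (s : ℝ) * ((X.p2 : ℝ) - X.n2) / (2 * (cen X : ℕ))| ≤ 1 := by
    have := rd2 (Nat.mul (sqc S X) X.p2) (Nat.mul (sqc S X) X.n2) h2c
    simp only [cmul] at this
    rw [← hs] at this
    have e1 : (s : ℝ) * ((X.p2 : ℝ) - X.n2) / (2 * (cen X : ℕ)) = ((s : ℝ) * X.p2 - (s : ℝ) * X.n2) / (((2 : ℕ) : ℝ) * (cen X : ℕ)) := by push_cast; ring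
    rw [e1]; exact this
  have r3 : |((((tsqrt S X).p3 : ℕ) : ℝ) - ((tsqrt S X).n3 : ℕ)) - (s : ℝ) * ((X.p3 : ℝ) - X.n3) / (2 * (cen X : ℕ))| ≤ 1 := by
    have := rd2 (Nat.mul (sqc S X) X.p3) (Nat.mul (sqc S X) X.n3) h2c
    simp only [cmul] at this
    rw [← hs] at this
    have e1 : (s : ℝ) * ((X.p3 : ℝ) - X.n3) / (2 * (cen X : ℕ)) = ((s : ℝ) * X.p3 - (s : ℝ) * X.n3) / (((2 : ℕ) : ℝ) * (cen X : ℕ)) := by push_cast; ring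
    rw [e1]; exact this
  have r4 : |((((tsqrt S X).p4 : ℕ) : ℝ) - ((tsqrt S X).n4 : ℕ)) - (s : ℝ) * ((X.p4 : ℝ) - X.n4) / (2 * (cen X : ℕ))| ≤ 1 := by
    have := rd2 (Nat.mul (sqc S X) X.p4) (Nat.mul (sqc S X) X.n4) h2c
    simp only [cmul] at this
    rw [← hs] at this
    have e1 : (s : ℝ) * ((X.p4 : ℝ) - X.n4) / (2 * (cen X : ℕ)) = ((s : ℝ) * X.p4 - (s : ℝ) * X.n4) / (((2 : ℕ) : ℝ) * (cen X : ℕ)) := by push_cast; ring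
    rw [e1]; exact this
  refine (of_round r0 r1 r2 r3 r4 h6).trans ?_
  push_cast
  linarith

theorem enc_flat {S : ℕ} {E : Pt} {u bad : ℕ} {v : ℝ} (h0 : 0 ≤ (S : ℝ) * v) (h1 : (S : ℝ) * v ≤ u) :
    Enc S E (flat u bad) v := by
  intro _
  have hl : lin E (flat u bad) = 0 := by unfold lin flat; simp
  have hc : c0 (flat u bad) = (Nat.div u 2 : ℕ) - ((0 : ℕ) : ℝ) := rfl
  have hr : (((flat u bad).r : ℕ) : ℝ) = (Nat.div u 2 : ℕ) + ((1 : ℕ) : ℝ) := cadd _ _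
  obtain ⟨f1, f2⟩ := half_floor u
  rw [abs_le] at f1
  rw [hl, hc, hr, abs_le]
  push_cast
  have h2 := cdiv_nn u 2
  have h3 := cdiv_le u 2
  push_cast at h3
  constructor <;> linarith [f1.1, f1.2]

theorem le_up {S : ℕ} {E : Pt} {X : TM} {v : ℝ} (h : |(S : ℝ) * v - (c0 X + lin E X)| ≤ X.r) :
    (S : ℝ) * v ≤ (up X : ℕ) := by
  have h1 := dist_c h
  have h2 := nd_le (Nat.add X.p0 (rad X)) X.n0
  rw [cadd] at h2
  rw [abs_le] at h1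
  unfold c0 at h1
  unfold up
  linarith [h1.2]

theorem enc_sqrt0 {S : ℕ} (hS : 0 < S) {E : Pt} {X : TM} {v : ℝ} (hX : Enc S E X v) :
    Enc S E (tsqrt0 S X) (Real.sqrt v) := by
  intro hb
  have h1 := hX hb
  have hSr : (0 : ℝ) < S := by exact_mod_cast hS
  refine enc_flat (by positivity) ?_ hb
  refine le_ush ?_ (by positivity)
  have h2 := le_up h1
  rcases le_total 0 v with h | h
  · rw [mul_pow, Real.sq_sqrt h, sq, mul_assoc]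
    gcongr
  · rw [Real.sqrt_eq_zero_of_nonpos h]
    simp
    positivity

theorem enc_sqrtg {S : ℕ} (hS : 0 < S) {E : Pt} {X : TM} {v : ℝ} (hX : Enc S E X v) :
    Enc S E (tsqrtg S X) (Real.sqrt v) := by
  unfold tsqrtg
  cases Nat.ble (Nat.add (Nat.mul 2 (rad X)) 1) (cen X)
  · exact enc_sqrt0 hS hX
  · exact enc_sqrt hS hX

theorem ble_cast {a b : ℕ} (h : Nat.ble a b = true) : (a : ℝ) ≤ b := by exact_mod_cast Nat.le_of_ble_eq_true h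

theorem enc_abs {S : ℕ} (hS : 0 < S) {E : Pt} {X : TM} {v : ℝ} (hX : Enc S E X v) :
    Enc S E (tabs X) |v| := by
  have hSr : (0 : ℝ) < S := by exact_mod_cast hS
  unfold tabs
  rcases h1 : Nat.ble (Nat.add X.n0 (rad X)) X.p0 with _ | _
  · rcases h2 : Nat.ble (Nat.add X.p0 (rad X)) X.n0 with _ | _
    · intro hb
      have h := hX hb
      refine enc_flat (by positivity) ?_ hb
      have h3 := dist_c h
      have h4 := mid_le X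
      have h5 : (S : ℝ) * |v| = |(S : ℝ) * v| := by rw [abs_mul, abs_of_pos hSr]
      rw [h5, cadd]
      rw [abs_le] at h3 h4 ⊢
      constructor <;> linarith [h3.1, h3.2, h4.1, h4.2]
    · intro hb
      have h := hX hb
      have h3 := dist_c h
      have h4 := ble_cast h2
      rw [cadd] at h4
      rw [abs_le] at h3
      unfold c0 at h3
      have h5 : (S : ℝ) * v ≤ 0 := by linarith [h3.2]
      have h6 : v ≤ 0 := by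
        by_contra hcon
        push Not at hcon
        have := mul_pos hSr hcon
        linarith
      rw [abs_of_nonpos h6]
      exact enc_neg hX hb
  · intro hb
    have h := hX hb
    have h3 := dist_c h
    have h4 := ble_cast h1
    rw [cadd] at h4
    rw [abs_le] at h3
    unfold c0 at h3
    have h5 : 0 ≤ (S : ℝ) * v := by linarith [h3.1]
    have h6 : 0 ≤ v := by
      by_contra hcon
      push Not at hcon
      have := mul_pos_of_neg_of_neg (neg_neg_of_pos hSr) hcon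
      linarith
    rw [abs_of_nonneg h6]
    exact hX hb

theorem enc_pos {S : ℕ} (hS : 0 < S) {E : Pt} {X : TM} {v : ℝ} (hX : Enc S E X v) :
    Enc S E (tpos X) (max v 0) := by
  have hSr : (0 : ℝ) < S := by exact_mod_cast hS
  have hmax : (S : ℝ) * max v 0 = max ((S : ℝ) * v) 0 := by
    rw [mul_max_of_nonneg _ _ hSr.le, mul_zero]
  unfold tpos
  rcases h1 : Nat.ble (Nat.add X.n0 (rad X)) X.p0 with _ | _
  · rcases h2 : Nat.ble (Nat.add X.p0 (rad X)) X.n0 with _ | _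
    · intro hb
      have h := hX hb
      have h3 := dist_c h
      have g1 : X.p0 < Nat.add X.n0 (rad X) := by
        by_contra hcon
        push Not at hcon
        rw [Nat.ble_eq_true_of_le hcon] at h1
        exact absurd h1 (by decide)
      have g2 : X.n0 < Nat.add X.p0 (rad X) := by
        by_contra hcon
        push Not at hcon
        rw [Nat.ble_eq_true_of_le hcon] at h2
        exact absurd h2 (by decide)
      have u1 : ((up X : ℕ) : ℝ) = (X.p0 : ℝ) + (rad X : ℕ) - X.n0 := by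
        have : ((Nat.sub (Nat.add X.p0 (rad X)) X.n0 : ℕ) : ℝ) = ((Nat.add X.p0 (rad X) : ℕ) : ℝ) - X.n0 := Nat.cast_sub g2.le
        rw [cadd] at this
        exact this
      have u2 : ((plo X : ℕ) : ℝ) = (X.n0 : ℝ) + (rad X : ℕ) - X.p0 := by
        have : ((Nat.sub (Nat.add X.n0 (rad X)) X.p0 : ℕ) : ℝ) = ((Nat.add X.n0 (rad X) : ℕ) : ℝ) - X.p0 := Nat.cast_sub g1.le
        rw [cadd] at this
        exact this
      have u3 : (0 : ℝ) < (up X : ℕ) := by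
        have : ((X.n0 : ℕ) : ℝ) < ((Nat.add X.p0 (rad X) : ℕ) : ℝ) := by exact_mod_cast g2
        rw [cadd] at this
        rw [u1]; linarith
      have u4 : (0 : ℝ) < (plo X : ℕ) := by
        have : ((X.p0 : ℕ) : ℝ) < ((Nat.add X.n0 (rad X) : ℕ) : ℝ) := by exact_mod_cast g1
        rw [cadd] at this
        rw [u2]; linarith
      have u5 : 0 < Nat.add (up X) (plo X) := by
        have : (0 : ℝ) < ((Nat.add (up X) (plo X) : ℕ) : ℝ) := by rw [cadd]; linarith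
        exact_mod_cast this
      have h3a : -((plo X : ℕ) : ℝ) ≤ (S : ℝ) * v := by
        rw [abs_le] at h3; unfold c0 at h3; rw [u2]; linarith [h3.1]
      have h3b : (S : ℝ) * v ≤ ((up X : ℕ) : ℝ) := by
        rw [abs_le] at h3; unfold c0 at h3; rw [u1]; linarith [h3.2]
      have key := pos_core u3 u4 h3a h3b
      rw [← hmax] at key
      set Hh : ℝ := ((up X : ℕ) : ℝ) with hHh
      set Ll : ℝ := ((plo X : ℕ) : ℝ) with hLl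
      have hD : (0 : ℝ) < Hh + Ll := by linarith
      have q1 := cdiv_le (Nat.mul (up X) (plo X)) (Nat.add (up X) (plo X))
      have q2 := lt_cdiv (a := Nat.mul (up X) (plo X)) u5
      rw [cmul, cadd, ← hHh, ← hLl] at q1 q2
      set m : ℕ := Nat.div (Nat.mul (up X) (plo X)) (Nat.add (up X) (plo X)) with hm
      have q3 := cdiv_le m 2
      obtain ⟨f1, f2⟩ := half_floor m
      have f3 : ((Nat.div m 2 : ℕ) : ℝ) = (pch X : ℕ) := rfl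
      rw [f3] at q3 f1 f2
      push_cast at q3
      have g3 := lt_cdiv (a := Nat.mul X.r (up X)) u5
      rw [cmul, cadd, ← hHh, ← hLl] at g3
      have hr : (((tposc X).r : ℕ) : ℝ) = ((Nat.div (Nat.mul X.r (up X)) (Nat.add (up X) (plo X)) : ℕ) : ℝ) + (pch X : ℕ) + (8 : ℕ) := by
        refine (cadd _ _).trans ?_
        rw [cadd]
      have hxr : (0 : ℝ) ≤ (X.r : ℝ) := Nat.cast_nonneg _
      have lam : |Hh * ((S : ℝ) * v) / (Hh + Ll) - Hh / (Hh + Ll) * (c0 X + lin E X)| ≤ (X.r : ℝ) * Hh / (Hh + Ll) := by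
        have e1 : Hh * ((S : ℝ) * v) / (Hh + Ll) - Hh / (Hh + Ll) * (c0 X + lin E X) = Hh / (Hh + Ll) * ((S : ℝ) * v - (c0 X + lin E X)) := by ring
        rw [e1, abs_mul, abs_of_nonneg (by positivity : (0 : ℝ) ≤ Hh / (Hh + Ll))]
        calc Hh / (Hh + Ll) * |(S : ℝ) * v - (c0 X + lin E X)| ≤ Hh / (Hh + Ll) * X.r := by gcongr
          _ = _ := by ring
      have h6 : |(S : ℝ) * max v 0 - ((Hh / (Hh + Ll) * c0 X + (pch X : ℕ)) + (Hh / (Hh + Ll) * ((X.p1 : ℝ) - X.n1) * E.e1 + Hh / (Hh + Ll) * ((X.p2 : ℝ) - X.n2) * E.e2 + Hh / (Hh + Ll) * ((X.p3 : ℝ) - X.n3) * E.e3 + Hh / (Hh + Ll) * ((X.p4 : ℝ) - X.n4) * E.e4))| ≤ (X.r : ℝ) * Hh / (Hh + Ll) + (pch X : ℕ) + 2 := by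
        have h7 : (Hh / (Hh + Ll) * ((X.p1 : ℝ) - X.n1) * E.e1 + Hh / (Hh + Ll) * ((X.p2 : ℝ) - X.n2) * E.e2 + Hh / (Hh + Ll) * ((X.p3 : ℝ) - X.n3) * E.e3 + Hh / (Hh + Ll) * ((X.p4 : ℝ) - X.n4) * E.e4) = Hh / (Hh + Ll) * lin E X := by
          unfold lin; ring
        rw [h7]
        rw [abs_le] at key lam ⊢
        constructor <;> linarith [key.1, key.2, lam.1, lam.2]
      have r0 : |c0 (tposc X) - (Hh / (Hh + Ll) * c0 X + (pch X : ℕ))| ≤ 1 := by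
        have := rd2 (Nat.mul X.p0 (up X)) (Nat.mul X.n0 (up X)) u5
        rw [cmul, cmul, cadd, ← hHh, ← hLl] at this
        have e0 : c0 (tposc X) = ((Nat.div (Nat.mul X.p0 (up X)) (Nat.add (up X) (plo X)) : ℕ) : ℝ) + (pch X : ℕ) - (Nat.div (Nat.mul X.n0 (up X)) (Nat.add (up X) (plo X)) : ℕ) := by
          have e2 : c0 (tposc X) = ((Nat.add (Nat.div (Nat.mul X.p0 (up X)) (Nat.add (up X) (plo X))) (pch X) : ℕ) : ℝ) - (Nat.div (Nat.mul X.n0 (up X)) (Nat.add (up X) (plo X)) : ℕ) := nd_sub _ _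
          rw [e2, cadd]
        have e1 : c0 (tposc X) - (Hh / (Hh + Ll) * c0 X + (pch X : ℕ)) = ((Nat.div (Nat.mul X.p0 (up X)) (Nat.add (up X) (plo X)) : ℕ) : ℝ) - (Nat.div (Nat.mul X.n0 (up X)) (Nat.add (up X) (plo X)) : ℕ) - ((X.p0 : ℝ) * Hh - X.n0 * Hh) / (Hh + Ll) := by
          rw [e0]; unfold c0; ring
        rw [e1]; exact this
      have r1 : |((((tposc X).p1 : ℕ) : ℝ) - ((tposc X).n1 : ℕ)) - Hh / (Hh + Ll) * ((X.p1 : ℝ) - X.n1)| ≤ 1 := by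
        have := rd2 (Nat.mul X.p1 (up X)) (Nat.mul X.n1 (up X)) u5
        rw [cmul, cmul, cadd, ← hHh, ← hLl] at this
        have e1 : Hh / (Hh + Ll) * ((X.p1 : ℝ) - X.n1) = ((X.p1 : ℝ) * Hh - X.n1 * Hh) / (Hh + Ll) := by ring
        rw [e1]; exact this
      have r2 : |((((tposc X).p2 : ℕ) : ℝ) - ((tposc X).n2 : ℕ)) - Hh / (Hh + Ll) * ((X.p2 : ℝ) - X.n2)| ≤ 1 := by
        have := rd2 (Nat.mul X.p2 (up X)) (Nat.mul X.n2 (up X)) u5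
        rw [cmul, cmul, cadd, ← hHh, ← hLl] at this
        have e1 : Hh / (Hh + Ll) * ((X.p2 : ℝ) - X.n2) = ((X.p2 : ℝ) * Hh - X.n2 * Hh) / (Hh + Ll) := by ring
        rw [e1]; exact this
      have r3 : |((((tposc X).p3 : ℕ) : ℝ) - ((tposc X).n3 : ℕ)) - Hh / (Hh + Ll) * ((X.p3 : ℝ) - X.n3)| ≤ 1 := by
        have := rd2 (Nat.mul X.p3 (up X)) (Nat.mul X.n3 (up X)) u5
        rw [cmul, cmul, cadd, ← hHh, ← hLl] at this
        have e1 : Hh / (Hh + Ll) * ((X.p3 : ℝ) - X.n3) = ((X.p3 : ℝ) * Hh - X.n3 * Hh) / (Hh + Ll) := by ring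
        rw [e1]; exact this
      have r4 : |((((tposc X).p4 : ℕ) : ℝ) - ((tposc X).n4 : ℕ)) - Hh / (Hh + Ll) * ((X.p4 : ℝ) - X.n4)| ≤ 1 := by
        have := rd2 (Nat.mul X.p4 (up X)) (Nat.mul X.n4 (up X)) u5
        rw [cmul, cmul, cadd, ← hHh, ← hLl] at this
        have e1 : Hh / (Hh + Ll) * ((X.p4 : ℝ) - X.n4) = ((X.p4 : ℝ) * Hh - X.n4 * Hh) / (Hh + Ll) := by ring
        rw [e1]; exact this
      have fin := of_round r0 r1 r2 r3 r4 h6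
      refine fin.trans ?_
      change _ ≤ (((tposc X).r : ℕ) : ℝ)
      rw [hr]
      push_cast
      linarith
    · intro hb
      have h := hX hb
      have h3 := dist_c h
      have h4 := ble_cast h2
      rw [cadd] at h4
      rw [abs_le] at h3
      unfold c0 at h3
      have h5 : (S : ℝ) * v ≤ 0 := by linarith [h3.2]
      refine enc_flat (by positivity) ?_ hb
      rw [hmax, max_eq_right h5]
      simp
  · intro hb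
    have h := hX hb
    have h3 := dist_c h
    have h4 := ble_cast h1
    rw [cadd] at h4
    rw [abs_le] at h3
    unfold c0 at h3
    have h5 : 0 ≤ (S : ℝ) * v := by linarith [h3.1]
    rw [hmax, max_eq_left h5]
    exact h

theorem enc_max {S : ℕ} (hS : 0 < S) {E : Pt} {X Y : TM} {v w : ℝ} (hX : Enc S E X v) (hY : Enc S E Y w) :
    Enc S E (tmax X Y) (max v w) := by
  have h : max v w = w + max (v - w) 0 := by
    rcases le_total v w with h | h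
    · rw [max_eq_right h, max_eq_right (by linarith)]; ring
    · rw [max_eq_left h, max_eq_left (by linarith)]; ring
  rw [h]
  exact enc_add hY (enc_pos hS (enc_sub hX hY))

theorem enc_min {S : ℕ} (hS : 0 < S) {E : Pt} {X Y : TM} {v w : ℝ} (hX : Enc S E X v) (hY : Enc S E Y w) :
    Enc S E (tmin X Y) (min v w) := by
  have h : min v w = v - max (v - w) 0 := by
    rcases le_total v w with h | h
    · rw [min_eq_left h, max_eq_right (by linarith)]; ring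
    · rw [min_eq_right h, max_eq_left (by linarith)]; ring
  rw [h]
  exact enc_sub hX (enc_pos hS (enc_sub hX hY))

theorem pos_sound {S : ℕ} (hS : 0 < S) {E : Pt} {X : TM} {v : ℝ} (hX : Enc S E X v) (h : pos X = true) : 0 < v := by
  unfold pos at h
  rw [Bool.and_eq_true] at h
  have hb : X.bad = 0 := Nat.eq_of_beq_eq_true h.1
  have h1 := hX hb
  have h2 := ble_cast h.2
  rw [cadd, cadd] at h2
  push_cast at h2
  have h3 := dist_c h1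
  rw [abs_le] at h3
  unfold c0 at h3
  have hSr : (0 : ℝ) < S := by exact_mod_cast hS
  have h5 : 0 < (S : ℝ) * v := by linarith [h3.1]
  exact (mul_pos_iff_of_pos_left hSr).mp h5

theorem nonneg_sound {S : ℕ} (hS : 0 < S) {E : Pt} {X : TM} {v : ℝ} (hX : Enc S E X v) (h : nonneg X = true) : 0 ≤ v := by
  unfold nonneg at h
  rw [Bool.and_eq_true] at h
  have hb : X.bad = 0 := Nat.eq_of_beq_eq_true h.1
  have h1 := hX hb
  have h2 := ble_cast h.2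
  rw [cadd] at h2
  have h3 := dist_c h1
  rw [abs_le] at h3
  unfold c0 at h3
  have hSr : (0 : ℝ) < S := by exact_mod_cast hS
  have h5 : 0 ≤ (S : ℝ) * v := by linarith [h3.1]
  by_contra hcon
  push Not at hcon
  have := mul_pos_of_neg_of_neg (neg_neg_of_pos hSr) hcon
  linarith

/-! ### Boxes and the recursion -/

/-- A box: centres `p - n` and half side lengths `q`, in units of `1 / S`. -/
structure Bx where
  (p1 n1 q1 p2 n2 q2 p3 n3 q3 p4 n4 q4 : Nat)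

/-- Membership in a box. -/
def Mem (S : ℕ) (b : Bx) (x1 x2 x3 x4 : ℝ) : Prop :=
  |(S : ℝ) * x1 - ((b.p1 : ℝ) - b.n1)| ≤ b.q1 ∧ |(S : ℝ) * x2 - ((b.p2 : ℝ) - b.n2)| ≤ b.q2 ∧ |(S : ℝ) * x3 - ((b.p3 : ℝ) - b.n3)| ≤ b.q3 ∧ |(S : ℝ) * x4 - ((b.p4 : ℝ) - b.n4)| ≤ b.q4

/-- The coordinates as affine forms. -/
def X1 (b : Bx) : TM := tvar1 (nd b.p1 b.n1) (nd b.n1 b.p1) b.q1
def X2 (b : Bx) : TM := tvar2 (nd b.p2 b.n2) (nd b.n2 b.p2) b.q2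
def X3 (b : Bx) : TM := tvar3 (nd b.p3 b.n3) (nd b.n3 b.p3) b.q3
def X4 (b : Bx) : TM := tvar4 (nd b.p4 b.n4) (nd b.n4 b.p4) b.q4

/-- half, rounded up -/
def hlf (q : Nat) : Nat := Nat.div (Nat.add q 1) 2

/-- lower and upper half in direction 1 -/
def L1 (b : Bx) : Bx := ⟨b.p1, Nat.add b.n1 (nd b.q1 (hlf b.q1)), hlf b.q1, b.p2, b.n2, b.q2, b.p3, b.n3, b.q3, b.p4, b.n4, b.q4⟩
def R1 (b : Bx) : Bx := ⟨Nat.add b.p1 (nd b.q1 (hlf b.q1)), b.n1, hlf b.q1, b.p2, b.n2, b.q2, b.p3, b.n3, b.q3, b.p4, b.n4, b.q4⟩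

/-- lower and upper half in direction 2 -/
def L2 (b : Bx) : Bx := ⟨b.p1, b.n1, b.q1, b.p2, Nat.add b.n2 (nd b.q2 (hlf b.q2)), hlf b.q2, b.p3, b.n3, b.q3, b.p4, b.n4, b.q4⟩
def R2 (b : Bx) : Bx := ⟨b.p1, b.n1, b.q1, Nat.add b.p2 (nd b.q2 (hlf b.q2)), b.n2, hlf b.q2, b.p3, b.n3, b.q3, b.p4, b.n4, b.q4⟩

/-- lower and upper half in direction 3 -/
def L3 (b : Bx) : Bx := ⟨b.p1, b.n1, b.q1, b.p2, b.n2, b.q2, b.p3, Nat.add b.n3 (nd b.q3 (hlf b.q3)), hlf b.q3, b.p4, b.n4, b.q4⟩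
def R3 (b : Bx) : Bx := ⟨b.p1, b.n1, b.q1, b.p2, b.n2, b.q2, Nat.add b.p3 (nd b.q3 (hlf b.q3)), b.n3, hlf b.q3, b.p4, b.n4, b.q4⟩

/-- lower and upper half in direction 4 -/
def L4 (b : Bx) : Bx := ⟨b.p1, b.n1, b.q1, b.p2, b.n2, b.q2, b.p3, b.n3, b.q3, b.p4, Nat.add b.n4 (nd b.q4 (hlf b.q4)), hlf b.q4⟩
def R4 (b : Bx) : Bx := ⟨b.p1, b.n1, b.q1, b.p2, b.n2, b.q2, b.p3, b.n3, b.q3, Nat.add b.p4 (nd b.q4 (hlf b.q4)), b.n4, hlf b.q4⟩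

theorem hlf_le (q : ℕ) : hlf q ≤ q := by
  have : (q + 1) / 2 ≤ q := by omega
  exact this

theorem hlf_ge (q : ℕ) : nd q (hlf q) ≤ hlf q := by
  have : q - (q + 1) / 2 ≤ (q + 1) / 2 := by omega
  exact this

theorem cast_q (q : ℕ) : ((nd q (hlf q) : ℕ) : ℝ) = (q : ℝ) - (hlf q : ℕ) := Nat.cast_sub (hlf_le q)

theorem pt_of_mem {S : ℕ} {b : Bx} {x1 x2 x3 x4 : ℝ} (h : Mem S b x1 x2 x3 x4) :
    ∃ E : Pt, (S : ℝ) * x1 = ((b.p1 : ℝ) - b.n1) + b.q1 * E.e1 ∧ (S : ℝ) * x2 = ((b.p2 : ℝ) - b.n2) + b.q2 * E.e2 ∧ (S : ℝ) * x3 = ((b.p3 : ℝ) - b.n3) + b.q3 * E.e3 ∧ (S : ℝ) * x4 = ((b.p4 : ℝ) - b.n4) + b.q4 * E.e4 := by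
  have key : ∀ (y : ℝ) (q : ℕ), |y| ≤ q → ∃ e : ℝ, |e| ≤ 1 ∧ y = q * e := by
    intro y q hy
    rcases Nat.eq_zero_or_pos q with h0 | h0
    · rw [h0] at hy ⊢
      refine ⟨0, by simp, ?_⟩
      have : |y| ≤ 0 := by simpa using hy
      have h1 := abs_nonpos_iff.mp this
      simp [h1]
    · have hq : (0 : ℝ) < q := by exact_mod_cast h0
      refine ⟨y / q, ?_, by field_simp⟩
      rw [abs_div, abs_of_pos hq, div_le_one hq]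
      exact hy
  obtain ⟨h1, h2, h3, h4⟩ := h
  obtain ⟨e1, a1, b1⟩ := key _ _ h1
  obtain ⟨e2, a2, b2⟩ := key _ _ h2
  obtain ⟨e3, a3, b3⟩ := key _ _ h3
  obtain ⟨e4, a4, b4⟩ := key _ _ h4
  refine ⟨⟨e1, e2, e3, e4, a1, a2, a3, a4⟩, ?_, ?_, ?_, ?_⟩
  · linarith
  · linarith
  · linarith
  · linarith

theorem enc_X1 {S : ℕ} {b : Bx} {E : Pt} {x : ℝ} (h : (S : ℝ) * x = ((b.p1 : ℝ) - b.n1) + b.q1 * E.e1) :
    Enc S E (X1 b) x := enc_var1 E (by rw [nd_sub]; exact h)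

theorem enc_X2 {S : ℕ} {b : Bx} {E : Pt} {x : ℝ} (h : (S : ℝ) * x = ((b.p2 : ℝ) - b.n2) + b.q2 * E.e2) :
    Enc S E (X2 b) x := enc_var2 E (by rw [nd_sub]; exact h)

theorem enc_X3 {S : ℕ} {b : Bx} {E : Pt} {x : ℝ} (h : (S : ℝ) * x = ((b.p3 : ℝ) - b.n3) + b.q3 * E.e3) :
    Enc S E (X3 b) x := enc_var3 E (by rw [nd_sub]; exact h)

theorem enc_X4 {S : ℕ} {b : Bx} {E : Pt} {x : ℝ} (h : (S : ℝ) * x = ((b.p4 : ℝ) - b.n4) + b.q4 * E.e4) :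
    Enc S E (X4 b) x := enc_var4 E (by rw [nd_sub]; exact h)

theorem mem_split1 {S : ℕ} {b : Bx} {x1 x2 x3 x4 : ℝ} (h : Mem S b x1 x2 x3 x4) :
    Mem S (L1 b) x1 x2 x3 x4 ∨ Mem S (R1 b) x1 x2 x3 x4 := by
  obtain ⟨h1, h2, h3, h4⟩ := h
  have c := cast_q b.q1
  have c2 : ((nd b.q1 (hlf b.q1) : ℕ) : ℝ) ≤ (hlf b.q1 : ℕ) := by exact_mod_cast hlf_ge b.q1
  rw [abs_le] at h1
  rcases le_total ((S : ℝ) * x1 - ((b.p1 : ℝ) - b.n1)) 0 with h | h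
  · left
    have t : |(S : ℝ) * x1 - (((L1 b).p1 : ℝ) - (L1 b).n1)| ≤ (L1 b).q1 := by
      have e1 : (((L1 b).n1 : ℕ) : ℝ) = (b.n1 : ℝ) + (nd b.q1 (hlf b.q1) : ℕ) := cadd _ _
      have e2 : (((L1 b).p1 : ℕ) : ℝ) = (b.p1 : ℝ) := rfl
      have e3 : (((L1 b).q1 : ℕ) : ℝ) = ((hlf b.q1 : ℕ) : ℝ) := rfl
      rw [e1, e2, e3, abs_le]
      constructor <;> linarith [h1.1, h1.2]
    exact ⟨t, h2, h3, h4⟩
  · right
    have t : |(S : ℝ) * x1 - (((R1 b).p1 : ℝ) - (R1 b).n1)| ≤ (R1 b).q1 := by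
      have e1 : (((R1 b).p1 : ℕ) : ℝ) = (b.p1 : ℝ) + (nd b.q1 (hlf b.q1) : ℕ) := cadd _ _
      have e2 : (((R1 b).n1 : ℕ) : ℝ) = (b.n1 : ℝ) := rfl
      have e3 : (((R1 b).q1 : ℕ) : ℝ) = ((hlf b.q1 : ℕ) : ℝ) := rfl
      rw [e1, e2, e3, abs_le]
      constructor <;> linarith [h1.1, h1.2]
    exact ⟨t, h2, h3, h4⟩

theorem mem_split2 {S : ℕ} {b : Bx} {x1 x2 x3 x4 : ℝ} (h : Mem S b x1 x2 x3 x4) :
    Mem S (L2 b) x1 x2 x3 x4 ∨ Mem S (R2 b) x1 x2 x3 x4 := by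
  obtain ⟨h1, h2, h3, h4⟩ := h
  have c := cast_q b.q2
  have c2 : ((nd b.q2 (hlf b.q2) : ℕ) : ℝ) ≤ (hlf b.q2 : ℕ) := by exact_mod_cast hlf_ge b.q2
  rw [abs_le] at h2
  rcases le_total ((S : ℝ) * x2 - ((b.p2 : ℝ) - b.n2)) 0 with h | h
  · left
    have t : |(S : ℝ) * x2 - (((L2 b).p2 : ℝ) - (L2 b).n2)| ≤ (L2 b).q2 := by
      have e1 : (((L2 b).n2 : ℕ) : ℝ) = (b.n2 : ℝ) + (nd b.q2 (hlf b.q2) : ℕ) := cadd _ _
      have e2 : (((L2 b).p2 : ℕ) : ℝ) = (b.p2 : ℝ) := rfl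
      have e3 : (((L2 b).q2 : ℕ) : ℝ) = ((hlf b.q2 : ℕ) : ℝ) := rfl
      rw [e1, e2, e3, abs_le]
      constructor <;> linarith [h2.1, h2.2]
    exact ⟨h1, t, h3, h4⟩
  · right
    have t : |(S : ℝ) * x2 - (((R2 b).p2 : ℝ) - (R2 b).n2)| ≤ (R2 b).q2 := by
      have e1 : (((R2 b).p2 : ℕ) : ℝ) = (b.p2 : ℝ) + (nd b.q2 (hlf b.q2) : ℕ) := cadd _ _
      have e2 : (((R2 b).n2 : ℕ) : ℝ) = (b.n2 : ℝ) := rfl
      have e3 : (((R2 b).q2 : ℕ) : ℝ) = ((hlf b.q2 : ℕ) : ℝ) := rfl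
      rw [e1, e2, e3, abs_le]
      constructor <;> linarith [h2.1, h2.2]
    exact ⟨h1, t, h3, h4⟩

theorem mem_split3 {S : ℕ} {b : Bx} {x1 x2 x3 x4 : ℝ} (h : Mem S b x1 x2 x3 x4) :
    Mem S (L3 b) x1 x2 x3 x4 ∨ Mem S (R3 b) x1 x2 x3 x4 := by
  obtain ⟨h1, h2, h3, h4⟩ := h
  have c := cast_q b.q3
  have c2 : ((nd b.q3 (hlf b.q3) : ℕ) : ℝ) ≤ (hlf b.q3 : ℕ) := by exact_mod_cast hlf_ge b.q3
  rw [abs_le] at h3
  rcases le_total ((S : ℝ) * x3 - ((b.p3 : ℝ) - b.n3)) 0 with h | h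
  · left
    have t : |(S : ℝ) * x3 - (((L3 b).p3 : ℝ) - (L3 b).n3)| ≤ (L3 b).q3 := by
      have e1 : (((L3 b).n3 : ℕ) : ℝ) = (b.n3 : ℝ) + (nd b.q3 (hlf b.q3) : ℕ) := cadd _ _
      have e2 : (((L3 b).p3 : ℕ) : ℝ) = (b.p3 : ℝ) := rfl
      have e3 : (((L3 b).q3 : ℕ) : ℝ) = ((hlf b.q3 : ℕ) : ℝ) := rfl
      rw [e1, e2, e3, abs_le]
      constructor <;> linarith [h3.1, h3.2]
    exact ⟨h1, h2, t, h4⟩
  · right
    have t : |(S : ℝ) * x3 - (((R3 b).p3 : ℝ) - (R3 b).n3)| ≤ (R3 b).q3 := by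
      have e1 : (((R3 b).p3 : ℕ) : ℝ) = (b.p3 : ℝ) + (nd b.q3 (hlf b.q3) : ℕ) := cadd _ _
      have e2 : (((R3 b).n3 : ℕ) : ℝ) = (b.n3 : ℝ) := rfl
      have e3 : (((R3 b).q3 : ℕ) : ℝ) = ((hlf b.q3 : ℕ) : ℝ) := rfl
      rw [e1, e2, e3, abs_le]
      constructor <;> linarith [h3.1, h3.2]
    exact ⟨h1, h2, t, h4⟩

theorem mem_split4 {S : ℕ} {b : Bx} {x1 x2 x3 x4 : ℝ} (h : Mem S b x1 x2 x3 x4) :
    Mem S (L4 b) x1 x2 x3 x4 ∨ Mem S (R4 b) x1 x2 x3 x4 := by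
  obtain ⟨h1, h2, h3, h4⟩ := h
  have c := cast_q b.q4
  have c2 : ((nd b.q4 (hlf b.q4) : ℕ) : ℝ) ≤ (hlf b.q4 : ℕ) := by exact_mod_cast hlf_ge b.q4
  rw [abs_le] at h4
  rcases le_total ((S : ℝ) * x4 - ((b.p4 : ℝ) - b.n4)) 0 with h | h
  · left
    have t : |(S : ℝ) * x4 - (((L4 b).p4 : ℝ) - (L4 b).n4)| ≤ (L4 b).q4 := by
      have e1 : (((L4 b).n4 : ℕ) : ℝ) = (b.n4 : ℝ) + (nd b.q4 (hlf b.q4) : ℕ) := cadd _ _
      have e2 : (((L4 b).p4 : ℕ) : ℝ) = (b.p4 : ℝ) := rfl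
      have e3 : (((L4 b).q4 : ℕ) : ℝ) = ((hlf b.q4 : ℕ) : ℝ) := rfl
      rw [e1, e2, e3, abs_le]
      constructor <;> linarith [h4.1, h4.2]
    exact ⟨h1, h2, h3, t⟩
  · right
    have t : |(S : ℝ) * x4 - (((R4 b).p4 : ℝ) - (R4 b).n4)| ≤ (R4 b).q4 := by
      have e1 : (((R4 b).p4 : ℕ) : ℝ) = (b.p4 : ℝ) + (nd b.q4 (hlf b.q4) : ℕ) := cadd _ _
      have e2 : (((R4 b).n4 : ℕ) : ℝ) = (b.n4 : ℝ) := rfl
      have e3 : (((R4 b).q4 : ℕ) : ℝ) = ((hlf b.q4 : ℕ) : ℝ) := rfl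
      rw [e1, e2, e3, abs_le]
      constructor <;> linarith [h4.1, h4.2]
    exact ⟨h1, h2, h3, t⟩

/-- The recursion: `f b = 0` means that `b` is done, otherwise `b` is split in the direction `f b`. -/
def chk (f : Bx → Nat) : Nat → Bx → Bool
  | 0, _ => false
  | n+1, b => cond (Nat.beq (f b) 0) true (cond (Nat.beq (f b) 1) (and (chk f n (L1 b)) (chk f n (R1 b))) (cond (Nat.beq (f b) 2) (and (chk f n (L2 b)) (chk f n (R2 b))) (cond (Nat.beq (f b) 3) (and (chk f n (L3 b)) (chk f n (R3 b))) (and (chk f n (L4 b)) (chk f n (R4 b))))))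

theorem chk_sound {S : ℕ} {f : Bx → Nat} {Q : ℝ → ℝ → ℝ → ℝ → Prop}
    (hf : ∀ b, f b = 0 → ∀ x1 x2 x3 x4, Mem S b x1 x2 x3 x4 → Q x1 x2 x3 x4) :
    ∀ n b, chk f n b = true → ∀ x1 x2 x3 x4, Mem S b x1 x2 x3 x4 → Q x1 x2 x3 x4 := by
  intro n
  induction n with
  | zero => intro b h; exact absurd h (by simp [chk])
  | succ n ih =>
    intro b h x1 x2 x3 x4 hm
    unfold chk at h
    rcases h0 : Nat.beq (f b) 0 with _ | _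
    · rw [h0, cond_false] at h
      rcases h1 : Nat.beq (f b) 1 with _ | _
      · rw [h1, cond_false] at h
        rcases h2 : Nat.beq (f b) 2 with _ | _
        · rw [h2, cond_false] at h
          rcases h3 : Nat.beq (f b) 3 with _ | _
          · rw [h3, cond_false] at h
            rw [Bool.and_eq_true] at h
            rcases mem_split4 hm with h' | h'
            · exact ih _ h.1 x1 x2 x3 x4 h'
            · exact ih _ h.2 x1 x2 x3 x4 h'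
          · rw [h3, cond_true, Bool.and_eq_true] at h
            rcases mem_split3 hm with h' | h'
            · exact ih _ h.1 x1 x2 x3 x4 h'
            · exact ih _ h.2 x1 x2 x3 x4 h'
        · rw [h2, cond_true, Bool.and_eq_true] at h
          rcases mem_split2 hm with h' | h'
          · exact ih _ h.1 x1 x2 x3 x4 h'
          · exact ih _ h.2 x1 x2 x3 x4 h'
      · rw [h1, cond_true, Bool.and_eq_true] at h
        rcases mem_split1 hm with h' | h'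
        · exact ih _ h.1 x1 x2 x3 x4 h'
        · exact ih _ h.2 x1 x2 x3 x4 h'
    · exact hf b (Nat.eq_of_beq_eq_true h0) x1 x2 x3 x4 hm

/-- The direction with the largest `16 |coefficient| + w q`. -/
def sc (a b w q : Nat) : Nat := Nat.add (Nat.mul 16 (Nat.add a b)) (Nat.mul w q)

def pick (w : Nat) (X : TM) (b : Bx) : Nat :=
  cond (and (and (Nat.ble (sc X.p2 X.n2 w b.q2) (sc X.p1 X.n1 w b.q1)) (Nat.ble (sc X.p3 X.n3 w b.q3) (sc X.p1 X.n1 w b.q1))) (Nat.ble (sc X.p4 X.n4 w b.q4) (sc X.p1 X.n1 w b.q1))) 1 (cond (and (Nat.ble (sc X.p3 X.n3 w b.q3) (sc X.p2 X.n2 w b.q2)) (Nat.ble (sc X.p4 X.n4 w b.q4) (sc X.p2 X.n2 w b.q2))) 2 (cond (Nat.ble (sc X.p4 X.n4 w b.q4) (sc X.p3 X.n3 w b.q3)) 3 (4)))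

/-- Is one of the tests positive? Otherwise the direction to split. -/
def go (t : Bool) (w : Nat) (X : TM) (b : Bx) : Nat := cond t 0 (pick w X b)

theorem pick_ne (w : ℕ) (X : TM) (b : Bx) : pick w X b ≠ 0 := by
  unfold pick
  repeat (first | (apply cond_ne_zero; · norm_num) | norm_num)

theorem go_sound {t : Bool} {w : ℕ} {X : TM} {b : Bx} (h : go t w X b = 0) : t = true := by
  cases t with
  | false => exact absurd h (pick_ne w X b)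
  | true => rfl

end Pool.Agent.Strip051.Box4
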