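import Mathlib

/-! # Kernel-decidable arithmetic: raw operations on naturals

Everything that the kernel has to evaluate is written with the raw functions
`Nat.add`, `Nat.mul`, `Nat.sub`, `Nat.div`, `Nat.ble`, which it computes with big integers. -/

namespace Pool.Agent.Strip051.Box

/-- truncated difference -/
def nd (a b : Nat) : Nat := Nat.sub a b

/-- positive part of `(a - b) (c - d)` -/
def mp (a b c d : Nat) : Nat := Nat.add (Nat.mul a c) (Nat.mul b d)

/-- negative part of `(a - b) (c - d)` -/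
def mn (a b c d : Nat) : Nat := Nat.add (Nat.mul a d) (Nat.mul b c)

/-- one Newton step for the square root -/
def nst (n x : Nat) : Nat := Nat.div (Nat.add x (Nat.div n x)) 2

/-- approximate square root of `n`: ten Newton steps from `x` -/
def nst10 (n x : Nat) : Nat :=
  nst n (nst n (nst n (nst n (nst n (nst n (nst n (nst n (nst n (nst n x)))))))))

/-- approximate square root of `S * c` -/
def isq (S c : Nat) : Nat := nst10 (Nat.mul S c) (Nat.div (Nat.add c S) 2)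

/-- upper bound for the square root of `S * c` -/
def ush (S c : Nat) : Nat :=
  Nat.add (Nat.add (isq S c) 2)
    (Nat.div (nd (Nat.mul S c) (Nat.mul (isq S c) (isq S c))) (Nat.add (isq S c) 1))

theorem nd_sub (a b : ℕ) : ((nd a b : ℕ) : ℝ) - (nd b a : ℕ) = (a : ℝ) - b := by
  unfold nd
  rcases le_total a b with h | h
  · have h1 : Nat.sub a b = 0 := Nat.sub_eq_zero_of_le h
    have h2 : ((Nat.sub b a : ℕ) : ℝ) = (b : ℝ) - a := Nat.cast_sub h
    rw [h1, h2]; simp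
  · have h1 : Nat.sub b a = 0 := Nat.sub_eq_zero_of_le h
    have h2 : ((Nat.sub a b : ℕ) : ℝ) = (a : ℝ) - b := Nat.cast_sub h
    rw [h1, h2]; simp

theorem nd_abs (a b : ℕ) : ((nd a b : ℕ) : ℝ) + (nd b a : ℕ) = |(a : ℝ) - b| := by
  unfold nd
  rcases le_total a b with h | h
  · have h1 : Nat.sub a b = 0 := Nat.sub_eq_zero_of_le h
    have h2 : ((Nat.sub b a : ℕ) : ℝ) = (b : ℝ) - a := Nat.cast_sub h
    have h3 : (a : ℝ) ≤ b := by exact_mod_cast h
    rw [h1, h2, abs_of_nonpos (by linarith)]; simp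
  · have h1 : Nat.sub b a = 0 := Nat.sub_eq_zero_of_le h
    have h2 : ((Nat.sub a b : ℕ) : ℝ) = (a : ℝ) - b := Nat.cast_sub h
    have h3 : (b : ℝ) ≤ a := by exact_mod_cast h
    rw [h1, h2, abs_of_nonneg (by linarith)]; simp

theorem nd_le (a b : ℕ) : (a : ℝ) - b ≤ (nd a b : ℕ) := by
  have h := nd_sub a b
  have h0 : (0 : ℝ) ≤ (nd b a : ℕ) := Nat.cast_nonneg _
  linarith

theorem nd_nn (a b : ℕ) : (0 : ℝ) ≤ (nd a b : ℕ) := Nat.cast_nonneg _

theorem le_nd_zero {a b : ℕ} (h : nd a b = 0) : (a : ℝ) ≤ b := by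
  have h1 := nd_le a b
  rw [h] at h1
  simp only [Nat.cast_zero] at h1
  linarith

theorem cadd (a b : ℕ) : ((Nat.add a b : ℕ) : ℝ) = (a : ℝ) + b := Nat.cast_add a b

theorem cmul (a b : ℕ) : ((Nat.mul a b : ℕ) : ℝ) = (a : ℝ) * b := Nat.cast_mul a b

theorem cmpn (a b c d : ℕ) :
    ((mp a b c d : ℕ) : ℝ) - (mn a b c d : ℕ) = ((a : ℝ) - b) * ((c : ℝ) - d) := by
  unfold mp mn
  rw [cadd, cadd, cmul, cmul, cmul, cmul]
  ring

/-- floor division -/
theorem cdiv_le (a b : ℕ) : ((Nat.div a b : ℕ) : ℝ) ≤ (a : ℝ) / b := Nat.cast_div_le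

theorem lt_cdiv {a b : ℕ} (hb : 0 < b) : (a : ℝ) / b < (Nat.div a b : ℕ) + 1 := by
  have hb' : (0 : ℝ) < b := by exact_mod_cast hb
  rw [div_lt_iff₀ hb']
  have h := Nat.lt_div_mul_add (a := a) hb
  have h' : (a : ℝ) < ((a / b : ℕ) : ℝ) * b + b := by exact_mod_cast h
  have h2 : ((Nat.div a b : ℕ) : ℝ) = ((a / b : ℕ) : ℝ) := rfl
  rw [h2]
  linarith

theorem cdiv_nn (a b : ℕ) : (0 : ℝ) ≤ ((Nat.div a b : ℕ) : ℝ) := Nat.cast_nonneg _

/-- Rounding of a signed number divided by a natural. -/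
theorem rd (a b : ℕ) {c : ℕ} (hc : 0 < c) :
    |((Nat.div (nd a b) c : ℕ) : ℝ) - (Nat.div (nd b a) c : ℕ) - ((a : ℝ) - b) / c| ≤ 1 := by
  have h1 := cdiv_le (nd a b) c
  have h2 := cdiv_le (nd b a) c
  have h3 := lt_cdiv (a := nd a b) hc
  have h4 := lt_cdiv (a := nd b a) hc
  have h5 : ((a : ℝ) - b) / c = (nd a b : ℕ) / c - (nd b a : ℕ) / c := by
    rw [← nd_sub a b, sub_div]
  rw [h5, abs_le]
  constructor <;> linarith

/-- Rounding of a difference of two quotients. -/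
theorem rd2 (a b : ℕ) {c : ℕ} (hc : 0 < c) :
    |((Nat.div a c : ℕ) : ℝ) - (Nat.div b c : ℕ) - ((a : ℝ) - b) / c| ≤ 1 := by
  have h1 := cdiv_le a c
  have h2 := cdiv_le b c
  have h3 := lt_cdiv (a := a) hc
  have h4 := lt_cdiv (a := b) hc
  have h5 : ((a : ℝ) - b) / c = (a : ℝ) / c - (b : ℝ) / c := by
    rw [sub_div]
  rw [h5, abs_le]
  constructor <;> linarith

theorem mul_e {x e m : ℝ} (hx : |x| ≤ m) (he : |e| ≤ 1) : |x * e| ≤ m := by
  rw [abs_mul]
  calc |x| * |e| ≤ |x| * 1 := by gcongr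
    _ ≤ m := by linarith

theorem le_ush {S c : ℕ} {u : ℝ} (hu : u ^ 2 ≤ (S : ℝ) * c) (hu0 : 0 ≤ u) : u ≤ (ush S c : ℕ) := by
  unfold ush
  set x := isq S c with hx
  have hx0 : (0 : ℝ) ≤ (x : ℝ) := Nat.cast_nonneg _
  rw [cadd, cadd]
  have h1 : ((nd (Nat.mul S c) (Nat.mul x x) : ℕ) : ℝ) / ((Nat.add x 1 : ℕ) : ℝ)
      < (Nat.div (nd (Nat.mul S c) (Nat.mul x x)) (Nat.add x 1) : ℕ) + 1 :=
    lt_cdiv (Nat.succ_pos x)
  have h2 := nd_le (Nat.mul S c) (Nat.mul x x)
  have h3 := nd_nn (Nat.mul S c) (Nat.mul x x)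
  rw [cmul, cmul] at h2
  have h4 : ((Nat.add x 1 : ℕ) : ℝ) = (x : ℝ) + 1 := by rw [cadd]; simp
  rw [h4] at h1
  have hx1 : (0 : ℝ) < (x : ℝ) + 1 := by linarith
  have h5 : u ^ 2 - x ^ 2 ≤ ((nd (Nat.mul S c) (Nat.mul x x) : ℕ) : ℝ) := by nlinarith
  have h6 : u ≤ x + 1 + ((nd (Nat.mul S c) (Nat.mul x x) : ℕ) : ℝ) / ((x : ℝ) + 1) := by
    by_contra hcon
    push Not at hcon
    have h7 : 0 ≤ ((nd (Nat.mul S c) (Nat.mul x x) : ℕ) : ℝ) / ((x : ℝ) + 1) := by positivity
    have h8 : ((nd (Nat.mul S c) (Nat.mul x x) : ℕ) : ℝ) / ((x : ℝ) + 1) < u - (x + 1) := by linarith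
    rw [div_lt_iff₀ hx1] at h8
    nlinarith
  have h9 : ((2 : ℕ) : ℝ) = 2 := by norm_num
  rw [h9]
  linarith

theorem cond_ne_zero {c : Bool} {a b : ℕ} (ha : a ≠ 0) (hb : b ≠ 0) : cond c a b ≠ 0 := by
  cases c
  · exact hb
  · exact ha

/-! ### Real estimates behind the operations -/

theorem mul_core {S V W a b A B rX rY RA RB : ℝ} (hS : 0 < S) (hV : |V - (a + A)| ≤ rX)
    (hW : |W - (b + B)| ≤ rY) (hA : |A| ≤ RA) (hB : |B| ≤ RB) :
    |V * W / S - (a * b / S + (a * B + b * A) / S)| ≤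
      ((RA + rX) * (RB + rY) + (|a| * rY + |b| * rX)) / S := by
  have h : V * W / S - (a * b / S + (a * B + b * A) / S)
      = ((A + (V - (a + A))) * (B + (W - (b + B))) + (a * (W - (b + B)) + b * (V - (a + A)))) / S := by
    field_simp
    ring
  rw [h, abs_div, abs_of_pos hS]
  gcongr
  have h1 : |A + (V - (a + A))| ≤ RA + rX := (abs_add_le _ _).trans (add_le_add hA hV)
  have h2 : |B + (W - (b + B))| ≤ RB + rY := (abs_add_le _ _).trans (add_le_add hB hW)
  have h3 : 0 ≤ RA + rX := (abs_nonneg _).trans h1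
  refine (abs_add_le _ _).trans (add_le_add ?_ ((abs_add_le _ _).trans (add_le_add ?_ ?_)))
  · rw [abs_mul]; exact mul_le_mul h1 h2 (abs_nonneg _) h3
  · rw [abs_mul]; exact mul_le_mul_of_nonneg_left hW (abs_nonneg _)
  · rw [abs_mul]; exact mul_le_mul_of_nonneg_left hV (abs_nonneg _)

theorem sq_core {S V a A rX RA : ℝ} (hS : 0 < S) (hV : |V - (a + A)| ≤ rX) (hA : |A| ≤ RA) :
    |V ^ 2 / S - (a ^ 2 / S + 2 * a * A / S + (RA + rX) ^ 2 / 2 / S)| ≤
      ((RA + rX) ^ 2 / 2 + 2 * |a| * rX) / S := by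
  have h : V ^ 2 / S - (a ^ 2 / S + 2 * a * A / S + (RA + rX) ^ 2 / 2 / S)
      = (((V - a) ^ 2 - (RA + rX) ^ 2 / 2) + 2 * a * (V - (a + A))) / S := by
    field_simp
    ring
  rw [h, abs_div, abs_of_pos hS]
  gcongr
  have h1 : |V - a| ≤ RA + rX := by
    have : V - a = A + (V - (a + A)) := by ring
    rw [this]
    exact (abs_add_le _ _).trans (add_le_add hA hV)
  have h2 : (V - a) ^ 2 ≤ (RA + rX) ^ 2 := sq_le_sq' (by linarith [(abs_le.mp h1).1]) (abs_le.mp h1).2
  refine (abs_add_le _ _).trans (add_le_add ?_ ?_)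
  · rw [abs_le]; constructor <;> nlinarith [sq_nonneg (V - a)]
  · rw [abs_mul, abs_mul]
    have : |(2 : ℝ)| = 2 := by norm_num
    rw [this]
    exact mul_le_mul_of_nonneg_left hV (by positivity)

/-- `S ^ 2 / V` for `V = c + A + d`. -/
theorem inv_core {S V c A r RA t : ℝ} (hc : 0 < c) (hr : RA + r < c) (hV : |V - (c + A)| ≤ r)
    (hA : |A| ≤ RA) (ht0 : 0 ≤ t) (ht : t ≤ S ^ 2 / c) (ht1 : S ^ 2 / c ≤ t + 1)
    {M : ℝ} (hM : (t + 1) * (RA + r) ^ 2 / (c * (c - (RA + r))) ≤ M) :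
    |S ^ 2 / V - (t + M / 2 - t * A / c)| ≤ 2 + (t + 1) * r / c + M / 2 := by
  have hRA : 0 ≤ RA := (abs_nonneg _).trans hA
  have hr0 : 0 ≤ r := (abs_nonneg _).trans hV
  have hz : |V - c| ≤ RA + r := by
    have : V - c = A + (V - (c + A)) := by ring
    rw [this]
    exact (abs_add_le _ _).trans (add_le_add hA hV)
  have hVp : c - (RA + r) ≤ V := by linarith [(abs_le.mp hz).1]
  have hV0 : 0 < V := by linarith
  set z := V - c with hzd
  set d := V - (c + A) with hd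
  have e1 : S ^ 2 / V = S ^ 2 / c - S ^ 2 / c * (z / c) + S ^ 2 / c * (z ^ 2 / (c * V)) := by
    have : V = c + z := by rw [hzd]; ring
    rw [this]
    have : c + z ≠ 0 := by linarith
    field_simp
    ring
  have e2 : z = A + d := by rw [hzd, hd]; ring
  set T := S ^ 2 / c with hT
  have hT0 : 0 ≤ T := ht0.trans ht
  have e3 : 0 ≤ T * (z ^ 2 / (c * V)) := by positivity
  have e4 : T * (z ^ 2 / (c * V)) ≤ M := by
    refine le_trans ?_ hM
    have h1 : z ^ 2 ≤ (RA + r) ^ 2 := sq_le_sq' (by linarith [(abs_le.mp hz).1]) (abs_le.mp hz).2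
    rw [mul_div_assoc]
    have hcc : 0 < c * (c - (RA + r)) := mul_pos hc (by linarith)
    gcongr
  have hAc : |A / c| ≤ 1 := by
    rw [abs_div, abs_of_pos hc, div_le_one hc]
    linarith
  have e5 : |(T - t) * (A / c)| ≤ 1 := by
    rw [abs_mul]
    have : |T - t| ≤ 1 := by rw [abs_le]; constructor <;> linarith
    calc |T - t| * |A / c| ≤ 1 * 1 := mul_le_mul this hAc (abs_nonneg _) (by norm_num)
      _ = 1 := by norm_num
  have e6 : |T * (d / c)| ≤ (t + 1) * r / c := by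
    have h1 : |d / c| ≤ r / c := by
      rw [abs_div, abs_of_pos hc]
      gcongr
    rw [abs_mul, abs_of_nonneg hT0, mul_div_assoc]
    exact mul_le_mul ht1 h1 (abs_nonneg _) (by linarith)
  have e7 : S ^ 2 / V - (t + M / 2 - t * A / c) =
      (T - t) - (T - t) * (A / c) - T * (d / c) + (T * (z ^ 2 / (c * V)) - M / 2) := by
    rw [e1, e2]
    ring
  rw [e7]
  rw [abs_le] at e5 e6 ⊢
  constructor <;> linarith [e5.1, e5.2, e6.1, e6.2]

/-- `√(S V)` for `V = c + A + d`, with `s` close to `√(S c)`. -/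
theorem sqrt_core {S V c A r RA s e : ℝ} (hS : 0 < S) (hc : 0 < c) (hr : RA + r < c)
    (hV : |V - (c + A)| ≤ r) (hA : |A| ≤ RA) (hs : |Real.sqrt (S * c) - s| ≤ e)
    {M : ℝ} (hM : (s + e) * (RA + r) ^ 2 / (2 * (2 * c - (RA + r)) ^ 2) ≤ M) :
    |Real.sqrt (S * V) - (s - M / 2 + s * A / (2 * c))| ≤ 2 * e + (s + e) * r / (2 * c) + M / 2 := by
  have hRA : 0 ≤ RA := (abs_nonneg _).trans hA
  have hr0 : 0 ≤ r := (abs_nonneg _).trans hV
  have he0 : 0 ≤ e := (abs_nonneg _).trans hs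
  have hz : |V - c| ≤ RA + r := by
    have : V - c = A + (V - (c + A)) := by ring
    rw [this]
    exact (abs_add_le _ _).trans (add_le_add hA hV)
  have hVp : c - (RA + r) ≤ V := by linarith [(abs_le.mp hz).1]
  have hV0 : 0 < V := by linarith
  set z := V - c with hzd
  set d := V - (c + A) with hd
  have e2 : z = A + d := by rw [hzd, hd]; ring
  set s0 := Real.sqrt (S * c) with hs0
  have hs0p : 0 < s0 := Real.sqrt_pos.mpr (mul_pos hS hc)
  set q := Real.sqrt (V / c) with hq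
  have hq0 : 0 ≤ q := Real.sqrt_nonneg _
  have hq2 : q ^ 2 = V / c := Real.sq_sqrt (by positivity)
  have e0 : Real.sqrt (S * V) = s0 * q := by
    rw [hs0, hq, ← Real.sqrt_mul (by positivity)]
    congr 1
    field_simp
  have hx : z / c = q ^ 2 - 1 := by
    rw [hq2, hzd, sub_div, div_self (ne_of_gt hc)]
  have hqx : 1 - (RA + r) / c ≤ q := by
    have h1 : 1 - (RA + r) / c ≤ q ^ 2 := by
      have h2 : z / c ≥ -((RA + r) / c) := by
        rw [ge_iff_le, ← neg_div]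
        gcongr
        linarith [(abs_le.mp hz).1]
      linarith
    by_contra hcon
    push Not at hcon
    have h2 : 0 ≤ (RA + r) / c := by positivity
    nlinarith
  have e1 : s0 * q = s0 + s0 * z / (2 * c) - s0 * (q - 1) ^ 2 / 2 := by
    have : s0 * z / (2 * c) = s0 * (z / c) / 2 := by field_simp
    rw [this, hx]
    ring
  have hs1 : s0 ≤ s + e := by linarith [(abs_le.mp hs).2]
  have e3 : 0 ≤ s0 * (q - 1) ^ 2 / 2 := by positivity
  have e4 : s0 * (q - 1) ^ 2 / 2 ≤ M := by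
    refine le_trans ?_ hM
    have h2c : 0 < 2 * c - (RA + r) := by linarith
    have h1 : (q - 1) ^ 2 * (2 * c - (RA + r)) ^ 2 ≤ (RA + r) ^ 2 := by
      have h3 : |q - 1| * (2 * c - (RA + r)) ≤ RA + r := by
        have h4 : |q - 1| * (c * (q + 1)) = |z| := by
          have : z = (q - 1) * (c * (q + 1)) := by
            have h5 : z = c * (z / c) := by field_simp
            rw [h5, hx]; ring
          rw [this, abs_mul, abs_of_nonneg (mul_nonneg hc.le (by linarith : (0 : ℝ) ≤ q + 1))]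
        have h6 : 2 * c - (RA + r) ≤ c * (q + 1) := by
          have h7 : c * (1 - (RA + r) / c) ≤ c * q := by gcongr
          have h8 : c * (1 - (RA + r) / c) = c - (RA + r) := by field_simp
          linarith
        calc |q - 1| * (2 * c - (RA + r)) ≤ |q - 1| * (c * (q + 1)) := by gcongr
          _ = |z| := h4
          _ ≤ _ := hz
      have h9 : 0 ≤ |q - 1| * (2 * c - (RA + r)) := by positivity
      calc (q - 1) ^ 2 * (2 * c - (RA + r)) ^ 2 = (|q - 1| * (2 * c - (RA + r))) ^ 2 := by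
            rw [mul_pow, sq_abs]
        _ ≤ _ := pow_le_pow_left₀ h9 h3 2
    rw [div_le_div_iff₀ (by norm_num) (by positivity)]
    calc s0 * (q - 1) ^ 2 * (2 * (2 * c - (RA + r)) ^ 2)
        = 2 * s0 * ((q - 1) ^ 2 * (2 * c - (RA + r)) ^ 2) := by ring
      _ ≤ 2 * (s + e) * (RA + r) ^ 2 := by
          have : 0 ≤ s + e := hs0p.le.trans hs1
          gcongr
      _ = _ := by ring
  have hAc : |A / (2 * c)| ≤ 1 := by
    rw [abs_div, abs_of_pos (by positivity : (0 : ℝ) < 2 * c), div_le_one (by positivity)]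
    linarith
  have e5 : |(s0 - s) * (A / (2 * c))| ≤ e := by
    rw [abs_mul]
    calc |s0 - s| * |A / (2 * c)| ≤ e * 1 := mul_le_mul hs hAc (abs_nonneg _) he0
      _ = e := by ring
  have e6 : |s0 * (d / (2 * c))| ≤ (s + e) * r / (2 * c) := by
    have h1 : |d / (2 * c)| ≤ r / (2 * c) := by
      rw [abs_div, abs_of_pos (by positivity : (0 : ℝ) < 2 * c)]
      gcongr
    rw [abs_mul, abs_of_pos hs0p, mul_div_assoc]
    exact mul_le_mul hs1 h1 (abs_nonneg _) (hs0p.le.trans hs1)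
  have e7 : Real.sqrt (S * V) - (s - M / 2 + s * A / (2 * c)) =
      (s0 - s) + (s0 - s) * (A / (2 * c)) + s0 * (d / (2 * c)) - (s0 * (q - 1) ^ 2 / 2 - M / 2) := by
    rw [e0, e1, e2]
    ring
  rw [e7]
  rw [abs_le] at e5 e6 hs ⊢
  constructor <;> linarith [e5.1, e5.2, e6.1, e6.2, hs.1, hs.2]

/-- The positive part between the chord and the tangent lines. -/
theorem pos_core {V H L : ℝ} (hH : 0 < H) (hL : 0 < L) (h1 : -L ≤ V) (h2 : V ≤ H) :
    |max V 0 - (H * V / (H + L) + H * L / (H + L) / 2)| ≤ H * L / (H + L) / 2 := by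
  have hD : 0 < H + L := by linarith
  have e1 : H * V / (H + L) = V - L * V / (H + L) := by field_simp; ring
  rw [abs_le]
  rcases le_total 0 V with hv | hv
  · rw [max_eq_left hv]
    have a1 : 0 ≤ L * V / (H + L) := by positivity
    have a2 : L * V / (H + L) ≤ H * L / (H + L) := by
      apply div_le_div_of_nonneg_right _ hD.le
      nlinarith
    constructor <;> linarith
  · rw [max_eq_right hv]
    have a1 : H * V / (H + L) ≤ 0 := div_nonpos_of_nonpos_of_nonneg (by nlinarith) hD.le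
    have a2 : -(H * L / (H + L)) ≤ H * V / (H + L) := by
      rw [← neg_div]
      apply div_le_div_of_nonneg_right _ hD.le
      nlinarith
    constructor <;> linarith

theorem sqrtn_err {S m p : ℕ} (h1 : p * p ≤ m * S * S) (h2 : m * S * S ≤ (p + 1) * (p + 1)) :
    |(S : ℝ) * Real.sqrt m - p| ≤ 1 := by
  have e : (S : ℝ) * Real.sqrt m = Real.sqrt (m * S * S) := by
    rw [mul_assoc, Real.sqrt_mul (Nat.cast_nonneg m), Real.sqrt_mul_self (Nat.cast_nonneg S)]
    ring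
  have g1 : (p : ℝ) * p ≤ (m : ℝ) * S * S := by exact_mod_cast h1
  have g2 : (m : ℝ) * S * S ≤ ((p : ℝ) + 1) * (p + 1) := by exact_mod_cast h2
  have hp : (0 : ℝ) ≤ p := Nat.cast_nonneg p
  rw [e, abs_le]
  constructor
  · have : (p : ℝ) ≤ Real.sqrt (m * S * S) := Real.le_sqrt_of_sq_le (by rw [sq]; exact g1)
    linarith
  · have : Real.sqrt (m * S * S) ≤ (p : ℝ) + 1 := by
      rw [Real.sqrt_le_left (by linarith)]
      rw [sq]; exact g2
    linarith

/-- error of an approximate square root -/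
theorem sqrt_err {n s e : ℝ} (hs : 0 < s) (hn : 0 ≤ n) (he : |s ^ 2 - n| / s ≤ e) :
    |Real.sqrt n - s| ≤ e := by
  refine le_trans ?_ he
  rw [le_div_iff₀ hs]
  have h0 := Real.sqrt_nonneg n
  have h1 : s ^ 2 - n = (s - Real.sqrt n) * (s + Real.sqrt n) := by
    have := Real.sq_sqrt hn
    ring_nf
    rw [this]
  rw [h1, abs_mul, abs_sub_comm, abs_of_nonneg (by positivity : (0 : ℝ) ≤ s + Real.sqrt n)]
  gcongr
  linarith

end Pool.Agent.Strip051.Box
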