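import Pool.Agent.Strip051.Box.B5
import Pool.Agent.Strip051.LC.Line.Modulus

/-! # Case distinctions, hulls and the function `phi` in the box arithmetic (5 variables, generated) -/

namespace Pool.Agent.Strip051.Box5

open Pool.Agent.Strip051.Box
open Pool.Agent.Strip051.LC.Line (phi)

/-- decision for a quantity which is nonnegative (valid if the form is not bad) -/
def isnn (X : TM) : Bool := Nat.ble (Nat.add X.n0 (rad X)) X.p0

/-- decision for a quantity which is nonpositive (valid if the form is not bad) -/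
def isnp (X : TM) : Bool := Nat.ble (Nat.add X.p0 (rad X)) X.n0

/-- distance of two coefficients -/
def df (a b c d : Nat) : Nat := Nat.add (nd (Nat.add a d) (Nat.add b c)) (nd (Nat.add b c) (Nat.add a d))

/-- maximum of naturals -/
def nmx (a b : Nat) : Nat := Nat.add b (nd a b)

/-- distance of the affine parts -/
def dst (X Y : TM) : Nat := Nat.add (df X.p0 X.n0 Y.p0 Y.n0) (Nat.add (df X.p1 X.n1 Y.p1 Y.n1) (Nat.add (df X.p2 X.n2 Y.p2 Y.n2) (Nat.add (df X.p3 X.n3 Y.p3 Y.n3) (Nat.add (df X.p4 X.n4 Y.p4 Y.n4) (df X.p5 X.n5 Y.p5 Y.n5)))))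

/-- an enclosure of both arguments -/
def thull (X Y : TM) : TM :=
  ⟨Nat.div (nd (Nat.add X.p0 Y.p0) (Nat.add X.n0 Y.n0)) 2, Nat.div (nd (Nat.add X.n0 Y.n0) (Nat.add X.p0 Y.p0)) 2, Nat.div (nd (Nat.add X.p1 Y.p1) (Nat.add X.n1 Y.n1)) 2, Nat.div (nd (Nat.add X.n1 Y.n1) (Nat.add X.p1 Y.p1)) 2, Nat.div (nd (Nat.add X.p2 Y.p2) (Nat.add X.n2 Y.n2)) 2, Nat.div (nd (Nat.add X.n2 Y.n2) (Nat.add X.p2 Y.p2)) 2, Nat.div (nd (Nat.add X.p3 Y.p3) (Nat.add X.n3 Y.n3)) 2, Nat.div (nd (Nat.add X.n3 Y.n3) (Nat.add X.p3 Y.p3)) 2, Nat.div (nd (Nat.add X.p4 Y.p4) (Nat.add X.n4 Y.n4)) 2, Nat.div (nd (Nat.add X.n4 Y.n4) (Nat.add X.p4 Y.p4)) 2, Nat.div (nd (Nat.add X.p5 Y.p5) (Nat.add X.n5 Y.n5)) 2, Nat.div (nd (Nat.add X.n5 Y.n5) (Nat.add X.p5 Y.p5)) 2, Nat.add (nmx X.r Y.r) (Nat.add (Nat.div (dst X Y) 2) 7), Nat.add X.bad Y.bad⟩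

/-- case distinction: `A` if the enclosed number is `≤ 0`, else `B` -/
def tcase (C A B : TM) : TM :=
  cond (and (Nat.beq C.bad 0) (isnp C)) A (cond (pos C) B (thull A B))

/-- the first enclosure if it is usable -/
def tor (X Y : TM) : TM := cond (Nat.beq X.bad 0) X Y

/-- crude enclosure of `phi` -/
def phC (X Y : TM) : TM := flat (Nat.add (Nat.div (Nat.add (up X) (up Y)) 2) 1) (Nat.add X.bad Y.bad)

/-- `phi` for nonnegative first argument -/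
def phA (S : Nat) (X Y : TM) : TM :=
  tor (tadd (tscale 1 2 (tadd X Y)) (tmul S (tsq S (tpos (tneg Y))) (tinv S (tnat 2 (tadd X (tpos (tneg Y))))))) (phC X Y)

/-- `phi` for nonpositive first argument -/
def phB (S : Nat) (X Y : TM) : TM :=
  tor (tmul S (tsq S (tpos Y)) (tinv S (tnat 2 (tsub (tpos Y) X)))) (phC X Y)

/-- the function `phi` -/
def tphi (S : Nat) (X Y : TM) : TM :=
  cond (isnp X) (cond (isnp Y) (flat 0 (Nat.add X.bad Y.bad)) (phB S X Y))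
    (cond (isnp Y) (phB S Y X) (cond (isnn X) (cond (isnn Y) (tscale 1 2 (tadd X Y)) (phA S X Y))
      (cond (isnn Y) (phA S Y X) (phC X Y))))

/-- a quotient which is known to be in `[0, 1]`, clamped -/
def tlamq (S : Nat) (q : TM) (bad : Nat) : TM :=
  cond (and (Nat.beq q.bad 0) (Nat.ble (Nat.mul 2 (rad q)) S)) (tmin (tpos q) (tconst (Nat.mul 1 S) 0 0)) (flat S bad)

def tlam (S : Nat) (N D : TM) : TM :=
  tlamq S (tmul S N (tinv S D)) (Nat.add N.bad D.bad)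

/-! ### Soundness -/

theorem of_isnn {S : ℕ} (hS : 0 < S) {E : Pt} {X : TM} {v : ℝ}
    (h : |(S : ℝ) * v - (c0 X + lin E X)| ≤ X.r) (hx : isnn X = true) : 0 ≤ v := by
  have hSr : (0 : ℝ) < S := by exact_mod_cast hS
  have h3 := dist_c h
  have h4 := ble_cast hx
  rw [cadd] at h4
  rw [abs_le] at h3
  unfold c0 at h3
  have h5 : 0 ≤ (S : ℝ) * v := by linarith [h3.1]
  by_contra hcon
  push Not at hcon
  have := mul_pos_of_neg_of_neg (neg_neg_of_pos hSr) hcon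
  linarith

theorem of_isnp {S : ℕ} (hS : 0 < S) {E : Pt} {X : TM} {v : ℝ}
    (h : |(S : ℝ) * v - (c0 X + lin E X)| ≤ X.r) (hx : isnp X = true) : v ≤ 0 := by
  have hSr : (0 : ℝ) < S := by exact_mod_cast hS
  have h3 := dist_c h
  have h4 := ble_cast hx
  rw [cadd] at h4
  rw [abs_le] at h3
  unfold c0 at h3
  have h5 : (S : ℝ) * v ≤ 0 := by linarith [h3.2]
  by_contra hcon
  push Not at hcon
  have := mul_pos hSr hcon
  linarith

theorem df_cast (a b c d : ℕ) : ((df a b c d : ℕ) : ℝ) = |((a : ℝ) - b) - ((c : ℝ) - d)| := by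
  unfold df
  rw [cadd, nd_abs, cadd, cadd]
  congr 1
  ring

theorem nmx_le (a b : ℕ) : (a : ℝ) ≤ (nmx a b : ℕ) ∧ (b : ℝ) ≤ (nmx a b : ℕ) := by
  unfold nmx
  rw [cadd]
  have h1 := nd_le a b
  have h2 := nd_nn a b
  constructor <;> linarith

theorem mean_round (a b c d : ℕ) :
    |((Nat.div (nd (Nat.add a c) (Nat.add b d)) 2 : ℕ) : ℝ) -
      (Nat.div (nd (Nat.add b d) (Nat.add a c)) 2 : ℕ) - (((a : ℝ) - b) + ((c : ℝ) - d)) / 2| ≤ 1 := by
  have h := rd (Nat.add a c) (Nat.add b d) (c := 2) (by norm_num)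
  rw [cadd, cadd] at h
  have e : ((a : ℝ) + c - (b + d)) / ((2 : ℕ) : ℝ) = (((a : ℝ) - b) + ((c : ℝ) - d)) / 2 := by
    push_cast
    ring
  rwa [e] at h

theorem thull_lin (E : Pt) (X Y : TM) :
    |(c0 (thull X Y) + lin E (thull X Y)) - ((c0 X + lin E X) + (c0 Y + lin E Y)) / 2| ≤ 6 := by
  have m0 := mean_round X.p0 X.n0 Y.p0 Y.n0
  have m1 := mul_e (mean_round X.p1 X.n1 Y.p1 Y.n1) E.h1
  have m2 := mul_e (mean_round X.p2 X.n2 Y.p2 Y.n2) E.h2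
  have m3 := mul_e (mean_round X.p3 X.n3 Y.p3 Y.n3) E.h3
  have m4 := mul_e (mean_round X.p4 X.n4 Y.p4 Y.n4) E.h4
  have m5 := mul_e (mean_round X.p5 X.n5 Y.p5 Y.n5) E.h5
  have e0 : c0 (thull X Y) = ((Nat.div (nd (Nat.add X.p0 Y.p0) (Nat.add X.n0 Y.n0)) 2 : ℕ) : ℝ) -
      (Nat.div (nd (Nat.add X.n0 Y.n0) (Nat.add X.p0 Y.p0)) 2 : ℕ) := rfl
  have e1 : lin E (thull X Y) = (((Nat.div (nd (Nat.add X.p1 Y.p1) (Nat.add X.n1 Y.n1)) 2 : ℕ) : ℝ) -
      (Nat.div (nd (Nat.add X.n1 Y.n1) (Nat.add X.p1 Y.p1)) 2 : ℕ)) * E.e1 + (((Nat.div (nd (Nat.add X.p2 Y.p2) (Nat.add X.n2 Y.n2)) 2 : ℕ) : ℝ) -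
      (Nat.div (nd (Nat.add X.n2 Y.n2) (Nat.add X.p2 Y.p2)) 2 : ℕ)) * E.e2 + (((Nat.div (nd (Nat.add X.p3 Y.p3) (Nat.add X.n3 Y.n3)) 2 : ℕ) : ℝ) -
      (Nat.div (nd (Nat.add X.n3 Y.n3) (Nat.add X.p3 Y.p3)) 2 : ℕ)) * E.e3 + (((Nat.div (nd (Nat.add X.p4 Y.p4) (Nat.add X.n4 Y.n4)) 2 : ℕ) : ℝ) -
      (Nat.div (nd (Nat.add X.n4 Y.n4) (Nat.add X.p4 Y.p4)) 2 : ℕ)) * E.e4 + (((Nat.div (nd (Nat.add X.p5 Y.p5) (Nat.add X.n5 Y.n5)) 2 : ℕ) : ℝ) -
      (Nat.div (nd (Nat.add X.n5 Y.n5) (Nat.add X.p5 Y.p5)) 2 : ℕ)) * E.e5 := rfl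
  rw [e0, e1]
  unfold c0 lin
  rw [abs_le] at m0 m1 m2 m3 m4 m5 ⊢
  constructor <;> linarith [m0.1, m0.2, m1.1, m1.2, m2.1, m2.2, m3.1, m3.2, m4.1, m4.2, m5.1, m5.2]

theorem dst_le (E : Pt) (X Y : TM) : |(c0 X + lin E X) - (c0 Y + lin E Y)| ≤ (dst X Y : ℕ) := by
  have hd : ((dst X Y : ℕ) : ℝ) = (df X.p0 X.n0 Y.p0 Y.n0 : ℕ) + ((df X.p1 X.n1 Y.p1 Y.n1 : ℕ) + ((df X.p2 X.n2 Y.p2 Y.n2 : ℕ) + ((df X.p3 X.n3 Y.p3 Y.n3 : ℕ) + ((df X.p4 X.n4 Y.p4 Y.n4 : ℕ) + ((df X.p5 X.n5 Y.p5 Y.n5 : ℕ)))))) := by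
    unfold dst
    simp only [cadd]
  rw [hd]
  simp only [df_cast]
  have a1 : |(((X.p1 : ℝ) - X.n1) - ((Y.p1 : ℝ) - Y.n1)) * E.e1| ≤ |((X.p1 : ℝ) - X.n1) - ((Y.p1 : ℝ) - Y.n1)| := mul_e le_rfl E.h1
  have a2 : |(((X.p2 : ℝ) - X.n2) - ((Y.p2 : ℝ) - Y.n2)) * E.e2| ≤ |((X.p2 : ℝ) - X.n2) - ((Y.p2 : ℝ) - Y.n2)| := mul_e le_rfl E.h2
  have a3 : |(((X.p3 : ℝ) - X.n3) - ((Y.p3 : ℝ) - Y.n3)) * E.e3| ≤ |((X.p3 : ℝ) - X.n3) - ((Y.p3 : ℝ) - Y.n3)| := mul_e le_rfl E.h3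
  have a4 : |(((X.p4 : ℝ) - X.n4) - ((Y.p4 : ℝ) - Y.n4)) * E.e4| ≤ |((X.p4 : ℝ) - X.n4) - ((Y.p4 : ℝ) - Y.n4)| := mul_e le_rfl E.h4
  have a5 : |(((X.p5 : ℝ) - X.n5) - ((Y.p5 : ℝ) - Y.n5)) * E.e5| ≤ |((X.p5 : ℝ) - X.n5) - ((Y.p5 : ℝ) - Y.n5)| := mul_e le_rfl E.h5
  have a0 := le_refl |((X.p0 : ℝ) - X.n0) - ((Y.p0 : ℝ) - Y.n0)|
  unfold c0 lin
  set z0 := |((X.p0 : ℝ) - X.n0) - ((Y.p0 : ℝ) - Y.n0)|
  set z1 := |((X.p1 : ℝ) - X.n1) - ((Y.p1 : ℝ) - Y.n1)|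
  set z2 := |((X.p2 : ℝ) - X.n2) - ((Y.p2 : ℝ) - Y.n2)|
  set z3 := |((X.p3 : ℝ) - X.n3) - ((Y.p3 : ℝ) - Y.n3)|
  set z4 := |((X.p4 : ℝ) - X.n4) - ((Y.p4 : ℝ) - Y.n4)|
  set z5 := |((X.p5 : ℝ) - X.n5) - ((Y.p5 : ℝ) - Y.n5)|
  have b0 : |((X.p0 : ℝ) - X.n0) - ((Y.p0 : ℝ) - Y.n0)| ≤ z0 := le_rfl
  rw [abs_le] at b0 a1 a2 a3 a4 a5 ⊢
  constructor <;> linarith [b0.1, b0.2, a1.1, a1.2, a2.1, a2.2, a3.1, a3.2, a4.1, a4.2, a5.1, a5.2]

theorem thull_r (X Y : TM) : (((thull X Y).r : ℕ) : ℝ) =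
    (nmx X.r Y.r : ℕ) + ((Nat.div (dst X Y) 2 : ℕ) + ((7 : ℕ) : ℝ)) := by
  refine (cadd _ _).trans ?_
  rw [cadd]

theorem hull_core {S : ℕ} {E : Pt} {X Y : TM} {v : ℝ} {ρ : ℕ} (hr : (ρ : ℝ) ≤ (nmx X.r Y.r : ℕ))
    (h : |(S : ℝ) * v - (c0 X + lin E X)| ≤ ρ ∨ |(S : ℝ) * v - (c0 Y + lin E Y)| ≤ ρ) :
    |(S : ℝ) * v - (c0 (thull X Y) + lin E (thull X Y))| ≤ (thull X Y).r := by
  have h1 := thull_lin E X Y
  have h2 := dst_le E X Y
  have h3 := lt_cdiv (a := dst X Y) (b := 2) (by norm_num)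
  rw [thull_r]
  push_cast at h3 ⊢
  rcases h with h | h
  · rw [abs_le] at h h1 h2 ⊢
    constructor <;> linarith [h.1, h.2, h1.1, h1.2, h2.1, h2.2]
  · rw [abs_le] at h h1 h2 ⊢
    constructor <;> linarith [h.1, h.2, h1.1, h1.2, h2.1, h2.2]

theorem enc_hullL {S : ℕ} {E : Pt} {X Y : TM} {v : ℝ} (hX : Enc S E X v) :
    Enc S E (thull X Y) v := by
  intro hb
  obtain ⟨b1, _⟩ := bad_add hb
  exact hull_core (nmx_le X.r Y.r).1 (Or.inl (hX b1))

theorem enc_hullR {S : ℕ} {E : Pt} {X Y : TM} {v : ℝ} (hY : Enc S E Y v) :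
    Enc S E (thull X Y) v := by
  intro hb
  obtain ⟨_, b2⟩ := bad_add hb
  exact hull_core (nmx_le X.r Y.r).2 (Or.inr (hY b2))

/-- Case distinction; each branch needs to be an enclosure only in its case. -/
theorem enc_case' {S : ℕ} (hS : 0 < S) {E : Pt} {C A B : TM} {c a b : ℝ} (hC : Enc S E C c)
    (hA : c ≤ 0 → Enc S E A a) (hB : 0 < c → Enc S E B b) :
    Enc S E (tcase C A B) (if c ≤ 0 then a else b) := by
  unfold tcase
  rcases h1 : and (Nat.beq C.bad 0) (isnp C) with _ | _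
  · rw [cond_false]
    rcases h2 : pos C with _ | _
    · rw [cond_false]
      split_ifs with h
      · exact enc_hullL (hA h)
      · exact enc_hullR (hB (not_le.mp h))
    · rw [cond_true]
      have h3 := pos_sound hS hC h2
      rw [if_neg (not_le.mpr h3)]
      exact hB h3
  · rw [cond_true]
    rw [Bool.and_eq_true] at h1
    have hb : C.bad = 0 := Nat.eq_of_beq_eq_true h1.1
    have h3 := of_isnp hS (hC hb) h1.2
    rw [if_pos h3]
    exact hA h3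

theorem enc_case {S : ℕ} (hS : 0 < S) {E : Pt} {C A B : TM} {c a b : ℝ} (hC : Enc S E C c)
    (hA : Enc S E A a) (hB : Enc S E B b) :
    Enc S E (tcase C A B) (if c ≤ 0 then a else b) :=
  enc_case' hS hC (fun _ => hA) (fun _ => hB)

theorem enc_or {S : ℕ} {E : Pt} {X Y : TM} {v : ℝ} (hX : Enc S E X v) (hY : Enc S E Y v) :
    Enc S E (tor X Y) v := by
  unfold tor
  cases Nat.beq X.bad 0
  · exact hY
  · exact hX

theorem enc_phC {S : ℕ} {E : Pt} {X Y : TM} {v w : ℝ} (hX : Enc S E X v)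
    (hY : Enc S E Y w) : Enc S E (phC X Y) (phi v w) := by
  intro hb
  obtain ⟨b1, b2⟩ := bad_add hb
  have h1 := le_up (hX b1)
  have h2 := le_up (hY b2)
  have h3 := LC.Line.phi_nonneg v w
  have h4 := LC.Line.phi_le_half v w
  have hSr : (0 : ℝ) ≤ S := Nat.cast_nonneg _
  have m1 : (S : ℝ) * max v 0 ≤ (up X : ℕ) := by
    rw [mul_max_of_nonneg _ _ hSr, mul_zero]
    exact max_le h1 (Nat.cast_nonneg _)
  have m2 : (S : ℝ) * max w 0 ≤ (up Y : ℕ) := by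
    rw [mul_max_of_nonneg _ _ hSr, mul_zero]
    exact max_le h2 (Nat.cast_nonneg _)
  have h5 : (S : ℝ) * phi v w ≤ (S : ℝ) * ((max v 0 + max w 0) / 2) := by gcongr
  refine enc_flat (E := E) (bad := Nat.add X.bad Y.bad) (mul_nonneg hSr h3) ?_ hb
  have h6 := lt_cdiv (a := Nat.add (up X) (up Y)) (b := 2) (by norm_num)
  rw [cadd] at h6 ⊢
  push_cast at h6 ⊢
  linarith

theorem half_real (x : ℝ) : ((1 : ℕ) : ℝ) / ((2 : ℕ) : ℝ) * x = x / 2 := by
  push_cast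
  ring

theorem phi_a {v w : ℝ} (hv : 0 ≤ v) : phi v w = ((1 : ℕ) : ℝ) / ((2 : ℕ) : ℝ) * (v + w) +
    (max (-w) 0) ^ 2 * (((2 : ℕ) : ℝ) * (v + max (-w) 0))⁻¹ := by
  rw [half_real]
  rcases le_total 0 w with h | h
  · rw [LC.Line.phi_nonneg_nonneg hv h, max_eq_right (by linarith)]
    ring
  · rw [LC.Line.phi_pos_neg hv h, max_eq_left (by linarith)]
    rcases (add_nonneg hv (neg_nonneg.mpr h)).eq_or_lt with h1 | h1
    · have hv0 : v = 0 := by linarith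
      have hw0 : w = 0 := by linarith
      simp [hv0, hw0]
    · have : v - w ≠ 0 := by linarith
      have h2 : v + -w ≠ 0 := by linarith
      push_cast
      field_simp
      ring

theorem phi_b {v w : ℝ} (hv : v ≤ 0) : phi v w = (max w 0) ^ 2 *
    (((2 : ℕ) : ℝ) * (max w 0 - v))⁻¹ := by
  rcases le_total 0 w with h | h
  · rw [LC.Line.phi_neg_pos hv h, max_eq_left h]
    push_cast
    rw [div_eq_mul_inv]
  · rw [LC.Line.phi_nonpos_nonpos hv h, max_eq_right h]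
    simp

theorem enc_phA {S : ℕ} (hS : 0 < S) {E : Pt} {X Y : TM} {v w : ℝ} (hX : Enc S E X v)
    (hY : Enc S E Y w) (hv : 0 ≤ v) : Enc S E (phA S X Y) (phi v w) := by
  refine enc_or ?_ (enc_phC hX hY)
  rw [phi_a hv]
  exact enc_add (enc_scale 1 (by norm_num) (enc_add hX hY))
    (enc_mul hS (enc_sq hS (enc_pos hS (enc_neg hY)))
      (enc_inv hS (enc_nat 2 (enc_add hX (enc_pos hS (enc_neg hY))))))

theorem enc_phB {S : ℕ} (hS : 0 < S) {E : Pt} {X Y : TM} {v w : ℝ} (hX : Enc S E X v)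
    (hY : Enc S E Y w) (hv : v ≤ 0) : Enc S E (phB S X Y) (phi v w) := by
  refine enc_or ?_ (enc_phC hX hY)
  rw [phi_b hv]
  exact enc_mul hS (enc_sq hS (enc_pos hS hY))
    (enc_inv hS (enc_nat 2 (enc_sub (enc_pos hS hY) hX)))

theorem flat_bad (u bad : ℕ) : (flat u bad).bad = bad := rfl

theorem bad_tor {X Y : TM} (h : (tor X Y).bad = 0) : X.bad = 0 ∨ Y.bad = 0 := by
  unfold tor at h
  rcases h1 : Nat.beq X.bad 0 with _ | _
  · rw [h1, cond_false] at h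
    exact Or.inr h
  · exact Or.inl (Nat.eq_of_beq_eq_true h1)

theorem phC_bad {X Y : TM} (h : (phC X Y).bad = 0) : X.bad = 0 ∧ Y.bad = 0 := bad_add h

theorem tposc_bad (X : TM) : (tposc X).bad = X.bad := rfl

theorem tpos_bad (X : TM) : (tpos X).bad = X.bad := by
  unfold tpos
  cases Nat.ble (Nat.add X.n0 (rad X)) X.p0
  · rw [cond_false]
    cases Nat.ble (Nat.add X.p0 (rad X)) X.n0
    · rw [cond_false]
      exact tposc_bad X
    · rw [cond_true]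
      exact flat_bad _ _
  · rw [cond_true]

theorem phA_bad {S : ℕ} {X Y : TM} (h : (phA S X Y).bad = 0) : X.bad = 0 ∧ Y.bad = 0 := by
  rcases bad_tor h with h | h
  · obtain ⟨h1, _⟩ := bad_add h
    exact bad_add (show (tadd X Y).bad = 0 from h1)
  · exact phC_bad h

theorem phB_bad {S : ℕ} {X Y : TM} (h : (phB S X Y).bad = 0) : X.bad = 0 ∧ Y.bad = 0 := by
  rcases bad_tor h with h | h
  · obtain ⟨h1, h2⟩ := bad_add h
    have h3 : (tpos Y).bad = 0 := h1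
    rw [tpos_bad] at h3
    obtain ⟨h4, _⟩ := bad_add h2
    obtain ⟨_, h5⟩ := bad_add (show (tsub (tpos Y) X).bad = 0 from h4)
    exact ⟨h5, h3⟩
  · exact phC_bad h

theorem enc_phi {S : ℕ} (hS : 0 < S) {E : Pt} {X Y : TM} {v w : ℝ} (hX : Enc S E X v)
    (hY : Enc S E Y w) : Enc S E (tphi S X Y) (phi v w) := by
  have hbad : (tphi S X Y).bad = 0 → X.bad = 0 ∧ Y.bad = 0 := by
    unfold tphi
    intro hb
    cases e1 : isnp X <;> rw [e1] at hb
    · rw [cond_false] at hb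
      cases e2 : isnp Y <;> rw [e2] at hb
      · rw [cond_false] at hb
        cases e3 : isnn X <;> rw [e3] at hb
        · rw [cond_false] at hb
          cases e4 : isnn Y <;> rw [e4] at hb
          · rw [cond_false] at hb
            exact phC_bad hb
          · rw [cond_true] at hb
            exact (phA_bad hb).symm
        · rw [cond_true] at hb
          cases e4 : isnn Y <;> rw [e4] at hb
          · rw [cond_false] at hb
            exact phA_bad hb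
          · rw [cond_true] at hb
            exact bad_add (show (tadd X Y).bad = 0 from hb)
      · rw [cond_true] at hb
        exact (phB_bad hb).symm
    · rw [cond_true] at hb
      cases e2 : isnp Y <;> rw [e2] at hb
      · rw [cond_false] at hb
        exact phB_bad hb
      · rw [cond_true] at hb
        exact bad_add hb
  intro hb
  obtain ⟨b1, b2⟩ := hbad hb
  have g1 := hX b1
  have g2 := hY b2
  revert hb
  unfold tphi
  cases e1 : isnp X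
  · rw [cond_false]
    cases e2 : isnp Y
    · rw [cond_false]
      cases e3 : isnn X
      · rw [cond_false]
        cases e4 : isnn Y
        · rw [cond_false]
          exact enc_phC hX hY
        · rw [cond_true, LC.Line.phi_comm]
          exact enc_phA hS hY hX (of_isnn hS g2 e4)
      · rw [cond_true]
        cases e4 : isnn Y
        · rw [cond_false]
          exact enc_phA hS hX hY (of_isnn hS g1 e3)
        · rw [cond_true, LC.Line.phi_nonneg_nonneg (of_isnn hS g1 e3) (of_isnn hS g2 e4),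
            ← half_real]
          exact enc_scale 1 (by norm_num) (enc_add hX hY)
    · rw [cond_true, LC.Line.phi_comm]
      exact enc_phB hS hY hX (of_isnp hS g2 e2)
  · rw [cond_true]
    cases e2 : isnp Y
    · rw [cond_false]
      exact enc_phB hS hX hY (of_isnp hS g1 e1)
    · rw [cond_true, LC.Line.phi_nonpos_nonpos (of_isnp hS g1 e1) (of_isnp hS g2 e2)]
      exact enc_flat (by simp) (by simp)

theorem enc_lam {S : ℕ} (hS : 0 < S) {E : Pt} {N D : TM} {n d : ℝ} (hN : Enc S E N n)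
    (hD : Enc S E D d) : Enc S E (tlam S N D) (min (max (n * d⁻¹) 0) 1) := by
  unfold tlam tlamq
  cases and (Nat.beq (tmul S N (tinv S D)).bad 0) (Nat.ble (Nat.mul 2 (rad (tmul S N (tinv S D)))) S)
  · rw [cond_false]
    refine enc_flat ?_ ?_
    · exact mul_nonneg (Nat.cast_nonneg _) (le_min (le_max_right _ _) zero_le_one)
    · have h1 : (S : ℝ) * min (max (n * d⁻¹) 0) 1 ≤ (S : ℝ) * 1 := by
        gcongr
        exact min_le_right _ _
      linarith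
  · rw [cond_true]
    have h1 : Enc S E (tconst (Nat.mul 1 S) 0 0) ((1 : ℕ) : ℝ) := enc_nc E 1
    have h2 := enc_min hS (enc_pos hS (enc_mul hS hN (enc_inv hS hD))) h1
    rwa [Nat.cast_one] at h2

/-- The direction for the split; bad forms do not influence it. -/
def pickb (w : Nat) (X : TM) (b : Bx) : Nat :=
  pick w (cond (Nat.beq X.bad 0) X (tconst 0 0 0)) b

theorem pickb_ne (w : ℕ) (X : TM) (b : Bx) : pickb w X b ≠ 0 := pick_ne _ _ _

end Pool.Agent.Strip051.Box5
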