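import Mathlib

/-! # The universal density: periodic odd function, its primitive, slope bounds

`u z = 1 - √(1 - 3 z²)`; on `[0, a]` the density is `al z + ga z² - be u z`, on `[a, 1/2]` linear
down to `0`; it is extended oddly about `0` and `1/2` with period `1`. -/

namespace Pool.Agent.Strip051.Box.Dens

open Set

noncomputable def u (z : ℝ) : ℝ := 1 - Real.sqrt (1 - 3 * z ^ 2)

/-- parameters of a density -/
structure Par where
  (al be ga : ℝ)
  (a : ℝ)
  (ha : 0 < a)
  (ha4 : a ≤ 1 / 4)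

variable (P : Par)

noncomputable def del0 (z : ℝ) : ℝ := P.al * z + P.ga * z ^ 2 - P.be * u z

noncomputable def del (z : ℝ) : ℝ := del0 P (min z P.a) * ((1 - 2 * max z P.a) / (1 - 2 * P.a))

noncomputable def Dp (z : ℝ) : ℝ := del P (min z (1 / 2)) - del P (min (1 - z) (1 / 2))

/-- the density, period 1, in units of the period -/
noncomputable def Dn (Y : ℝ) : ℝ := Dp P (Int.fract Y)

/-- the primitive of the density -/
noncomputable def Gn (Y : ℝ) : ℝ := ∫ t in (0 : ℝ)..Y, Dn P t

theorem one_sub_pos : 0 < 1 - 2 * P.a := by linarith [P.ha4]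

theorem u_zero : u 0 = 0 := by simp [u]

theorem del_of_le {z : ℝ} (h : z ≤ P.a) : del P z = del0 P z := by
  unfold del
  rw [min_eq_left h, max_eq_right h, div_self (one_sub_pos P).ne', mul_one]

theorem del_of_ge {z : ℝ} (h : P.a ≤ z) : del P z = del0 P P.a * ((1 - 2 * z) / (1 - 2 * P.a)) := by
  unfold del
  rw [min_eq_right h, max_eq_left h]

theorem del_half : del P (1 / 2) = 0 := by
  rw [del_of_ge P (by linarith [P.ha4])]
  simp

theorem del_zero : del P 0 = 0 := by
  rw [del_of_le P P.ha.le]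
  simp [del0, u_zero]

theorem u_cont : Continuous u := by
  unfold u
  fun_prop

theorem del_cont : Continuous (del P) := by
  unfold del del0
  have := u_cont
  fun_prop

theorem Dp_cont : Continuous (Dp P) := by
  unfold Dp
  have := del_cont P
  fun_prop

theorem Dp_of_le {z : ℝ} (h : z ≤ 1 / 2) : Dp P z = del P z := by
  unfold Dp
  rw [min_eq_left h, min_eq_right (by linarith), del_half, sub_zero]

theorem Dp_of_ge {z : ℝ} (h : 1 / 2 ≤ z) : Dp P z = -del P (1 - z) := by
  unfold Dp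
  rw [min_eq_right h, min_eq_left (by linarith), del_half, zero_sub]

theorem Dp_zero : Dp P 0 = 0 := by rw [Dp_of_le P (by norm_num), del_zero]

theorem Dp_one : Dp P 1 = 0 := by rw [Dp_of_ge P (by norm_num)]; simp [del_zero]

theorem Dp_refl (z : ℝ) : Dp P (1 - z) = -Dp P z := by
  unfold Dp
  rw [sub_sub_cancel]
  ring

theorem Dn_cont : Continuous (Dn P) := by
  have h := ContinuousOn.comp_fract (f := fun (_ : ℝ) t => Dp P t) (s := fun x : ℝ => x)
    ((Dp_cont P).comp continuous_snd).continuousOn continuous_id (fun _ => by rw [Dp_zero, Dp_one])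
  exact h

theorem Dn_add_int (Y : ℝ) (k : ℤ) : Dn P (Y + k) = Dn P Y := by
  unfold Dn
  rw [Int.fract_add_intCast]

theorem Dn_add_one (Y : ℝ) : Dn P (Y + 1) = Dn P Y := by
  have := Dn_add_int P Y 1
  simpa using this

theorem Dn_of_mem {z : ℝ} (h0 : 0 ≤ z) (h1 : z ≤ 1) : Dn P z = Dp P z := by
  rcases lt_or_eq_of_le h1 with h | h
  · unfold Dn
    rw [Int.fract_eq_self.mpr ⟨h0, h⟩]
  · rw [h]
    unfold Dn
    simp [Dp_zero, Dp_one]

/-- oddness -/
theorem Dn_neg (Y : ℝ) : Dn P (-Y) = -Dn P Y := by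
  unfold Dn
  by_cases h : Int.fract Y = 0
  · rw [h, Int.fract_neg_eq_zero.mpr h, Dp_zero, neg_zero]
  · rw [Int.fract_neg h, Dp_refl]

theorem Gn_deriv (Y : ℝ) : HasDerivAt (Gn P) (Dn P Y) Y := by
  unfold Gn
  exact intervalIntegral.integral_hasDerivAt_right ((Dn_cont P).intervalIntegrable _ _)
    ((Dn_cont P).stronglyMeasurableAtFilter _ _) (Dn_cont P).continuousAt

theorem Gn_zero : Gn P 0 = 0 := by simp [Gn]

theorem Gn_neg (Y : ℝ) : Gn P (-Y) = Gn P Y := by
  unfold Gn
  have h : ∫ t in (0 : ℝ)..(-Y), Dn P t = -∫ t in (0 : ℝ)..Y, Dn P (-t) := by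
    rw [intervalIntegral.integral_comp_neg (fun t => Dn P t)]
    rw [neg_zero, intervalIntegral.integral_symm]
  rw [h]
  simp only [Dn_neg]
  rw [intervalIntegral.integral_neg, neg_neg]

theorem int_one : ∫ t in (0 : ℝ)..1, Dn P t = 0 := by
  have h : ∫ t in (0 : ℝ)..1, Dn P t = ∫ t in (0 : ℝ)..1, Dn P (1 - t) := by
    rw [intervalIntegral.integral_comp_sub_left (fun t => Dn P t)]
    norm_num
  have h2 : ∀ t, Dn P (1 - t) = -Dn P t := by
    intro t
    have : (1 : ℝ) - t = -t + 1 := by ring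
    rw [this, Dn_add_one, Dn_neg]
  simp only [h2] at h
  rw [intervalIntegral.integral_neg] at h
  linarith

theorem Gn_add_one (Y : ℝ) : Gn P (Y + 1) = Gn P Y := by
  have hp : Function.Periodic (Dn P) 1 := Dn_add_one P
  have h := hp.intervalIntegral_add_eq Y 0
  rw [zero_add, int_one] at h
  unfold Gn
  have h2 := intervalIntegral.integral_add_adjacent_intervals
    ((Dn_cont P).intervalIntegrable (μ := MeasureTheory.volume) 0 Y) ((Dn_cont P).intervalIntegrable Y (Y + 1))
  rw [h, add_zero] at h2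
  exact h2.symm

theorem Gn_add_int (Y : ℝ) (k : ℤ) : Gn P (Y + k) = Gn P Y := by
  have hp : Function.Periodic (Gn P) 1 := Gn_add_one P
  have := hp.int_mul k Y
  simpa using this

theorem Gn_refl (Y : ℝ) : Gn P (1 - Y) = Gn P Y := by
  have : (1 : ℝ) - Y = -Y + 1 := by ring
  rw [this, Gn_add_one, Gn_neg]

/-! ### Slope bounds -/

/-- the slopes of `f` on `[l, r]` lie in `[s - L, s + L]` -/
def Lp (f : ℝ → ℝ) (s L l r : ℝ) : Prop :=
  ∀ x ∈ Icc l r, ∀ y ∈ Icc l r, |f x - f y - s * (x - y)| ≤ L * |x - y|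

theorem Lp.mono {f : ℝ → ℝ} {s L l r l' r' : ℝ} (h : Lp f s L l r) (hl : l ≤ l') (hr : r' ≤ r) :
    Lp f s L l' r' := fun x hx y hy =>
  h x ⟨hl.trans hx.1, hx.2.trans hr⟩ y ⟨hl.trans hy.1, hy.2.trans hr⟩

theorem Lp.weaken {f : ℝ → ℝ} {s L s' L' l r : ℝ} (h : Lp f s L l r)
    (h1 : |s - s'| + L ≤ L') : Lp f s' L' l r := fun x hx y hy => by
  have h2 := h x hx y hy
  have e : f x - f y - s' * (x - y) = (f x - f y - s * (x - y)) + (s - s') * (x - y) := by ring
  rw [e]
  calc _ ≤ |f x - f y - s * (x - y)| + |(s - s') * (x - y)| := abs_add_le _ _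
    _ ≤ L * |x - y| + |s - s'| * |x - y| := by rw [abs_mul]; linarith
    _ = (|s - s'| + L) * |x - y| := by ring
    _ ≤ _ := mul_le_mul_of_nonneg_right h1 (abs_nonneg _)

theorem Lp.of_ordered {f : ℝ → ℝ} {s L l r : ℝ}
    (h : ∀ x ∈ Icc l r, ∀ y ∈ Icc l r, x ≤ y → |f x - f y - s * (x - y)| ≤ L * |x - y|) :
    Lp f s L l r := by
  intro x hx y hy
  rcases le_total x y with hxy | hxy
  · exact h x hx y hy hxy
  · have := h y hy x hx hxy
    have e : f x - f y - s * (x - y) = -(f y - f x - s * (y - x)) := by ring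
    rw [e, abs_neg, abs_sub_comm x y]
    exact this

theorem Lp.glue {f : ℝ → ℝ} {s L l m r : ℝ} (h1 : Lp f s L l m) (h2 : Lp f s L m r) :
    Lp f s L l r := by
  apply Lp.of_ordered
  intro x hx y hy hxy
  rcases le_total y m with hy' | hy'
  · exact h1 x ⟨hx.1, hxy.trans hy'⟩ y ⟨hy.1, hy'⟩
  · rcases le_total m x with hx' | hx'
    · exact h2 x ⟨hx', hx.2⟩ y ⟨hy', hy.2⟩
    · have a1 := h1 x ⟨hx.1, hx'⟩ m ⟨hx.1.trans hx', le_refl m⟩
      have a2 := h2 m ⟨le_refl m, hy'.trans hy.2⟩ y ⟨hy', hy.2⟩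
      have e : f x - f y - s * (x - y) = (f x - f m - s * (x - m)) + (f m - f y - s * (m - y)) := by
        ring
      rw [e]
      calc _ ≤ |f x - f m - s * (x - m)| + |f m - f y - s * (m - y)| := abs_add_le _ _
        _ ≤ L * |x - m| + L * |m - y| := add_le_add a1 a2
        _ = L * |x - y| := by
          rw [abs_of_nonpos (by linarith : x - m ≤ 0), abs_of_nonpos (by linarith : m - y ≤ 0),
            abs_of_nonpos (by linarith : x - y ≤ 0)]
          ring

theorem Lp.of_deriv {f f' : ℝ → ℝ} {s L l r : ℝ} (hf : ∀ x ∈ Icc l r, HasDerivWithinAt f (f' x) (Icc l r) x)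
    (hb : ∀ x ∈ Icc l r, |f' x - s| ≤ L) : Lp f s L l r := by
  intro x hx y hy
  have h := Convex.norm_image_sub_le_of_norm_hasDerivWithin_le (f := fun t => f t - s * t)
    (f' := fun t => f' t - s) (C := L) (s := Icc l r) (x := y) (y := x)
    (fun t ht => by
      have h1 := (hf t ht).sub ((hasDerivWithinAt_id t (Icc l r)).const_mul s)
      rw [mul_one] at h1
      exact h1)
    (fun t ht => hb t ht) (convex_Icc l r) hy hx
  simp only [Real.norm_eq_abs] at h
  have e : f x - f y - s * (x - y) = f x - s * x - (f y - s * y) := by ring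
  rw [e]
  exact h

theorem Lp.congr {f g : ℝ → ℝ} {s L l r : ℝ} (h : Lp f s L l r) (hg : ∀ x ∈ Icc l r, g x = f x) :
    Lp g s L l r := fun x hx y hy => by
  rw [hg x hx, hg y hy]
  exact h x hx y hy

/-- translation by an integer -/
theorem Lp.shift {s L l r : ℝ} (h : Lp (Dn P) s L l r) (k : ℤ) : Lp (Dn P) s L (l + k) (r + k) := by
  intro x hx y hy
  have h1 := h (x - k) ⟨by linarith [hx.1], by linarith [hx.2]⟩ (y - k)
    ⟨by linarith [hy.1], by linarith [hy.2]⟩
  have e1 : Dn P (x - k) = Dn P x := by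
    have := Dn_add_int P (x - k) k
    rw [sub_add_cancel] at this
    exact this.symm
  have e2 : Dn P (y - k) = Dn P y := by
    have := Dn_add_int P (y - k) k
    rw [sub_add_cancel] at this
    exact this.symm
  rw [e1, e2] at h1
  have e3 : x - k - (y - k) = x - y := by ring
  rw [e3] at h1
  exact h1

/-- reflection -/
theorem Lp.refl_one {s L l r : ℝ} (h : Lp (Dn P) s L l r) : Lp (Dn P) s L (1 - r) (1 - l) := by
  intro x hx y hy
  have h1 := h (1 - x) ⟨by linarith [hx.2], by linarith [hx.1]⟩ (1 - y)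
    ⟨by linarith [hy.2], by linarith [hy.1]⟩
  have e : ∀ t, Dn P (1 - t) = -Dn P t := by
    intro t
    have : (1 : ℝ) - t = -t + 1 := by ring
    rw [this, Dn_add_one, Dn_neg]
  rw [e, e] at h1
  have e1 : -Dn P x - -Dn P y - s * (1 - x - (1 - y)) = -(Dn P x - Dn P y - s * (x - y)) := by ring
  have e2 : (1 : ℝ) - x - (1 - y) = -(x - y) := by ring
  rw [e1, e2, abs_neg, abs_neg] at h1
  exact h1

theorem u_deriv {z : ℝ} (hz : 3 * z ^ 2 < 1) :
    HasDerivAt u (3 * z / Real.sqrt (1 - 3 * z ^ 2)) z := by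
  have h0 : (0 : ℝ) < 1 - 3 * z ^ 2 := by linarith
  have h1 : HasDerivAt (fun z : ℝ => 1 - 3 * z ^ 2) (-(3 * (2 * z))) z := by
    have := ((hasDerivAt_pow 2 z).const_mul 3).const_sub 1
    simpa using this
  have h2 := h1.sqrt h0.ne'
  have h3 := h2.const_sub 1
  have e : -(-(3 * (2 * z)) / (2 * Real.sqrt (1 - 3 * z ^ 2))) = 3 * z / Real.sqrt (1 - 3 * z ^ 2) := by
    have : Real.sqrt (1 - 3 * z ^ 2) ≠ 0 := (Real.sqrt_pos.mpr h0).ne'
    field_simp
  rw [e] at h3
  exact h3

/-- the derivative of the density on `[0, a]` -/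
noncomputable def gd (z : ℝ) : ℝ := P.al + 2 * P.ga * z - P.be * (3 * z / Real.sqrt (1 - 3 * z ^ 2))

theorem del0_deriv {z : ℝ} (hz : 3 * z ^ 2 < 1) : HasDerivAt (del0 P) (gd P z) z := by
  have h1 := (hasDerivAt_id z).const_mul P.al
  have h2 := (hasDerivAt_pow 2 z).const_mul P.ga
  have h3 := (u_deriv hz).const_mul P.be
  have h4 := (h1.add h2).sub h3
  have e : P.al * 1 + P.ga * (((2 : ℕ) : ℝ) * z ^ (2 - 1)) -
      P.be * (3 * z / Real.sqrt (1 - 3 * z ^ 2)) = gd P z := by
    unfold gd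
    norm_num
    ring
  rw [e] at h4
  exact h4

theorem sq_lt_of_le {z : ℝ} (h0 : 0 ≤ z) (h1 : z ≤ P.a) : 3 * z ^ 2 < 1 := by
  have := P.ha4
  nlinarith

/-- on `[0, a]` -/
theorem Lp_zero_a {s L l r : ℝ} (hl : 0 ≤ l) (hr : r ≤ P.a) (hb : ∀ z ∈ Icc l r, |gd P z - s| ≤ L) :
    Lp (Dn P) s L l r := by
  have h : Lp (del0 P) s L l r := Lp.of_deriv (f' := gd P)
    (fun x hx => (del0_deriv P (sq_lt_of_le P (hl.trans hx.1) (hx.2.trans hr))).hasDerivWithinAt) hb
  refine h.congr fun x hx => ?_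
  have h1 : x ≤ P.a := hx.2.trans hr
  rw [Dn_of_mem P (hl.trans hx.1) (by linarith [P.ha4]), Dp_of_le P (by linarith [P.ha4]),
    del_of_le P h1]

/-- the slope in the middle part -/
noncomputable def gm : ℝ := -(2 * del0 P P.a / (1 - 2 * P.a))

theorem Lp_mid {s L l r : ℝ} (hl : P.a ≤ l) (hr : r ≤ 1 - P.a) (hb : |gm P - s| ≤ L) :
    Lp (Dn P) s L l r := by
  have h := one_sub_pos P
  have hL : 0 ≤ L := (abs_nonneg _).trans hb
  have key : ∀ x ∈ Icc l r, Dn P x = gm P * (x - 1 / 2) := by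
    intro x hx
    have hx0 : P.a ≤ x := hl.trans hx.1
    have hx1 : x ≤ 1 - P.a := hx.2.trans hr
    have := P.ha
    rw [Dn_of_mem P (by linarith) (by linarith)]
    rcases le_total x (1 / 2) with h2 | h2
    · rw [Dp_of_le P h2, del_of_ge P hx0]
      unfold gm
      field_simp
      ring
    · rw [Dp_of_ge P h2, del_of_ge P (by linarith)]
      unfold gm
      field_simp
      ring
  intro x hx y hy
  rw [key x hx, key y hy]
  have e : gm P * (x - 1 / 2) - gm P * (y - 1 / 2) - s * (x - y) = (gm P - s) * (x - y) := by ring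
  rw [e, abs_mul]
  exact mul_le_mul_of_nonneg_right hb (abs_nonneg _)

/-- on `[-a, 0]` -/
theorem Lp_neg {s L l r : ℝ} (h : Lp (Dn P) s L l r) : Lp (Dn P) s L (-r) (-l) := by
  have h1 := (h.refl_one P).shift P (-1)
  have e1 : 1 - r + ((-1 : ℤ) : ℝ) = -r := by push_cast; ring
  have e2 : 1 - l + ((-1 : ℤ) : ℝ) = -l := by push_cast; ring
  rw [e1, e2] at h1
  exact h1

/-! ### The primitive in terms of slopes -/

/-- second order expansion of the primitive -/
theorem Gn_taylor {s L c ρ x : ℝ} (h : Lp (Dn P) s L (c - ρ) (c + ρ)) (hx : |x - c| ≤ ρ) :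
    |Gn P x - (Gn P c + Dn P c * (x - c) + s * (x - c) ^ 2 / 2)| ≤ L * (x - c) ^ 2 / 2 := by
  have hρ : 0 ≤ ρ := (abs_nonneg _).trans hx
  have hL : 0 ≤ L ∨ ρ = 0 := by
    rcases hρ.eq_or_lt with h0 | h0
    · exact Or.inr h0.symm
    · left
      have := h (c + ρ) ⟨by linarith, le_refl _⟩ c ⟨by linarith, by linarith⟩
      have h2 : 0 ≤ L * |c + ρ - c| := (abs_nonneg _).trans this
      have h3 : |c + ρ - c| = ρ := by rw [add_sub_cancel_left, abs_of_pos h0]
      rw [h3] at h2
      nlinarith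
  rcases hL with hL | h0
  swap
  · have : x = c := by
      rw [h0] at hx
      have := abs_nonpos_iff.mp hx
      linarith
    rw [this]
    simp
  -- the auxiliary function
  set ψ : ℝ → ℝ := fun t => Gn P t - (Gn P c + Dn P c * (t - c) + s / 2 * (t - c) ^ 2) with hψ
  have hd : ∀ t, HasDerivAt ψ (Dn P t - Dn P c - s * (t - c)) t := by
    intro t
    have h1 := Gn_deriv P t
    have h2 : HasDerivAt (fun t : ℝ => Gn P c + Dn P c * (t - c) + s / 2 * (t - c) ^ 2)
        (Dn P c + s * (t - c)) t := by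
      have a1 := ((hasDerivAt_id t).sub_const c).const_mul (Dn P c)
      have a2 := (((hasDerivAt_id t).sub_const c).pow 2).const_mul (s / 2)
      have a3 := (a1.const_add (Gn P c)).add a2
      refine HasDerivAt.congr_deriv a3 ?_
      simp only [id]
      push_cast
      ring
    have h3 := h1.sub h2
    have e : Dn P t - (Dn P c + s * (t - c)) = Dn P t - Dn P c - s * (t - c) := by ring
    rw [e] at h3
    exact h3
  have hb : ∀ t, |t - c| ≤ ρ → |Dn P t - Dn P c - s * (t - c)| ≤ L * |t - c| := by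
    intro t ht
    rw [abs_le] at ht
    exact h t ⟨by linarith [ht.1], by linarith [ht.2]⟩ c ⟨by linarith, by linarith⟩
  have hc : ψ c = 0 := by simp [hψ]
  have hgoal : Gn P x - (Gn P c + Dn P c * (x - c) + s * (x - c) ^ 2 / 2) = ψ x := by
    simp only [hψ]
    ring
  rw [hgoal]
  rw [abs_le] at hx
  -- monotonicity of `L (t-c)^2/2 ∓ ψ`
  have mono : ∀ σ : ℝ, (σ = 1 ∨ σ = -1) → σ * ψ x ≤ L * (x - c) ^ 2 / 2 := by
    intro σ hσ
    have hσ1 : |σ| = 1 := by rcases hσ with h | h <;> rw [h] <;> simp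
    have hF : ∀ t, HasDerivAt (fun t => L / 2 * (t - c) ^ 2 - σ * ψ t)
        (L * (t - c) - σ * (Dn P t - Dn P c - s * (t - c))) t := by
      intro t
      have a1 := (((hasDerivAt_id t).sub_const c).pow 2).const_mul (L / 2)
      have a2 := (hd t).const_mul σ
      have a3 := a1.sub a2
      refine HasDerivAt.congr_deriv a3 ?_
      simp only [id]
      push_cast
      ring
    have hcont : Continuous (fun t => L / 2 * (t - c) ^ 2 - σ * ψ t) :=
      continuous_iff_continuousAt.mpr fun t => (hF t).continuousAt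
    have hval : L / 2 * (c - c) ^ 2 - σ * ψ c = 0 := by rw [hc]; simp
    have hbd : ∀ t, |t - c| ≤ ρ → |σ * (Dn P t - Dn P c - s * (t - c))| ≤ L * |t - c| := by
      intro t ht
      rw [abs_mul, hσ1, one_mul]
      exact hb t ht
    rcases le_total c x with hcx | hcx
    · have hm : MonotoneOn (fun t => L / 2 * (t - c) ^ 2 - σ * ψ t) (Icc c x) := by
        apply monotoneOn_of_deriv_nonneg (convex_Icc c x) hcont.continuousOn
        · intro t _; exact (hF t).differentiableAt.differentiableWithinAt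
        · intro t ht
          rw [interior_Icc] at ht
          rw [(hF t).deriv]
          have h1 : |t - c| ≤ ρ := by rw [abs_of_nonneg (by linarith [ht.1])]; linarith [ht.2]
          have h2 := hbd t h1
          rw [abs_of_nonneg (by linarith [ht.1] : 0 ≤ t - c), abs_le] at h2
          linarith [h2.2]
      have := hm ⟨le_refl c, hcx⟩ ⟨hcx, le_refl x⟩ hcx
      simp only at this
      rw [hval] at this
      linarith
    · have hm : AntitoneOn (fun t => L / 2 * (t - c) ^ 2 - σ * ψ t) (Icc x c) := by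
        apply antitoneOn_of_deriv_nonpos (convex_Icc x c) hcont.continuousOn
        · intro t _; exact (hF t).differentiableAt.differentiableWithinAt
        · intro t ht
          rw [interior_Icc] at ht
          rw [(hF t).deriv]
          have h1 : |t - c| ≤ ρ := by rw [abs_of_nonpos (by linarith [ht.2])]; linarith [ht.1]
          have h2 := hbd t h1
          rw [abs_of_nonpos (by linarith [ht.2] : t - c ≤ 0), abs_le] at h2
          linarith [h2.1]
      have := hm ⟨le_refl x, hcx⟩ ⟨hcx, le_refl c⟩ hcx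
      simp only at this
      rw [hval] at this
      linarith
  rw [abs_le]
  constructor
  · have := mono (-1) (Or.inr rfl)
    linarith
  · have := mono 1 (Or.inl rfl)
    linarith

/-- the mean of the density over `[y, y+t]` -/
noncomputable def Mn (y t : ℝ) : ℝ := if t = 0 then Dn P y else (Gn P (y + t) - Gn P y) / t

theorem Mn_mul (y t : ℝ) : t * Mn P y t = Gn P (y + t) - Gn P y := by
  unfold Mn
  by_cases h : t = 0
  · rw [if_pos h, h]; simp
  · rw [if_neg h]; field_simp

theorem Mn_mid {s L m ρ y t : ℝ} (h : Lp (Dn P) s L (m - ρ) (m + ρ)) (hm : m = y + t / 2)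
    (ht : |t| / 2 ≤ ρ) : |Mn P y t - Dn P m| ≤ L * |t| / 4 := by
  unfold Mn
  by_cases h0 : t = 0
  · rw [if_pos h0, hm, h0]; simp
  · rw [if_neg h0]
    have h1 := Gn_taylor P (x := y + t) h (by
      have : y + t - m = t / 2 := by rw [hm]; ring
      rw [this, abs_div]; simpa using ht)
    have h2 := Gn_taylor P (x := y) h (by
      have : y - m = -(t / 2) := by rw [hm]; ring
      rw [this, abs_neg, abs_div]; simpa using ht)
    have e1 : y + t - m = t / 2 := by rw [hm]; ring
    have e2 : y - m = -(t / 2) := by rw [hm]; ring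
    rw [e1] at h1
    rw [e2] at h2
    have htp : 0 < |t| := abs_pos.mpr h0
    have e3 : (Gn P (y + t) - Gn P y) / t - Dn P m = (Gn P (y + t) - Gn P y - Dn P m * t) / t := by
      field_simp
    rw [e3, abs_div, div_le_iff₀ htp]
    have e4 : Gn P (y + t) - Gn P y - Dn P m * t =
        (Gn P (y + t) - (Gn P m + Dn P m * (t / 2) + s * (t / 2) ^ 2 / 2)) -
        (Gn P y - (Gn P m + Dn P m * (-(t / 2)) + s * (-(t / 2)) ^ 2 / 2)) := by ring
    rw [e4]
    calc _ ≤ |Gn P (y + t) - (Gn P m + Dn P m * (t / 2) + s * (t / 2) ^ 2 / 2)| +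
        |Gn P y - (Gn P m + Dn P m * (-(t / 2)) + s * (-(t / 2)) ^ 2 / 2)| := abs_sub _ _
      _ ≤ L * (t / 2) ^ 2 / 2 + L * (-(t / 2)) ^ 2 / 2 := add_le_add h1 h2
      _ = L * |t| / 4 * |t| := by
        have h5 : |t| * |t| = t ^ 2 := by rw [← sq, sq_abs]
        have h6 : L * |t| / 4 * |t| = L * (|t| * |t|) / 4 := by ring
        rw [h6, h5]
        ring

end Pool.Agent.Strip051.Box.Dens
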