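import Pool.Agent.Strip051.Box.Base
import Pool.Agent.Strip051.Box.DensReal

/-! # Evaluation of the universal density and its primitive with raw natural arithmetic

Scale `S = 2 ^ 30`. -/

namespace Pool.Agent.Strip051.Box.Dens

open Set

/-- product of scaled numbers -/
def mS (a b : Nat) : Nat := Nat.div (Nat.mul a b) 1073741824

/-- `w = 3 z ^ 2` -/
def ww (r : Nat) : Nat := Nat.mul 3 (mS r r)

/-- `u = 1 - √(1 - w)` -/
def uu (w : Nat) : Nat :=
  mS w (Nat.add 536870912 (mS w (Nat.add 134217728 (mS w (Nat.add 67108864 (mS w (Nat.add 41943040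
    (mS w (Nat.add 29360128 (mS w (Nat.add 22020096 (mS w (Nat.add 17301504 (mS w
      (Nat.add 14057472 (mS w 11714560))))))))))))))))

/-- `(∫ u) / z` -/
def vv (w : Nat) : Nat :=
  mS w (Nat.add 178956970 (mS w (Nat.add 26843545 (mS w (Nat.add 9586980 (mS w (Nat.add 4660337
    (mS w (Nat.add 2669102 (mS w (Nat.add 1693853 (mS w (Nat.add 1153433 (mS w
      (Nat.add 826910 (mS w 616555))))))))))))))))

noncomputable def Sr : ℝ := 1073741824

theorem Sr_eq : ((1073741824 : ℕ) : ℝ) = Sr := by unfold Sr; norm_num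

theorem Sr_pos : 0 < Sr := by unfold Sr; norm_num

theorem mS_le (a b : ℕ) : ((mS a b : ℕ) : ℝ) ≤ (a : ℝ) * b / Sr := by
  have h := cdiv_le (Nat.mul a b) 1073741824
  rw [cmul, Sr_eq] at h
  exact h

theorem lt_mS (a b : ℕ) : (a : ℝ) * b / Sr < ((mS a b : ℕ) : ℝ) + 1 := by
  have h := lt_cdiv (a := Nat.mul a b) (b := 1073741824) (by norm_num)
  rw [cmul, Sr_eq] at h
  exact h

/-- error of a product -/
theorem mS_err {x y e f : ℝ} {X Y : ℕ} (hX : |Sr * x - X| ≤ e) (hY : |Sr * y - Y| ≤ f)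
    (hx : 0 ≤ x) : |Sr * (x * y) - (mS X Y : ℕ)| ≤ x * f + e * (Y / Sr) + 1 := by
  have hS := Sr_pos
  have h1 := mS_le X Y
  have h2 := lt_mS X Y
  have e1 : Sr * (x * y) - (mS X Y : ℕ) =
      x * (Sr * y - Y) + (Sr * x - X) * (Y / Sr) + ((X : ℝ) * Y / Sr - (mS X Y : ℕ)) := by
    field_simp
    ring
  have hY0 : (0 : ℝ) ≤ Y / Sr := by positivity
  rw [e1]
  have a1 : |x * (Sr * y - Y)| ≤ x * f := by
    rw [abs_mul, abs_of_nonneg hx]; exact mul_le_mul_of_nonneg_left hY hx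
  have a2 : |(Sr * x - X) * (Y / Sr)| ≤ e * (Y / Sr) := by
    rw [abs_mul, abs_of_nonneg hY0]; exact mul_le_mul_of_nonneg_right hX hY0
  have a3 : |(X : ℝ) * Y / Sr - (mS X Y : ℕ)| ≤ 1 := by
    rw [abs_le]; constructor <;> linarith
  calc _ ≤ |x * (Sr * y - Y) + (Sr * x - X) * (Y / Sr)| + |(X : ℝ) * Y / Sr - (mS X Y : ℕ)| :=
        abs_add_le _ _
    _ ≤ |x * (Sr * y - Y)| + |(Sr * x - X) * (Y / Sr)| + 1 := by
        gcongr; exact abs_add_le _ _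
    _ ≤ _ := by linarith

theorem ww_err (r : ℕ) : |Sr * (3 * ((r : ℝ) / Sr) ^ 2) - (ww r : ℕ)| ≤ 3 := by
  have hS := Sr_pos
  unfold ww
  rw [cmul]
  have h1 := mS_le r r
  have h2 := lt_mS r r
  have e : Sr * (3 * ((r : ℝ) / Sr) ^ 2) = 3 * ((r : ℝ) * r / Sr) := by field_simp
  rw [e, abs_le]
  push_cast
  constructor <;> linarith

/-- one Horner step; `C` is the scaled coefficient -/
theorem hstep {w c x : ℝ} {W C X : ℕ} (hw : 0 ≤ w) (hw1 : w ≤ 3 / 16) (hW : |Sr * w - W| ≤ 3)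
    (hc0 : 0 ≤ c) (hc1 : c ≤ 1 / 8) (hC : |Sr * c - C| ≤ 1)
    (hx : 0 ≤ x ∧ x ≤ 1 / 5 ∧ |Sr * x - X| ≤ 4) :
    0 ≤ c + w * x ∧ c + w * x ≤ 1 / 5 ∧ |Sr * (c + w * x) - (Nat.add C (mS W X) : ℕ)| ≤ 4 := by
  obtain ⟨x0, x1, x2⟩ := hx
  have hS : (1073741824 : ℝ) = Sr := rfl
  have hSp := Sr_pos
  have h1 := mS_err hW x2 hw
  refine ⟨by positivity, by nlinarith, ?_⟩
  rw [cadd]
  have hX : (X : ℝ) / Sr ≤ 1 / 4 := by
    rw [div_le_iff₀ hSp]
    rw [abs_le] at x2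
    nlinarith [x2.1]
  have hX0 : (0 : ℝ) ≤ (X : ℝ) / Sr := by positivity
  have e : Sr * (c + w * x) - ((C : ℝ) + (mS W X : ℕ)) =
      (Sr * c - C) + (Sr * (w * x) - (mS W X : ℕ)) := by ring
  rw [e]
  calc _ ≤ |Sr * c - C| + |Sr * (w * x) - (mS W X : ℕ)| := abs_add_le _ _
    _ ≤ 1 + (w * 4 + 3 * (X / Sr) + 1) := add_le_add hC h1
    _ ≤ 4 := by nlinarith

/-- last step: coefficient at most `1/2`, then one more factor `w` -/
theorem hlast {w c x : ℝ} {W C X : ℕ} (hw : 0 ≤ w) (hw1 : w ≤ 3 / 16) (hW : |Sr * w - W| ≤ 3)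
    (_hc0 : 0 ≤ c) (hc1 : c ≤ 1 / 2) (hC : |Sr * c - C| ≤ 1)
    (hx : 0 ≤ x ∧ x ≤ 1 / 5 ∧ |Sr * x - X| ≤ 4) :
    |Sr * (w * (c + w * x)) - (mS W (Nat.add C (mS W X)) : ℕ)| ≤ 4 := by
  obtain ⟨x0, x1, x2⟩ := hx
  have hS : (1073741824 : ℝ) = Sr := rfl
  have hSp := Sr_pos
  have h1 := mS_err hW x2 hw
  have hX : (X : ℝ) / Sr ≤ 1 / 4 := by
    rw [div_le_iff₀ hSp]
    rw [abs_le] at x2
    nlinarith [x2.1]
  have hX0 : (0 : ℝ) ≤ (X : ℝ) / Sr := by positivity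
  have h2 : |Sr * (c + w * x) - (Nat.add C (mS W X) : ℕ)| ≤ 4 := by
    rw [cadd]
    have e : Sr * (c + w * x) - ((C : ℝ) + (mS W X : ℕ)) =
        (Sr * c - C) + (Sr * (w * x) - (mS W X : ℕ)) := by ring
    rw [e]
    calc _ ≤ |Sr * c - C| + |Sr * (w * x) - (mS W X : ℕ)| := abs_add_le _ _
      _ ≤ 1 + (w * 4 + 3 * (X / Sr) + 1) := add_le_add hC h1
      _ ≤ 4 := by nlinarith
  have h3 := mS_err hW h2 hw
  set N : ℕ := Nat.add C (mS W X) with hN
  have hN1 : (N : ℝ) / Sr ≤ 3 / 5 := by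
    rw [div_le_iff₀ hSp]
    rw [abs_le] at h2
    have : c + w * x ≤ 1 / 2 + 3 / 16 * (1 / 5) := by nlinarith
    nlinarith [h2.1]
  calc _ ≤ w * 4 + 3 * (N / Sr) + 1 := h3
    _ ≤ 4 := by nlinarith

/-- Taylor polynomial of `1 - √(1-w)` -/
noncomputable def Pu (w : ℝ) : ℝ :=
  w * (1 / 2 + w * (1 / 8 + w * (1 / 16 + w * (5 / 128 + w * (7 / 256 + w * (21 / 1024 +
    w * (33 / 2048 + w * (429 / 32768 + w * (715 / 65536)))))))))

noncomputable def Pv (w : ℝ) : ℝ :=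
  w * (1 / 6 + w * (1 / 40 + w * (1 / 112 + w * (5 / 1152 + w * (7 / 2816 + w * (21 / 13312 +
    w * (11 / 10240 + w * (429 / 557056 + w * (715 / 1245184)))))))))

theorem c_err {c : ℝ} {C : ℕ} (h1 : (C : ℝ) ≤ Sr * c) (h2 : Sr * c ≤ C + 1) : |Sr * c - C| ≤ 1 := by
  rw [abs_le]; constructor <;> linarith

theorem uu_err {w : ℝ} {W : ℕ} (hw : 0 ≤ w) (hw1 : w ≤ 3 / 16) (hW : |Sr * w - W| ≤ 3) :
    |Sr * Pu w - (uu W : ℕ)| ≤ 4 := by
  have s9 : (0 : ℝ) ≤ 715 / 65536 ∧ (715 : ℝ) / 65536 ≤ 1 / 5 ∧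
      |Sr * (715 / 65536) - ((11714560 : ℕ) : ℝ)| ≤ 4 := by
    unfold Sr; refine ⟨by norm_num, by norm_num, by rw [abs_le]; constructor <;> norm_num⟩
  have s8 := hstep hw hw1 hW (c := 429 / 32768) (C := 14057472) (by norm_num) (by norm_num)
    (c_err (by unfold Sr; norm_num) (by unfold Sr; norm_num)) s9
  have s7 := hstep hw hw1 hW (c := 33 / 2048) (C := 17301504) (by norm_num) (by norm_num)
    (c_err (by unfold Sr; norm_num) (by unfold Sr; norm_num)) s8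
  have s6 := hstep hw hw1 hW (c := 21 / 1024) (C := 22020096) (by norm_num) (by norm_num)
    (c_err (by unfold Sr; norm_num) (by unfold Sr; norm_num)) s7
  have s5 := hstep hw hw1 hW (c := 7 / 256) (C := 29360128) (by norm_num) (by norm_num)
    (c_err (by unfold Sr; norm_num) (by unfold Sr; norm_num)) s6
  have s4 := hstep hw hw1 hW (c := 5 / 128) (C := 41943040) (by norm_num) (by norm_num)
    (c_err (by unfold Sr; norm_num) (by unfold Sr; norm_num)) s5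
  have s3 := hstep hw hw1 hW (c := 1 / 16) (C := 67108864) (by norm_num) (by norm_num)
    (c_err (by unfold Sr; norm_num) (by unfold Sr; norm_num)) s4
  have s2 := hstep hw hw1 hW (c := 1 / 8) (C := 134217728) (by norm_num) (by norm_num)
    (c_err (by unfold Sr; norm_num) (by unfold Sr; norm_num)) s3
  exact hlast hw hw1 hW (c := 1 / 2) (C := 536870912) (by norm_num) (by norm_num)
    (c_err (by unfold Sr; norm_num) (by unfold Sr; norm_num)) s2

theorem vv_err {w : ℝ} {W : ℕ} (hw : 0 ≤ w) (hw1 : w ≤ 3 / 16) (hW : |Sr * w - W| ≤ 3) :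
    |Sr * Pv w - (vv W : ℕ)| ≤ 4 := by
  have s9 : (0 : ℝ) ≤ 715 / 1245184 ∧ (715 : ℝ) / 1245184 ≤ 1 / 5 ∧
      |Sr * (715 / 1245184) - ((616555 : ℕ) : ℝ)| ≤ 4 := by
    unfold Sr; refine ⟨by norm_num, by norm_num, by rw [abs_le]; constructor <;> norm_num⟩
  have s8 := hstep hw hw1 hW (c := 429 / 557056) (C := 826910) (by norm_num) (by norm_num)
    (c_err (by unfold Sr; norm_num) (by unfold Sr; norm_num)) s9
  have s7 := hstep hw hw1 hW (c := 11 / 10240) (C := 1153433) (by norm_num) (by norm_num)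
    (c_err (by unfold Sr; norm_num) (by unfold Sr; norm_num)) s8
  have s6 := hstep hw hw1 hW (c := 21 / 13312) (C := 1693853) (by norm_num) (by norm_num)
    (c_err (by unfold Sr; norm_num) (by unfold Sr; norm_num)) s7
  have s5 := hstep hw hw1 hW (c := 7 / 2816) (C := 2669102) (by norm_num) (by norm_num)
    (c_err (by unfold Sr; norm_num) (by unfold Sr; norm_num)) s6
  have s4 := hstep hw hw1 hW (c := 5 / 1152) (C := 4660337) (by norm_num) (by norm_num)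
    (c_err (by unfold Sr; norm_num) (by unfold Sr; norm_num)) s5
  have s3 := hstep hw hw1 hW (c := 1 / 112) (C := 9586980) (by norm_num) (by norm_num)
    (c_err (by unfold Sr; norm_num) (by unfold Sr; norm_num)) s4
  have s2 := hstep hw hw1 hW (c := 1 / 40) (C := 26843545) (by norm_num) (by norm_num)
    (c_err (by unfold Sr; norm_num) (by unfold Sr; norm_num)) s3
  exact hlast hw hw1 hW (c := 1 / 6) (C := 178956970) (by norm_num) (by norm_num)
    (c_err (by unfold Sr; norm_num) (by unfold Sr; norm_num)) s2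

theorem Pu_sq (w : ℝ) : (1 - Pu w) ^ 2 = 1 - w + w ^ 10 * (2431 / 131072 + w * (221 / 32768 +
    w * (7735 / 2097152 + w * (4675 / 2097152 + w * (23375 / 16777216 + w * (7293 / 8388608 +
    w * (561561 / 1073741824 + w * (306735 / 1073741824 + w * (511225 / 4294967296))))))))) := by
  unfold Pu
  ring

theorem Pu_nn {w : ℝ} (hw : 0 ≤ w) : 0 ≤ Pu w := by unfold Pu; positivity

theorem Pu_le {w : ℝ} (hw : 0 ≤ w) (hw1 : w ≤ 3 / 16) : Pu w ≤ 1 / 9 := by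
  unfold Pu
  have : w * (1 / 2 + w * (1 / 8 + w * (1 / 16 + w * (5 / 128 + w * (7 / 256 + w * (21 / 1024 +
    w * (33 / 2048 + w * (429 / 32768 + w * (715 / 65536))))))))) ≤
    (3 / 16) * (1 / 2 + (3 / 16) * (1 / 8 + (3 / 16) * (1 / 16 + (3 / 16) * (5 / 128 + (3 / 16) *
    (7 / 256 + (3 / 16) * (21 / 1024 + (3 / 16) * (33 / 2048 + (3 / 16) * (429 / 32768 + (3 / 16) *
    (715 / 65536))))))))) := by gcongr
  linarith

/-- the Taylor polynomial approximates `1 - √(1-w)` within `1/S` -/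
theorem u_approx {w : ℝ} (hw : 0 ≤ w) (hw1 : w ≤ 3 / 16) :
    |(1 - Real.sqrt (1 - w)) - Pu w| ≤ 1 / Sr := by
  have h1 := Pu_sq w
  have h2 := Pu_nn hw
  have h3 := Pu_le hw hw1
  set R := (2431 / 131072 + w * (221 / 32768 +
    w * (7735 / 2097152 + w * (4675 / 2097152 + w * (23375 / 16777216 + w * (7293 / 8388608 +
    w * (561561 / 1073741824 + w * (306735 / 1073741824 + w * (511225 / 4294967296))))))))) with hR
  have hR0 : 0 ≤ w ^ 10 * R := by positivity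
  have hR1 : w ^ 10 * R ≤ 11 / 10000000000 := by
    have a1 : R ≤ 1 / 50 := by
      have : R ≤ (2431 / 131072 + (3 / 16) * (221 / 32768 +
        (3 / 16) * (7735 / 2097152 + (3 / 16) * (4675 / 2097152 + (3 / 16) * (23375 / 16777216 +
        (3 / 16) * (7293 / 8388608 + (3 / 16) * (561561 / 1073741824 + (3 / 16) *
        (306735 / 1073741824 + (3 / 16) * (511225 / 4294967296))))))))) := by rw [hR]; gcongr
      linarith
    have a2 : w ^ 10 ≤ (3 / 16) ^ 10 := pow_le_pow_left₀ hw hw1 10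
    have a3 : 0 ≤ w ^ 10 := by positivity
    calc w ^ 10 * R ≤ (3 / 16) ^ 10 * (1 / 50) := by
          apply mul_le_mul a2 a1 _ (by positivity)
          rw [hR]; positivity
      _ ≤ _ := by norm_num
  set q := Real.sqrt (1 - w) with hq
  have hq0 : 0 ≤ q := Real.sqrt_nonneg _
  have hq2 : q ^ 2 = 1 - w := Real.sq_sqrt (by linarith)
  have hq3 : 9 / 10 ≤ q := by
    rw [hq]
    apply Real.le_sqrt_of_sq_le
    norm_num
    linarith
  have h4 : (1 - Pu w - q) * (1 - Pu w + q) = w ^ 10 * R := by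
    have : (1 - Pu w - q) * (1 - Pu w + q) = (1 - Pu w) ^ 2 - q ^ 2 := by ring
    rw [this, h1, hq2]; ring
  have h5 : 17 / 10 ≤ 1 - Pu w + q := by linarith
  have h6 : 0 ≤ 1 - Pu w - q := by
    by_contra hcon
    push Not at hcon
    nlinarith
  have h7 : 1 - Pu w - q ≤ 1 / Sr := by
    unfold Sr
    by_contra hcon
    push Not at hcon
    nlinarith
  have e : 1 - q - Pu w = 1 - Pu w - q := by ring
  rw [e, abs_of_nonneg h6]
  exact h7

theorem u_scaled {r : ℕ} (hr : (r : ℝ) / Sr ≤ 1 / 4) :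
    |Sr * u ((r : ℝ) / Sr) - (uu (ww r) : ℕ)| ≤ 5 := by
  have hS := Sr_pos
  have h0 : (0 : ℝ) ≤ (r : ℝ) / Sr := by positivity
  have hw : (0 : ℝ) ≤ 3 * ((r : ℝ) / Sr) ^ 2 := by positivity
  have hw1 : 3 * ((r : ℝ) / Sr) ^ 2 ≤ 3 / 16 := by nlinarith
  have h1 := uu_err hw hw1 (ww_err r)
  have h2 := u_approx hw hw1
  have e : Sr * u ((r : ℝ) / Sr) - (uu (ww r) : ℕ) =
      Sr * (1 - Real.sqrt (1 - 3 * ((r : ℝ) / Sr) ^ 2) - Pu (3 * ((r : ℝ) / Sr) ^ 2)) +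
      (Sr * Pu (3 * ((r : ℝ) / Sr) ^ 2) - (uu (ww r) : ℕ)) := by
    unfold u; ring
  rw [e]
  calc _ ≤ _ := abs_add_le _ _
    _ ≤ Sr * (1 / Sr) + 4 := by
      rw [abs_mul, abs_of_pos hS]
      gcongr
    _ = 5 := by field_simp; norm_num

/-! ### The density -/

/-- natural parameters; `A` is the scaled `a` -/
structure NP where
  (al be ga A L2 sgp sgn Lg : Nat)

/-- the density described by natural parameters, with the facts needed -/
structure NOK (N : NP) (P : Par) : Prop where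
  al : P.al = N.al
  be : P.be = N.be
  ga : P.ga = N.ga
  a : P.a = (N.A : ℝ) / Sr
  lip : ∀ z ∈ Icc 0 P.a, ∀ z' ∈ Icc 0 P.a, |gd P z - gd P z'| ≤ N.L2 * |z - z'|
  glob : ∀ z ∈ Icc 0 P.a, |gd P z - ((N.sgp : ℝ) - N.sgn) / Sr| ≤ N.Lg / Sr
  globm : |gm P - ((N.sgp : ℝ) - N.sgn) / Sr| ≤ N.Lg / Sr

def d0p (N : NP) (r : Nat) : Nat := Nat.add (Nat.mul N.al r) (Nat.mul N.ga (mS r r))
def d0n (N : NP) (r : Nat) : Nat := Nat.mul N.be (uu (ww r))
def sm (r : Nat) : Nat := nd 1073741824 (Nat.mul 2 r)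
def d1p (N : NP) (r : Nat) : Nat := Nat.div (Nat.mul (d0p N N.A) (sm r)) (sm N.A)
def d1n (N : NP) (r : Nat) : Nat := Nat.div (Nat.mul (d0n N N.A) (sm r)) (sm N.A)
/-- density at `r / S` -/
def dvp (N : NP) (r : Nat) : Nat := cond (Nat.ble r N.A) (d0p N r) (d1p N r)
def dvn (N : NP) (r : Nat) : Nat := cond (Nat.ble r N.A) (d0n N r) (d1n N r)
def g0p (N : NP) (r : Nat) : Nat :=
  Nat.add (Nat.div (Nat.mul N.al (mS r r)) 2) (Nat.div (Nat.mul N.ga (mS (mS r r) r)) 3)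
def g0n (N : NP) (r : Nat) : Nat := Nat.mul N.be (mS (vv (ww r)) r)
def qq (N : NP) (r : Nat) : Nat :=
  Nat.div (Nat.mul (nd r N.A) (nd (sm N.A) (nd r N.A))) (sm N.A)
/-- primitive at `r / S` -/
def gvp (N : NP) (r : Nat) : Nat :=
  cond (Nat.ble r N.A) (g0p N r) (Nat.add (g0p N N.A) (mS (d0p N N.A) (qq N r)))
def gvn (N : NP) (r : Nat) : Nat :=
  cond (Nat.ble r N.A) (g0n N r) (Nat.add (g0n N N.A) (mS (d0n N N.A) (qq N r)))
/-- slope of the density at `r / S` in the inner part -/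
def gdp (N : NP) (r : Nat) : Nat := Nat.add (Nat.mul N.al 1073741824) (Nat.mul (Nat.mul 2 N.ga) r)
def gdn (N : NP) (r : Nat) : Nat :=
  Nat.mul N.be (Nat.div (Nat.mul (Nat.mul 3 1073741824) r) (nd 1073741824 (uu (ww r))))
def gmp (N : NP) : Nat := Nat.div (Nat.mul (Nat.mul 2 1073741824) (d0n N N.A)) (sm N.A)
def gmn (N : NP) : Nat := Nat.div (Nat.mul (Nat.mul 2 1073741824) (d0p N N.A)) (sm N.A)

variable {N : NP} {P : Par} (h : NOK N P)

theorem A_quarter (h : NOK N P) : (N.A : ℝ) / Sr ≤ 1 / 4 := by rw [← h.a]; exact P.ha4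

theorem A_le (h : NOK N P) : (N.A : ℝ) ≤ Sr / 4 := by
  have := A_quarter h
  rw [div_le_iff₀ Sr_pos] at this
  linarith

theorem A_pos (h : NOK N P) : (0 : ℝ) < N.A := by
  have h1 : (0 : ℝ) < (N.A : ℝ) / Sr := by rw [← h.a]; exact P.ha
  have h2 : (N.A : ℝ) = (N.A : ℝ) / Sr * Sr := by have := Sr_pos; field_simp
  rw [h2]; have := Sr_pos; positivity

theorem sm_cast {r : ℕ} (hr : (r : ℝ) ≤ Sr / 2) : ((sm r : ℕ) : ℝ) = Sr - 2 * r := by
  have h1 : 2 * r ≤ 1073741824 := by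
    have : (2 : ℝ) * r ≤ ((1073741824 : ℕ) : ℝ) := by rw [Sr_eq]; linarith
    exact_mod_cast this
  have h2 : ((1073741824 - 2 * r : ℕ) : ℝ) = ((1073741824 : ℕ) : ℝ) - ((2 * r : ℕ) : ℝ) := Nat.cast_sub h1
  rw [Sr_eq] at h2
  push_cast at h2
  exact h2

/-- error of the inner density -/
noncomputable def E0 (N : NP) : ℝ := N.ga + 5 * N.be

theorem E0_nn (N : NP) : 0 ≤ E0 N := by unfold E0; positivity

theorem d0_err (h : NOK N P) {r : ℕ} (hr : (r : ℝ) / Sr ≤ 1 / 4) :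
    |Sr * del0 P ((r : ℝ) / Sr) - ((d0p N r : ℕ) - (d0n N r : ℕ))| ≤ E0 N := by
  have hS := Sr_pos
  unfold del0 d0p d0n E0
  rw [h.al, h.be, h.ga, cadd, cmul, cmul, cmul]
  have h1 := u_scaled hr
  have h2 := mS_le r r
  have h3 := lt_mS r r
  have e : Sr * ((N.al : ℝ) * ((r : ℝ) / Sr) + N.ga * ((r : ℝ) / Sr) ^ 2 - N.be * u ((r : ℝ) / Sr)) -
      ((N.al : ℝ) * r + N.ga * (mS r r : ℕ) - N.be * (uu (ww r) : ℕ)) =
      N.ga * ((r : ℝ) * r / Sr - (mS r r : ℕ)) - N.be * (Sr * u ((r : ℝ) / Sr) - (uu (ww r) : ℕ)) := by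
    field_simp
    ring
  rw [e]
  have hg : (0 : ℝ) ≤ N.ga := Nat.cast_nonneg _
  have hb : (0 : ℝ) ≤ N.be := Nat.cast_nonneg _
  have a1 : |(N.ga : ℝ) * ((r : ℝ) * r / Sr - (mS r r : ℕ))| ≤ N.ga * 1 := by
    rw [abs_mul, abs_of_nonneg hg]
    gcongr
    rw [abs_le]; constructor <;> linarith
  have a2 : |(N.be : ℝ) * (Sr * u ((r : ℝ) / Sr) - (uu (ww r) : ℕ))| ≤ N.be * 5 := by
    rw [abs_mul, abs_of_nonneg hb]
    gcongr
  calc _ ≤ |(N.ga : ℝ) * ((r : ℝ) * r / Sr - (mS r r : ℕ))| +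
        |(N.be : ℝ) * (Sr * u ((r : ℝ) / Sr) - (uu (ww r) : ℕ))| := abs_sub _ _
    _ ≤ N.ga * 1 + N.be * 5 := add_le_add a1 a2
    _ = _ := by ring

/-- division of a signed number by a common denominator after multiplication -/
theorem frac_err {x m d e : ℝ} {p n : ℕ} {M D : ℕ} (hD : 0 < D) (hm : (M : ℝ) = m) (hd : (D : ℝ) = d)
    (hm0 : 0 ≤ m) (hmd : m ≤ d) (hx : |x - ((p : ℝ) - n)| ≤ e) :
    |x * (m / d) - ((Nat.div (Nat.mul p M) D : ℕ) - (Nat.div (Nat.mul n M) D : ℕ))| ≤ e + 1 := by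
  have hd0 : 0 < d := by rw [← hd]; exact_mod_cast hD
  have h1 := rd2 (Nat.mul p M) (Nat.mul n M) hD
  rw [cmul, cmul, hm, hd] at h1
  have e1 : x * (m / d) - ((Nat.div (Nat.mul p M) D : ℕ) - (Nat.div (Nat.mul n M) D : ℕ)) =
      (x - ((p : ℝ) - n)) * (m / d) -
      (((Nat.div (Nat.mul p M) D : ℕ) : ℝ) - (Nat.div (Nat.mul n M) D : ℕ) - (p * m - n * m) / d) := by
    field_simp
    ring
  have hmd1 : m / d ≤ 1 := by rw [div_le_one hd0]; exact hmd
  have hmd0 : 0 ≤ m / d := by positivity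
  have he : 0 ≤ e := (abs_nonneg _).trans hx
  rw [e1]
  calc _ ≤ |(x - ((p : ℝ) - n)) * (m / d)| + _ := abs_sub _ _
    _ ≤ e * 1 + 1 := by
      refine add_le_add ?_ h1
      rw [abs_mul, abs_of_nonneg hmd0]
      exact mul_le_mul hx hmd1 hmd0 he
    _ = _ := by ring

theorem sm_A_pos (h : NOK N P) : 0 < sm N.A := by
  have h1 := sm_cast (r := N.A) (by have := A_le h; have := Sr_pos; linarith)
  have h2 : (0 : ℝ) < (sm N.A : ℕ) := by rw [h1]; have := A_le h; have := Sr_pos; linarith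
  exact_mod_cast h2

theorem ble_false {a b : ℕ} (h : Nat.ble a b = false) : (b : ℝ) < a := by
  have : ¬ a ≤ b := by
    intro hle
    rw [Nat.ble_eq_true_of_le hle] at h
    exact absurd h (by decide)
  exact_mod_cast not_le.mp this

theorem ble_true {a b : ℕ} (h : Nat.ble a b = true) : (a : ℝ) ≤ b := by
  exact_mod_cast Nat.le_of_ble_eq_true h

theorem dv_err (h : NOK N P) {r : ℕ} (hr : (r : ℝ) ≤ Sr / 2) :
    |Sr * del P ((r : ℝ) / Sr) - ((dvp N r : ℕ) - (dvn N r : ℕ))| ≤ E0 N + 1 := by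
  have hS := Sr_pos
  unfold dvp dvn
  rcases hb : Nat.ble r N.A with _ | _
  · have h1 := ble_false hb
    rw [cond_false, cond_false]
    have hA : P.a ≤ (r : ℝ) / Sr := by rw [h.a]; gcongr
    rw [del_of_ge P hA, ← mul_assoc]
    have hs := sm_cast hr
    have hsA := sm_cast (r := N.A) (by have := A_le h; linarith)
    have h2 := d0_err h (A_quarter h)
    rw [← h.a] at h2
    have h3 : |Sr * del0 P P.a * ((Sr - 2 * r) / (Sr - 2 * N.A)) -
        (((d1p N r : ℕ) : ℝ) - (d1n N r : ℕ))| ≤ E0 N + 1 := by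
      unfold d1p d1n
      exact frac_err (sm_A_pos h) hs hsA (by linarith) (by linarith [h1]) h2
    have e : (1 - 2 * ((r : ℝ) / Sr)) / (1 - 2 * P.a) = (Sr - 2 * r) / (Sr - 2 * N.A) := by
      rw [h.a]
      have e1 : (1 : ℝ) - 2 * ((r : ℝ) / Sr) = (Sr - 2 * r) / Sr := by field_simp
      have e2 : (1 : ℝ) - 2 * ((N.A : ℝ) / Sr) = (Sr - 2 * N.A) / Sr := by field_simp
      rw [e1, e2, div_div_div_cancel_right₀ hS.ne']
    rw [e]
    exact h3
  · have h1 := ble_true hb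
    rw [cond_true, cond_true]
    have hA : (r : ℝ) / Sr ≤ P.a := by rw [h.a]; gcongr
    rw [del_of_le P hA]
    exact (d0_err h (r := r) (hA.trans P.ha4)).trans (le_add_of_nonneg_right zero_le_one)

/-! ### The primitive -/

theorem Pv_deriv (z : ℝ) : HasDerivAt (fun z : ℝ => z * Pv (3 * z ^ 2)) (Pu (3 * z ^ 2)) z := by
  have e : (fun z : ℝ => z * Pv (3 * z ^ 2)) = fun z : ℝ => (1 / 2) * z ^ 3 + (9 / 40) * z ^ 5 +
      (27 / 112) * z ^ 7 + (45 / 128) * z ^ 9 + (1701 / 2816) * z ^ 11 + (15309 / 13312) * z ^ 13 +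
      (24057 / 10240) * z ^ 15 + (2814669 / 557056) * z ^ 17 + (14073345 / 1245184) * z ^ 19 := by
    funext z
    unfold Pv
    ring
  rw [e]
  have d : ∀ (c : ℝ) (n : ℕ), HasDerivAt (fun z : ℝ => c * z ^ n) (c * (n * z ^ (n - 1))) z :=
    fun c n => (hasDerivAt_pow n z).const_mul c
  have h1 := (((((((((d (1 / 2) 3).add (d (9 / 40) 5)).add (d (27 / 112) 7)).add
    (d (45 / 128) 9)).add (d (1701 / 2816) 11)).add (d (15309 / 13312) 13)).add
    (d (24057 / 10240) 15)).add (d (2814669 / 557056) 17)).add (d (14073345 / 1245184) 19))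
  refine HasDerivAt.congr_deriv h1 ?_
  unfold Pu
  push_cast
  ring

theorem Gn_inner {z : ℝ} (h0 : 0 ≤ z) (h1 : z ≤ P.a) :
    |Gn P z - (P.al * z ^ 2 / 2 + P.ga * z ^ 3 / 3 - P.be * (z * Pv (3 * z ^ 2)))| ≤
      |P.be| / Sr * z := by
  have hd : ∀ x ∈ Icc (0 : ℝ) P.a, HasDerivWithinAt
      (fun z => Gn P z - (P.al / 2 * z ^ 2 + P.ga / 3 * z ^ 3 - P.be * (z * Pv (3 * z ^ 2))))
      (-(P.be * (u x - Pu (3 * x ^ 2)))) (Icc 0 P.a) x := by
    intro x hx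
    have a0 := Gn_deriv P x
    have a1 := (hasDerivAt_pow 2 x).const_mul (P.al / 2)
    have a2 := (hasDerivAt_pow 3 x).const_mul (P.ga / 3)
    have a3 := (Pv_deriv x).const_mul P.be
    have a4 := a0.sub ((a1.add a2).sub a3)
    refine (HasDerivAt.congr_deriv a4 ?_).hasDerivWithinAt
    rw [Dn_of_mem P hx.1 (by linarith [hx.2, P.ha4]), Dp_of_le P (by linarith [hx.2, P.ha4]),
      del_of_le P hx.2]
    unfold del0
    push_cast
    ring
  have hb : ∀ x ∈ Icc (0 : ℝ) P.a, |-(P.be * (u x - Pu (3 * x ^ 2))) - 0| ≤ |P.be| / Sr := by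
    intro x hx
    have hx2 : 3 * x ^ 2 ≤ 3 / 16 := by
      have := P.ha4
      nlinarith [hx.1, hx.2]
    have := u_approx (w := 3 * x ^ 2) (by positivity) hx2
    rw [sub_zero, abs_neg, abs_mul, div_eq_mul_one_div]
    exact mul_le_mul_of_nonneg_left this (abs_nonneg _)
  have hL := Lp.of_deriv hd hb z ⟨h0, h1⟩ 0 ⟨le_refl 0, P.ha.le⟩
  simp only [Gn_zero, zero_mul, sub_zero] at hL
  have e : Gn P z - (P.al * z ^ 2 / 2 + P.ga * z ^ 3 / 3 - P.be * (z * Pv (3 * z ^ 2))) =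
      Gn P z - (P.al / 2 * z ^ 2 + P.ga / 3 * z ^ 3 - P.be * (z * Pv (3 * z ^ 2))) -
      (0 - (P.al / 2 * 0 ^ 2 + P.ga / 3 * 0 ^ 3 - P.be * 0)) := by ring
  rw [e]
  rw [abs_of_nonneg h0] at hL
  exact hL

theorem Gn_outer {z : ℝ} (h0 : P.a ≤ z) (h1 : z ≤ 1 / 2) :
    Gn P z = Gn P P.a + del0 P P.a * ((z - P.a) - (z - P.a) ^ 2 / (1 - 2 * P.a)) := by
  have hp := one_sub_pos P
  have hd : ∀ x ∈ Icc P.a (1 / 2 : ℝ), HasDerivWithinAt
      (fun z => Gn P z - del0 P P.a * ((z - P.a) - 1 / (1 - 2 * P.a) * (z - P.a) ^ 2))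
      ((fun _ => (0 : ℝ)) x) (Icc P.a (1 / 2)) x := by
    intro x hx
    have a0 := Gn_deriv P x
    have a1 := (hasDerivAt_id x).sub_const P.a
    have a2 := (a1.pow 2).const_mul (1 / (1 - 2 * P.a))
    have a3 := (a1.sub a2).const_mul (del0 P P.a)
    have a4 := a0.sub a3
    refine (HasDerivAt.congr_deriv a4 ?_).hasDerivWithinAt
    have hx0 : 0 ≤ x := P.ha.le.trans hx.1
    rw [Dn_of_mem P hx0 (by linarith [hx.2]), Dp_of_le P hx.2, del_of_ge P hx.1]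
    simp only [id]
    push_cast
    field_simp
    ring
  have hL := Lp.of_deriv (s := 0) (L := 0) hd (fun x _ => by simp) z ⟨h0, h1⟩ P.a
    ⟨le_refl _, h0.trans h1⟩
  simp only [zero_mul, sub_zero] at hL
  have h2 := abs_nonpos_iff.mp hL
  simp only [sub_self] at h2
  have e : (z - P.a) ^ 2 / (1 - 2 * P.a) = 1 / (1 - 2 * P.a) * (z - P.a) ^ 2 := by ring
  rw [e]
  nlinarith

noncomputable def EG0 (N : NP) : ℝ := N.al + N.ga + 3 * N.be + 2

theorem EG0_nn (N : NP) : 0 ≤ EG0 N := by unfold EG0; positivity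

theorem g0_err (h : NOK N P) {r : ℕ} (hr : (r : ℝ) / Sr ≤ P.a) :
    |Sr * Gn P ((r : ℝ) / Sr) - ((g0p N r : ℕ) - (g0n N r : ℕ))| ≤ EG0 N := by
  have hS := Sr_pos
  set z := (r : ℝ) / Sr with hz
  have hz0 : 0 ≤ z := by positivity
  have hz4 : z ≤ 1 / 4 := hr.trans P.ha4
  have hSz : Sr * z = r := by rw [hz]; field_simp
  have h1 := Gn_inner (P := P) hz0 hr
  have hw : (0 : ℝ) ≤ 3 * z ^ 2 := by positivity
  have hw1 : 3 * z ^ 2 ≤ 3 / 16 := by nlinarith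
  have hrz : |Sr * z - (r : ℕ)| ≤ 0 := by rw [hSz]; simp
  have q2 : |Sr * z ^ 2 - (mS r r : ℕ)| ≤ 1 := by
    have := mS_err hrz hrz hz0
    rw [← sq] at this
    linarith
  have q3 : |Sr * z ^ 3 - (mS (mS r r) r : ℕ)| ≤ 5 / 4 := by
    have := mS_err q2 hrz (by positivity)
    have e : z ^ 2 * z = z ^ 3 := by ring
    rw [e] at this
    change _ ≤ _ + 1 * z + 1 at this
    linarith
  have q4 : |Sr * (Pv (3 * z ^ 2) * z) - (mS (vv (ww r)) r : ℕ)| ≤ 2 := by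
    have hv : 0 ≤ Pv (3 * z ^ 2) := by unfold Pv; positivity
    have := mS_err (vv_err hw hw1 (ww_err r)) hrz hv
    change _ ≤ _ + 4 * z + 1 at this
    linarith
  unfold g0p g0n EG0
  rw [cadd, cmul]
  have b1 := cdiv_le (Nat.mul N.al (mS r r)) 2
  have b2 := lt_cdiv (a := Nat.mul N.al (mS r r)) (b := 2) (by norm_num)
  have b3 := cdiv_le (Nat.mul N.ga (mS (mS r r) r)) 3
  have b4 := lt_cdiv (a := Nat.mul N.ga (mS (mS r r) r)) (b := 3) (by norm_num)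
  rw [cmul] at b1 b2 b3 b4
  push_cast at b1 b2 b3 b4
  have hal : (0 : ℝ) ≤ N.al := Nat.cast_nonneg _
  have hg : (0 : ℝ) ≤ N.ga := Nat.cast_nonneg _
  have hbe : (0 : ℝ) ≤ N.be := Nat.cast_nonneg _
  rw [h.al, h.be, h.ga, abs_of_nonneg hbe] at h1
  rw [abs_le] at q2 q3 q4
  have c1 : (N.al : ℝ) * (Sr * z ^ 2 - (mS r r : ℕ)) ≤ N.al * 1 := mul_le_mul_of_nonneg_left q2.2 hal
  have c2 : (N.al : ℝ) * (-1) ≤ N.al * (Sr * z ^ 2 - (mS r r : ℕ)) := mul_le_mul_of_nonneg_left q2.1 hal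
  have c3 : (N.ga : ℝ) * (Sr * z ^ 3 - (mS (mS r r) r : ℕ)) ≤ N.ga * (5 / 4) :=
    mul_le_mul_of_nonneg_left q3.2 hg
  have c4 : (N.ga : ℝ) * (-(5 / 4)) ≤ N.ga * (Sr * z ^ 3 - (mS (mS r r) r : ℕ)) :=
    mul_le_mul_of_nonneg_left q3.1 hg
  have c5 : (N.be : ℝ) * (Sr * (Pv (3 * z ^ 2) * z) - (mS (vv (ww r)) r : ℕ)) ≤ N.be * 2 :=
    mul_le_mul_of_nonneg_left q4.2 hbe
  have c6 : (N.be : ℝ) * (-2) ≤ N.be * (Sr * (Pv (3 * z ^ 2) * z) - (mS (vv (ww r)) r : ℕ)) :=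
    mul_le_mul_of_nonneg_left q4.1 hbe
  have d1 : |Sr * (Gn P z - ((N.al : ℝ) * z ^ 2 / 2 + N.ga * z ^ 3 / 3 - N.be * (z * Pv (3 * z ^ 2))))| ≤
      (N.be : ℝ) * (1 / 4) := by
    rw [abs_mul, abs_of_pos hS]
    calc Sr * _ ≤ Sr * ((N.be : ℝ) / Sr * z) := mul_le_mul_of_nonneg_left h1 hS.le
      _ = N.be * z := by field_simp
      _ ≤ _ := mul_le_mul_of_nonneg_left hz4 hbe
  rw [abs_le] at d1 ⊢
  constructor <;> nlinarith [d1.1, d1.2]

theorem qq_err (h : NOK N P) {r : ℕ} (h1 : (N.A : ℝ) ≤ r) (h2 : (r : ℝ) ≤ Sr / 2) :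
    |Sr * (((r : ℝ) / Sr - P.a) - ((r : ℝ) / Sr - P.a) ^ 2 / (1 - 2 * P.a)) - (qq N r : ℕ)| ≤ 1 ∧
    0 ≤ ((r : ℝ) / Sr - P.a) - ((r : ℝ) / Sr - P.a) ^ 2 / (1 - 2 * P.a) ∧
    ((r : ℝ) / Sr - P.a) - ((r : ℝ) / Sr - P.a) ^ 2 / (1 - 2 * P.a) ≤ 1 / 4 := by
  have hS := Sr_pos
  have hA := A_le h
  have hAp := A_pos h
  have hsA := sm_cast (r := N.A) (by linarith)
  have ht : ((nd r N.A : ℕ) : ℝ) = r - N.A := by
    have : N.A ≤ r := by exact_mod_cast h1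
    exact Nat.cast_sub this
  have ht2 : ((nd (sm N.A) (nd r N.A) : ℕ) : ℝ) = (Sr - 2 * N.A) - (r - N.A) := by
    have hle : (nd r N.A : ℕ) ≤ sm N.A := by
      have : ((nd r N.A : ℕ) : ℝ) ≤ (sm N.A : ℕ) := by rw [ht, hsA]; linarith
      exact_mod_cast this
    have : ((Nat.sub (sm N.A) (nd r N.A) : ℕ) : ℝ) = ((sm N.A : ℕ) : ℝ) - (nd r N.A : ℕ) :=
      Nat.cast_sub hle
    rw [ht, hsA] at this
    exact this
  have b1 := cdiv_le (Nat.mul (nd r N.A) (nd (sm N.A) (nd r N.A))) (sm N.A)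
  have b2 := lt_cdiv (a := Nat.mul (nd r N.A) (nd (sm N.A) (nd r N.A))) (sm_A_pos h)
  rw [cmul, ht, ht2, hsA] at b1 b2
  have hp := one_sub_pos P
  have hdp : 0 < Sr - 2 * N.A := by linarith
  have e : Sr * (((r : ℝ) / Sr - P.a) - ((r : ℝ) / Sr - P.a) ^ 2 / (1 - 2 * P.a)) =
      ((r : ℝ) - N.A) * ((Sr - 2 * N.A) - (r - N.A)) / (Sr - 2 * N.A) := by
    rw [h.a]
    have : (1 : ℝ) - 2 * ((N.A : ℝ) / Sr) = (Sr - 2 * N.A) / Sr := by field_simp
    rw [this]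
    have hne : Sr - 2 * (N.A : ℝ) ≠ 0 := hdp.ne'
    generalize Sr - 2 * (N.A : ℝ) = D at hne
    field_simp
  refine ⟨?_, ?_, ?_⟩
  · rw [e]
    have e2 : ((qq N r : ℕ) : ℝ) =
        (Nat.div (Nat.mul (nd r N.A) (nd (sm N.A) (nd r N.A))) (sm N.A) : ℕ) := rfl
    rw [e2, abs_le]
    constructor <;> linarith
  · set t := (r : ℝ) / Sr - P.a with htd
    have t0 : 0 ≤ t := by rw [htd, h.a, sub_nonneg]; gcongr
    have t1 : t ≤ 1 / 2 - P.a := by
      rw [htd]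
      have : (r : ℝ) / Sr ≤ 1 / 2 := by rw [div_le_iff₀ hS]; linarith
      linarith
    have : t ^ 2 / (1 - 2 * P.a) ≤ t := by
      rw [div_le_iff₀ hp]; nlinarith
    linarith
  · set t := (r : ℝ) / Sr - P.a with htd
    have : t - 1 / 4 ≤ t ^ 2 / (1 - 2 * P.a) := by
      rw [le_div_iff₀ hp]
      nlinarith [sq_nonneg (2 * t - 1 + 2 * P.a), P.ha, P.ha4, sq_nonneg (2*t - 1)]
    linarith

noncomputable def EG (N : NP) : ℝ := 2 * N.al + 3 * N.ga + 9 * N.be + 6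

theorem gv_err (h : NOK N P) {r : ℕ} (hr : (r : ℝ) ≤ Sr / 2) :
    |Sr * Gn P ((r : ℝ) / Sr) - ((gvp N r : ℕ) - (gvn N r : ℕ))| ≤ EG N := by
  have hS := Sr_pos
  have hal : (0 : ℝ) ≤ N.al := Nat.cast_nonneg _
  have hg : (0 : ℝ) ≤ N.ga := Nat.cast_nonneg _
  have hbe : (0 : ℝ) ≤ N.be := Nat.cast_nonneg _
  unfold gvp gvn
  rcases hb : Nat.ble r N.A with _ | _
  · have h1 := ble_false hb
    rw [cond_false, cond_false]
    have hA : P.a ≤ (r : ℝ) / Sr := by rw [h.a]; gcongr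
    have hr2 : (r : ℝ) / Sr ≤ 1 / 2 := by rw [div_le_iff₀ hS]; linarith
    rw [Gn_outer hA hr2]
    obtain ⟨q1, q2, q3⟩ := qq_err h h1.le hr
    set q := ((r : ℝ) / Sr - P.a) - ((r : ℝ) / Sr - P.a) ^ 2 / (1 - 2 * P.a) with hq
    have hAA : (N.A : ℝ) / Sr = P.a := h.a.symm
    have g1 := g0_err h (r := N.A) (le_of_eq hAA)
    rw [hAA] at g1
    have d1 := d0_err h (A_quarter h)
    rw [hAA] at d1
    rw [cadd, cadd]
    -- the product
    have m1 := mS_le (d0p N N.A) (qq N r)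
    have m2 := lt_mS (d0p N N.A) (qq N r)
    have m3 := mS_le (d0n N N.A) (qq N r)
    have m4 := lt_mS (d0n N N.A) (qq N r)
    set dp : ℝ := ((d0p N N.A : ℕ) : ℝ) with hdp
    set dn : ℝ := ((d0n N N.A : ℕ) : ℝ) with hdn
    have hdpb : dp / Sr ≤ N.al + N.ga := by
      rw [div_le_iff₀ hS, hdp]
      unfold d0p
      rw [cadd, cmul, cmul]
      have c1 := mS_le N.A N.A
      have c2 := A_le h
      have c3 : (N.A : ℝ) * N.A / Sr ≤ Sr := by
        rw [div_le_iff₀ hS]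
        have := A_pos h
        nlinarith
      have c4 : (N.A : ℝ) ≤ Sr := by linarith
      nlinarith [mul_le_mul_of_nonneg_left c4 hal, mul_le_mul_of_nonneg_left (c1.trans c3) hg]
    have hdnb : dn / Sr ≤ N.be := by
      rw [div_le_iff₀ hS, hdn]
      unfold d0n
      rw [cmul]
      have c1 := u_scaled (A_quarter h)
      have c2 : u ((N.A : ℝ) / Sr) ≤ 1 / 2 := by
        unfold u
        have : (1 : ℝ) / 2 ≤ Real.sqrt (1 - 3 * ((N.A : ℝ) / Sr) ^ 2) := by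
          apply Real.le_sqrt_of_sq_le
          have := A_quarter h
          have : (0 : ℝ) ≤ (N.A : ℝ) / Sr := by positivity
          nlinarith
        linarith
      rw [abs_le] at c1
      have c3 : ((uu (ww N.A) : ℕ) : ℝ) ≤ Sr := by
        have : Sr * u ((N.A : ℝ) / Sr) ≤ Sr * (1 / 2) := mul_le_mul_of_nonneg_left c2 hS.le
        have : (1073741824 : ℝ) = Sr := rfl
        linarith [c1.1]
      exact mul_le_mul_of_nonneg_left c3 hbe
    have hdp0 : 0 ≤ dp / Sr := by positivity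
    have hdn0 : 0 ≤ dn / Sr := by positivity
    have key : |Sr * (del0 P P.a * q) - ((mS (d0p N N.A) (qq N r) : ℕ) - (mS (d0n N N.A) (qq N r) : ℕ))|
        ≤ E0 N + (N.al + N.ga + N.be) + 1 := by
      have e1 : Sr * (del0 P P.a * q) - ((mS (d0p N N.A) (qq N r) : ℕ) - (mS (d0n N N.A) (qq N r) : ℕ)) =
          (Sr * del0 P P.a - (dp - dn)) * q + (dp / Sr - dn / Sr) * (Sr * q - (qq N r : ℕ)) +
          ((dp * (qq N r : ℕ) / Sr - (mS (d0p N N.A) (qq N r) : ℕ)) -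
           (dn * (qq N r : ℕ) / Sr - (mS (d0n N N.A) (qq N r) : ℕ))) := by
        field_simp
        ring
      rw [e1]
      have a1 : |(Sr * del0 P P.a - (dp - dn)) * q| ≤ E0 N := by
        rw [abs_mul, abs_of_nonneg q2]
        calc _ ≤ E0 N * (1 / 4) := mul_le_mul d1 q3 q2 (E0_nn N)
          _ ≤ E0 N := by linarith [E0_nn N]
      have a2 : |(dp / Sr - dn / Sr) * (Sr * q - (qq N r : ℕ))| ≤ N.al + N.ga + N.be := by
        rw [abs_mul]
        calc _ ≤ ((N.al : ℝ) + N.ga + N.be) * 1 := by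
              apply mul_le_mul _ q1 (abs_nonneg _) (by positivity)
              rw [abs_le]; constructor <;> linarith
          _ = _ := by ring
      have a3 : |(dp * (qq N r : ℕ) / Sr - (mS (d0p N N.A) (qq N r) : ℕ)) -
           (dn * (qq N r : ℕ) / Sr - (mS (d0n N N.A) (qq N r) : ℕ))| ≤ 1 := by
        rw [abs_le]; constructor <;> linarith
      calc _ ≤ _ := abs_add_le _ _
        _ ≤ _ := add_le_add ((abs_add_le _ _).trans (add_le_add a1 a2)) a3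
    have e2 : Sr * (Gn P P.a + del0 P P.a * q) -
        (((g0p N N.A : ℕ) : ℝ) + (mS (d0p N N.A) (qq N r) : ℕ) -
          (((g0n N N.A : ℕ) : ℝ) + (mS (d0n N N.A) (qq N r) : ℕ))) =
        (Sr * Gn P P.a - ((g0p N N.A : ℕ) - (g0n N N.A : ℕ))) +
        (Sr * (del0 P P.a * q) - ((mS (d0p N N.A) (qq N r) : ℕ) - (mS (d0n N N.A) (qq N r) : ℕ))) := by
      ring
    rw [e2]
    calc _ ≤ _ := abs_add_le _ _
      _ ≤ EG0 N + (E0 N + (N.al + N.ga + N.be) + 1) := add_le_add g1 key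
      _ ≤ EG N := by unfold EG EG0 E0; linarith
  · have h1 := ble_true hb
    rw [cond_true, cond_true]
    have hA : (r : ℝ) / Sr ≤ P.a := by rw [h.a]; gcongr
    refine (g0_err h hA).trans ?_
    unfold EG EG0
    linarith

end Pool.Agent.Strip051.Box.Dens
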