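import Pool.Agent.Strip051.Box.Dens

/-! # Slopes of the universal density and reduction to one period -/

namespace Pool.Agent.Strip051.Box.Dens

open Set

variable {N : NP} {P : Par}

theorem u_le_ninth {z : ℝ} (h0 : 0 ≤ z) (h1 : z ≤ 1 / 4) : u z ≤ 1 / 10 ∧ 0 ≤ u z := by
  unfold u
  constructor
  · have : (9 : ℝ) / 10 ≤ Real.sqrt (1 - 3 * z ^ 2) := by
      apply Real.le_sqrt_of_sq_le
      nlinarith
    linarith
  · have : Real.sqrt (1 - 3 * z ^ 2) ≤ Real.sqrt 1 := Real.sqrt_le_sqrt (by nlinarith)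
    rw [Real.sqrt_one] at this
    linarith

theorem gd_err (h : NOK N P) {r : ℕ} (hr : (r : ℝ) / Sr ≤ 1 / 4) :
    |Sr * gd P ((r : ℝ) / Sr) - ((gdp N r : ℕ) - (gdn N r : ℕ))| ≤ 6 * N.be := by
  have hS := Sr_pos
  set z := (r : ℝ) / Sr with hz
  have hz0 : 0 ≤ z := by positivity
  have hSz : Sr * z = r := by rw [hz]; field_simp
  have h1 := u_scaled hr
  obtain ⟨h2, h2'⟩ := u_le_ninth hz0 hr
  have hbe : (0 : ℝ) ≤ N.be := Nat.cast_nonneg _
  have hU : ((nd 1073741824 (uu (ww r)) : ℕ) : ℝ) = Sr - (uu (ww r) : ℕ) := by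
    have hle : uu (ww r) ≤ 1073741824 := by
      have : ((uu (ww r) : ℕ) : ℝ) ≤ ((1073741824 : ℕ) : ℝ) := by
        rw [Sr_eq]
        rw [abs_le] at h1
        have : Sr * u z ≤ Sr * (1 / 10) := mul_le_mul_of_nonneg_left h2 hS.le
        have : (1073741824 : ℝ) = Sr := rfl
        linarith [h1.1]
      exact_mod_cast this
    have := Nat.cast_sub (R := ℝ) hle
    rw [Sr_eq] at this
    exact this
  have hD0 : Sr * (22 / 25) ≤ Sr - (uu (ww r) : ℕ) := by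
    rw [abs_le] at h1
    have : Sr * u z ≤ Sr * (1 / 10) := mul_le_mul_of_nonneg_left h2 hS.le
    have : (1073741824 : ℝ) = Sr := rfl
    linarith [h1.1]
  have hDp : 0 < Sr - ((uu (ww r) : ℕ) : ℝ) := by linarith
  have hDn : 0 < nd 1073741824 (uu (ww r)) := by
    have : (0 : ℝ) < ((nd 1073741824 (uu (ww r)) : ℕ) : ℝ) := by rw [hU]; exact hDp
    exact_mod_cast this
  have c1 := cdiv_le (Nat.mul (Nat.mul 3 1073741824) r) (nd 1073741824 (uu (ww r)))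
  have c2 := lt_cdiv (a := Nat.mul (Nat.mul 3 1073741824) r) hDn
  rw [hU, cmul, cmul, Sr_eq] at c1 c2
  push_cast at c1 c2
  set U : ℝ := ((uu (ww r) : ℕ) : ℝ) with hUd
  set q := Real.sqrt (1 - 3 * z ^ 2) with hq
  have hqu : q = 1 - u z := by unfold u; ring
  have hq9 : 9 / 10 ≤ q := by rw [hqu]; linarith
  -- the quotient
  have key : |Sr * (3 * z / q) - 3 * Sr * r / (Sr - U)| ≤ 5 := by
    have e : Sr * (3 * z / q) - 3 * Sr * r / (Sr - U) = 3 * z * Sr * ((Sr * u z - U)) / (q * (Sr - U)) := by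
      have hqn : q ≠ 0 := by linarith
      have hDn' : Sr - U ≠ 0 := hDp.ne'
      rw [← hSz, hqu]
      rw [hqu] at hqn
      field_simp
      ring
    rw [e, abs_div, abs_mul, abs_of_nonneg (by positivity : 0 ≤ 3 * z * Sr),
      abs_of_pos (by positivity : 0 < q * (Sr - U)), div_le_iff₀ (by positivity)]
    have a1 : 3 * z * Sr * |Sr * u z - U| ≤ 3 * (1 / 4) * Sr * 5 := by gcongr
    have a2 : 9 / 10 * (Sr * (22 / 25)) ≤ q * (Sr - U) := by gcongr
    nlinarith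
  unfold gd gdp gdn
  rw [h.al, h.be, h.ga, cadd, cmul, cmul, cmul, cmul, Sr_eq]
  push_cast
  have e : Sr * ((N.al : ℝ) + 2 * N.ga * z - N.be * (3 * z / q)) - (N.al * Sr + 2 * N.ga * r -
      N.be * ((Nat.div (Nat.mul (Nat.mul 3 1073741824) r) (nd 1073741824 (uu (ww r))) : ℕ) : ℝ)) =
      -(N.be * (Sr * (3 * z / q) -
        ((Nat.div (Nat.mul (Nat.mul 3 1073741824) r) (nd 1073741824 (uu (ww r))) : ℕ) : ℝ))) := by
    rw [← hSz]; ring
  rw [e, abs_neg, abs_mul, abs_of_nonneg hbe, mul_comm]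
  apply mul_le_mul_of_nonneg_right _ hbe
  rw [abs_le] at key ⊢
  constructor <;> linarith [key.1, key.2]

theorem gm_err (h : NOK N P) :
    |Sr * gm P - ((gmp N : ℕ) - (gmn N : ℕ))| ≤ 4 * E0 N + 1 := by
  have hS := Sr_pos
  have hA := A_le h
  have hsA := sm_cast (r := N.A) (by linarith)
  have h1 := rd2 (Nat.mul (Nat.mul 2 1073741824) (d0n N N.A)) (Nat.mul (Nat.mul 2 1073741824) (d0p N N.A))
    (sm_A_pos h)
  rw [cmul, cmul, cmul, cmul, Sr_eq, hsA] at h1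
  push_cast at h1
  have h2 := d0_err h (A_quarter h)
  have hAA : (N.A : ℝ) / Sr = P.a := h.a.symm
  rw [hAA] at h2
  have hp := one_sub_pos P
  have hne : (Sr - 2 * (N.A : ℝ)) = Sr * (1 - 2 * P.a) := by
    rw [h.a]; field_simp
  have hD : 0 < Sr - 2 * (N.A : ℝ) := by linarith
  unfold gmp gmn
  set dp : ℝ := ((d0p N N.A : ℕ) : ℝ) with hdp
  set dn : ℝ := ((d0n N N.A : ℕ) : ℝ) with hdn
  have e : Sr * gm P = (2 * Sr * dn - 2 * Sr * dp) / (Sr - 2 * (N.A : ℝ)) -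
      2 * (Sr * del0 P P.a - (dp - dn)) / (1 - 2 * P.a) := by
    unfold gm
    rw [hne]
    field_simp
    ring
  have a1 : |2 * (Sr * del0 P P.a - (dp - dn)) / (1 - 2 * P.a)| ≤ 4 * E0 N := by
    rw [abs_div, abs_mul, abs_of_pos hp, div_le_iff₀ hp]
    have : |(2 : ℝ)| = 2 := by norm_num
    rw [this]
    have := P.ha4
    have := E0_nn N
    nlinarith
  rw [e]
  rw [abs_le] at a1 h1 ⊢
  constructor <;> linarith [a1.1, a1.2, h1.1, h1.2]

/-! ### Reduction modulo one period -/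

def zc (p n : Nat) : Nat :=
  Nat.mod (Nat.add (nd p n)
    (nd (Nat.mul (Nat.add (Nat.div (nd n p) 1073741824) 1) 1073741824) (nd n p))) 1073741824

theorem zc_spec (p n : ℕ) : ∃ k : ℤ, ((p : ℝ) - n) / Sr = ((zc p n : ℕ) : ℝ) / Sr + k ∧
    ((zc p n : ℕ) : ℝ) < Sr := by
  have hS := Sr_pos
  set m1 := nd p n with hm1
  set m2 := nd n p with hm2
  have e1 : (p : ℝ) - n = (m1 : ℝ) - m2 := (nd_sub p n).symm
  set q : ℕ := (m2 / 1073741824 + 1) * 1073741824 with hq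
  have hq1 : m2 ≤ q := by omega
  set t : ℕ := m1 + (q - m2) with ht
  have hz : zc p n = t % 1073741824 := rfl
  have ht1 : (t : ℝ) = m1 + (q - m2) := by
    rw [ht]
    push_cast [Nat.cast_sub hq1]
    ring
  have hmod : t = 1073741824 * (t / 1073741824) + t % 1073741824 := (Nat.div_add_mod t 1073741824).symm
  have hmodr : (t : ℝ) = Sr * ((t / 1073741824 : ℕ) : ℝ) + ((t % 1073741824 : ℕ) : ℝ) := by
    have : (t : ℝ) = ((1073741824 : ℕ) : ℝ) * ((t / 1073741824 : ℕ) : ℝ) + ((t % 1073741824 : ℕ) : ℝ) := by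
      exact_mod_cast hmod
    rw [Sr_eq] at this
    exact this
  have hqr : (q : ℝ) = ((m2 / 1073741824 : ℕ) : ℝ) * Sr + Sr := by
    rw [hq]
    have : (((m2 / 1073741824 + 1) * 1073741824 : ℕ) : ℝ) =
      (((m2 / 1073741824 : ℕ) : ℝ) + 1) * ((1073741824 : ℕ) : ℝ) := by push_cast; ring
    rw [this, Sr_eq]; ring
  have hsum : (m1 : ℝ) - m2 = (t % 1073741824 : ℕ) +
      (((t / 1073741824 : ℕ) : ℝ) - ((m2 / 1073741824 : ℕ) : ℝ) - 1) * Sr := by linarith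
  refine ⟨((t / 1073741824 : ℕ) : ℤ) - ((m2 / 1073741824 : ℕ) : ℤ) - 1, ?_, ?_⟩
  · rw [e1, hz, hsum]
    generalize t / 1073741824 = j
    generalize m2 / 1073741824 = j2
    generalize t % 1073741824 = zz
    push_cast
    field_simp
  · rw [hz]
    have : t % 1073741824 < 1073741824 := Nat.mod_lt _ (by norm_num)
    have : ((t % 1073741824 : ℕ) : ℝ) < ((1073741824 : ℕ) : ℝ) := by exact_mod_cast this
    rw [Sr_eq] at this
    exact this

/-! ### The slope hull -/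

/-- region: 0 inner, 1 middle, 2 near the kink, 3 everything, 4 too large -/
def rg (N : NP) (r ρ : Nat) : Nat :=
  cond (Nat.ble (Nat.add r ρ) N.A) 0 (cond (Nat.ble (Nat.add N.A ρ) r) 1
    (cond (Nat.ble (Nat.mul 2 ρ) N.A) 2 (cond (Nat.ble (Nat.mul 2 ρ) 1073741824) 3 4)))

def c2p (N : NP) : Nat := Nat.div (Nat.add (gdp N N.A) (gmp N)) 2
def c2n (N : NP) : Nat := Nat.div (Nat.add (gdn N N.A) (gmn N)) 2
def c2l (N : NP) : Nat :=
  Nat.div (Nat.add (nd (Nat.add (gdp N N.A) (gmn N)) (Nat.add (gdn N N.A) (gmp N)))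
    (nd (Nat.add (gdn N N.A) (gmp N)) (Nat.add (gdp N N.A) (gmn N)))) 2

def slp (N : NP) (r k : Nat) : Nat :=
  cond (Nat.beq k 0) (gdp N r) (cond (Nat.beq k 1) (gmp N) (cond (Nat.beq k 2) (c2p N) N.sgp))
def sln (N : NP) (r k : Nat) : Nat :=
  cond (Nat.beq k 0) (gdn N r) (cond (Nat.beq k 1) (gmn N) (cond (Nat.beq k 2) (c2n N) N.sgn))
/-- the error constant -/
def er (N : NP) : Nat := Nat.add (Nat.mul 26 N.be) (Nat.add (Nat.mul 4 N.ga) 4)
def sll (N : NP) (ρ k : Nat) : Nat :=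
  cond (Nat.beq k 0) (Nat.add (Nat.mul N.L2 ρ) (Nat.mul 6 N.be))
    (cond (Nat.beq k 1) (er N)
      (cond (Nat.beq k 2) (Nat.add (Nat.add (c2l N) (Nat.mul (Nat.mul 2 N.L2) ρ)) (er N)) N.Lg))

theorem er_cast (N : NP) : ((er N : ℕ) : ℝ) = 26 * N.be + 4 * N.ga + 4 := by
  unfold er
  rw [cadd, cadd, cmul, cmul]
  push_cast
  ring

theorem hull0 (h : NOK N P) {r ρ : ℕ} (hr : (r : ℝ) / Sr + (ρ : ℝ) / Sr ≤ P.a) :
    Lp (Dn P) (((gdp N r : ℕ) - (gdn N r : ℕ)) / Sr) ((N.L2 * ρ + 6 * N.be) / Sr)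
      ((r : ℝ) / Sr - ρ / Sr) (r / Sr + ρ / Sr) := by
  have hS := Sr_pos
  set z := (r : ℝ) / Sr with hz
  set w := (ρ : ℝ) / Sr with hw
  have hz0 : 0 ≤ z := by positivity
  have hw0 : 0 ≤ w := by positivity
  have hza : z ≤ P.a := by linarith
  have hge := gd_err h (r := r) (hza.trans P.ha4)
  have hL2 : (0 : ℝ) ≤ N.L2 := Nat.cast_nonneg _
  have base : ∀ x ∈ Icc (0 : ℝ) P.a, |x - z| ≤ w →
      |gd P x - ((gdp N r : ℕ) - (gdn N r : ℕ)) / Sr| ≤ (N.L2 * ρ + 6 * N.be) / Sr := by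
    intro x hx hxw
    have h1 := h.lip x hx z ⟨hz0, hza⟩
    have h2 : |gd P z - ((gdp N r : ℕ) - (gdn N r : ℕ)) / Sr| ≤ 6 * N.be / Sr := by
      have e : gd P z - ((gdp N r : ℕ) - (gdn N r : ℕ)) / Sr =
          (Sr * gd P z - ((gdp N r : ℕ) - (gdn N r : ℕ))) / Sr := by field_simp
      rw [e, abs_div, abs_of_pos hS]
      gcongr
    have h3 : (N.L2 : ℝ) * |x - z| ≤ N.L2 * w := by gcongr
    have e : gd P x - ((gdp N r : ℕ) - (gdn N r : ℕ)) / Sr =
        (gd P x - gd P z) + (gd P z - ((gdp N r : ℕ) - (gdn N r : ℕ)) / Sr) := by ring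
    rw [e]
    calc _ ≤ _ := abs_add_le _ _
      _ ≤ N.L2 * w + 6 * N.be / Sr := add_le_add (h1.trans h3) h2
      _ = _ := by rw [hw]; ring
  rcases le_total w z with h1 | h1
  · exact Lp_zero_a P (by linarith) hr (fun x hx => base x ⟨by linarith [hx.1], by linarith [hx.2]⟩
      (by rw [abs_le]; constructor <;> linarith [hx.1, hx.2]))
  · have g1 : Lp (Dn P) (((gdp N r : ℕ) - (gdn N r : ℕ)) / Sr) ((N.L2 * ρ + 6 * N.be) / Sr) 0 (w - z) :=
      Lp_zero_a P (le_refl 0) (by linarith) (fun x hx => base x ⟨hx.1, by linarith [hx.2]⟩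
        (by rw [abs_le]; constructor <;> linarith [hx.1, hx.2]))
    have g2 := Lp_neg P g1
    rw [neg_zero] at g2
    have g3 : Lp (Dn P) (((gdp N r : ℕ) - (gdn N r : ℕ)) / Sr) ((N.L2 * ρ + 6 * N.be) / Sr) 0 (z + w) :=
      Lp_zero_a P (le_refl 0) hr (fun x hx => base x ⟨hx.1, by linarith [hx.2]⟩
        (by rw [abs_le]; constructor <;> linarith [hx.1, hx.2]))
    have e : z - w = -(w - z) := by ring
    rw [e]
    exact g2.glue g3

theorem hull1 (h : NOK N P) {r ρ : ℕ} (hr : P.a + (ρ : ℝ) / Sr ≤ (r : ℝ) / Sr)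
    (hr2 : (r : ℝ) / Sr ≤ 1 / 2) :
    Lp (Dn P) (((gmp N : ℕ) - (gmn N : ℕ)) / Sr) ((er N : ℕ) / Sr)
      ((r : ℝ) / Sr - ρ / Sr) (r / Sr + ρ / Sr) := by
  have hS := Sr_pos
  refine Lp_mid P (by linarith) (by linarith) ?_
  have h1 := gm_err h
  have e : gm P - ((gmp N : ℕ) - (gmn N : ℕ)) / Sr = (Sr * gm P - ((gmp N : ℕ) - (gmn N : ℕ))) / Sr := by
    field_simp
  rw [e, abs_div, abs_of_pos hS]
  have : 4 * E0 N + 1 ≤ (er N : ℕ) := by
    rw [er_cast]; unfold E0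
    have hbe : (0 : ℝ) ≤ N.be := Nat.cast_nonneg _
    linarith
  gcongr
  exact h1.trans this

theorem hull2 (h : NOK N P) {r ρ : ℕ} (h1 : P.a < (r : ℝ) / Sr + (ρ : ℝ) / Sr)
    (h2 : (r : ℝ) / Sr < P.a + (ρ : ℝ) / Sr) (h3 : 2 * ((ρ : ℝ) / Sr) ≤ P.a) :
    Lp (Dn P) (((c2p N : ℕ) - (c2n N : ℕ)) / Sr)
      ((((c2l N : ℕ) : ℝ) + 2 * N.L2 * ρ + (er N : ℕ)) / Sr)
      ((r : ℝ) / Sr - ρ / Sr) (r / Sr + ρ / Sr) := by
  have hS := Sr_pos
  set z := (r : ℝ) / Sr with hz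
  set w := (ρ : ℝ) / Sr with hw
  have ha4 := P.ha4
  have hw0 : 0 ≤ w := by positivity
  have hL2 : (0 : ℝ) ≤ N.L2 := Nat.cast_nonneg _
  have hbe : (0 : ℝ) ≤ N.be := Nat.cast_nonneg _
  have hga : (0 : ℝ) ≤ N.ga := Nat.cast_nonneg _
  have hAA : (N.A : ℝ) / Sr = P.a := h.a.symm
  have e1 := gd_err h (A_quarter h)
  rw [hAA] at e1
  have e2 := gm_err h
  set gp : ℝ := ((gdp N N.A : ℕ) : ℝ) with hgp
  set gn : ℝ := ((gdn N N.A : ℕ) : ℝ) with hgn
  set mp' : ℝ := ((gmp N : ℕ) : ℝ) with hmp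
  set mn' : ℝ := ((gmn N : ℕ) : ℝ) with hmn
  -- the centre
  have c1 : |(((c2p N : ℕ) : ℝ) - (c2n N : ℕ)) - ((gp - gn) + (mp' - mn')) / 2| ≤ 1 := by
    have := rd2 (Nat.add (gdp N N.A) (gmp N)) (Nat.add (gdn N N.A) (gmn N)) (c := 2) (by norm_num)
    rw [cadd, cadd] at this
    push_cast at this
    have e : (gp - gn + (mp' - mn')) / 2 = (gp + mp' - (gn + mn')) / 2 := by ring
    rw [e]
    exact this
  have c2 : |((gp - gn) - (mp' - mn')) / 2| ≤ (c2l N : ℕ) + 1 := by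
    have a1 := lt_cdiv (a := Nat.add (nd (Nat.add (gdp N N.A) (gmn N)) (Nat.add (gdn N N.A) (gmp N)))
      (nd (Nat.add (gdn N N.A) (gmp N)) (Nat.add (gdp N N.A) (gmn N)))) (b := 2) (by norm_num)
    rw [cadd, nd_abs, cadd, cadd] at a1
    push_cast at a1
    have e : gp - gn - (mp' - mn') = gp + mn' - (gn + mp') := by ring
    rw [abs_div, e]
    have : |(2 : ℝ)| = 2 := by norm_num
    rw [this]
    exact a1.le
  have hb1 : ∀ x ∈ Icc (z - w) P.a, |gd P x - (((c2p N : ℕ) : ℝ) - (c2n N : ℕ)) / Sr| ≤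
      (((c2l N : ℕ) : ℝ) + 2 * N.L2 * ρ + (er N : ℕ)) / Sr := by
    intro x hx
    have hx0 : 0 ≤ x := by linarith [hx.1]
    have b1 := h.lip x ⟨hx0, hx.2⟩ P.a ⟨P.ha.le, le_refl _⟩
    have b2 : |x - P.a| ≤ 2 * w := by rw [abs_le]; constructor <;> linarith [hx.1, hx.2]
    have b3 : |gd P x - gd P P.a| ≤ N.L2 * (2 * w) := b1.trans (by gcongr)
    have b4 : |Sr * (gd P x - gd P P.a)| ≤ 2 * N.L2 * ρ := by
      rw [abs_mul, abs_of_pos hS]
      calc _ ≤ Sr * (N.L2 * (2 * w)) := by gcongr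
        _ = _ := by rw [hw]; field_simp
    have e : gd P x - (((c2p N : ℕ) : ℝ) - (c2n N : ℕ)) / Sr =
        (Sr * (gd P x - gd P P.a) + (Sr * gd P P.a - (gp - gn)) +
          (((gp - gn) - (mp' - mn')) / 2 -
          ((((c2p N : ℕ) : ℝ) - (c2n N : ℕ)) - ((gp - gn) + (mp' - mn')) / 2))) / Sr := by
      field_simp
      ring
    rw [e, abs_div, abs_of_pos hS]
    gcongr
    rw [er_cast]
    rw [abs_le] at b4 c1 c2 e1 ⊢
    constructor <;> linarith [b4.1, b4.2, c1.1, c1.2, c2.1, c2.2, e1.1, e1.2]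
  have hb2 : |gm P - (((c2p N : ℕ) : ℝ) - (c2n N : ℕ)) / Sr| ≤
      (((c2l N : ℕ) : ℝ) + 2 * N.L2 * ρ + (er N : ℕ)) / Sr := by
    have e : gm P - (((c2p N : ℕ) : ℝ) - (c2n N : ℕ)) / Sr =
        ((Sr * gm P - (mp' - mn')) -
          (((gp - gn) - (mp' - mn')) / 2 +
          ((((c2p N : ℕ) : ℝ) - (c2n N : ℕ)) - ((gp - gn) + (mp' - mn')) / 2))) / Sr := by
      field_simp
      ring
    rw [e, abs_div, abs_of_pos hS]
    gcongr
    rw [er_cast]
    unfold E0 at e2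
    have : (0 : ℝ) ≤ 2 * N.L2 * ρ := by positivity
    rw [abs_le] at c1 c2 e2 ⊢
    constructor <;> linarith [c1.1, c1.2, c2.1, c2.2, e2.1, e2.2]
  exact (Lp_zero_a P (by linarith) (le_refl _) hb1).glue
    (Lp_mid P (le_refl _) (by linarith) hb2)

theorem Lp_unit (h : NOK N P) :
    Lp (Dn P) (((N.sgp : ℝ) - N.sgn) / Sr) (N.Lg / Sr) 0 1 := by
  have h1 : Lp (Dn P) (((N.sgp : ℝ) - N.sgn) / Sr) (N.Lg / Sr) 0 P.a :=
    Lp_zero_a P (le_refl 0) (le_refl _) h.glob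
  have h2 : Lp (Dn P) (((N.sgp : ℝ) - N.sgn) / Sr) (N.Lg / Sr) P.a (1 - P.a) :=
    Lp_mid P (le_refl _) (le_refl _) h.globm
  have h3 := h1.refl_one P
  rw [sub_zero] at h3
  exact (h1.glue h2).glue h3

theorem hull3 (h : NOK N P) {r ρ : ℕ} (hr : (r : ℝ) / Sr ≤ 1 / 2) (hρ : (ρ : ℝ) / Sr ≤ 1 / 2) :
    Lp (Dn P) (((N.sgp : ℝ) - N.sgn) / Sr) (N.Lg / Sr)
      ((r : ℝ) / Sr - ρ / Sr) (r / Sr + ρ / Sr) := by
  have hS := Sr_pos
  have h1 := Lp_unit h
  have h2 := h1.shift P (-1)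
  have e1 : (0 : ℝ) + ((-1 : ℤ) : ℝ) = -1 := by push_cast; ring
  have e2 : (1 : ℝ) + ((-1 : ℤ) : ℝ) = 0 := by push_cast; ring
  rw [e1, e2] at h2
  have hr0 : (0 : ℝ) ≤ (r : ℝ) / Sr := by positivity
  exact (h2.glue h1).mono (by linarith) (by linarith)

/-- output of the evaluation of the density -/
structure Out where
  (p n sp sn l bad : Nat)

def rr (z : Nat) : Nat := cond (Nat.ble (Nat.mul 2 z) 1073741824) z (nd 1073741824 z)


def fl (z : Nat) : Bool := Nat.ble (Nat.mul 2 z) 1073741824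
def dPp (N : NP) (z : Nat) : Nat := cond (fl z) (dvp N (rr z)) (dvn N (rr z))
def dPn (N : NP) (z : Nat) : Nat := cond (fl z) (dvn N (rr z)) (dvp N (rr z))

/-- evaluation of the density at the centre `(p - n) / S` with slopes for the radius `ρ / S` -/
def dsc (N : NP) (p n ρ : Nat) : Out :=
  ⟨dPp N (zc p n), dPn N (zc p n), slp N (rr (zc p n)) (rg N (rr (zc p n)) ρ),
   sln N (rr (zc p n)) (rg N (rr (zc p n)) ρ), sll N ρ (rg N (rr (zc p n)) ρ),
   Nat.div (rg N (rr (zc p n)) ρ) 4⟩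

/-- evaluation of the primitive -/
def gcp (N : NP) (p n : Nat) : Nat := gvp N (rr (zc p n))
def gcn (N : NP) (p n : Nat) : Nat := gvn N (rr (zc p n))

theorem rr_spec {z : ℕ} (hz : (z : ℝ) < Sr) :
    (Nat.ble (Nat.mul 2 z) 1073741824 = true → ((rr z : ℕ) : ℝ) = z) ∧
    (Nat.ble (Nat.mul 2 z) 1073741824 = false → ((rr z : ℕ) : ℝ) = Sr - z) ∧
    ((rr z : ℕ) : ℝ) ≤ Sr / 2 := by
  unfold rr
  rcases hb : Nat.ble (Nat.mul 2 z) 1073741824 with _ | _
  · rw [cond_false]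
    have h1 := ble_false hb
    rw [cmul, Sr_eq] at h1
    push_cast at h1
    have e : ((nd 1073741824 z : ℕ) : ℝ) = Sr - z := by
      have hle : z ≤ 1073741824 := by
        have : (z : ℝ) ≤ ((1073741824 : ℕ) : ℝ) := by rw [Sr_eq]; exact hz.le
        exact_mod_cast this
      have := Nat.cast_sub (R := ℝ) hle
      rw [Sr_eq] at this
      exact this
    exact ⟨fun h => absurd h (by decide), fun _ => e, by rw [e]; linarith⟩
  · rw [cond_true]
    have h1 := ble_true hb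
    rw [cmul, Sr_eq] at h1
    push_cast at h1
    exact ⟨fun _ => rfl, fun h => absurd h (by decide), by linarith⟩

theorem b00 : Nat.beq 0 0 = true := rfl
theorem b10 : Nat.beq 1 0 = false := rfl
theorem b11 : Nat.beq 1 1 = true := rfl
theorem b20 : Nat.beq 2 0 = false := rfl
theorem b21 : Nat.beq 2 1 = false := rfl
theorem b22 : Nat.beq 2 2 = true := rfl
theorem b30 : Nat.beq 3 0 = false := rfl
theorem b31 : Nat.beq 3 1 = false := rfl
theorem b32 : Nat.beq 3 2 = false := rfl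
theorem slp0 (r : ℕ) : slp N r 0 = gdp N r := by unfold slp; rw [b00, cond_true]
theorem slp1 (r : ℕ) : slp N r 1 = gmp N := by unfold slp; rw [b10, cond_false, b11, cond_true]
theorem slp2 (r : ℕ) : slp N r 2 = c2p N := by
  unfold slp; rw [b20, cond_false, b21, cond_false, b22, cond_true]
theorem slp3 (r : ℕ) : slp N r 3 = N.sgp := by
  unfold slp; rw [b30, cond_false, b31, cond_false, b32, cond_false]
theorem sln0 (r : ℕ) : sln N r 0 = gdn N r := by unfold sln; rw [b00, cond_true]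
theorem sln1 (r : ℕ) : sln N r 1 = gmn N := by unfold sln; rw [b10, cond_false, b11, cond_true]
theorem sln2 (r : ℕ) : sln N r 2 = c2n N := by
  unfold sln; rw [b20, cond_false, b21, cond_false, b22, cond_true]
theorem sln3 (r : ℕ) : sln N r 3 = N.sgn := by
  unfold sln; rw [b30, cond_false, b31, cond_false, b32, cond_false]
theorem sll0 (ρ : ℕ) : sll N ρ 0 = Nat.add (Nat.mul N.L2 ρ) (Nat.mul 6 N.be) := by
  unfold sll; rw [b00, cond_true]
theorem sll1 (ρ : ℕ) : sll N ρ 1 = er N := by unfold sll; rw [b10, cond_false, b11, cond_true]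
theorem sll2 (ρ : ℕ) : sll N ρ 2 =
    Nat.add (Nat.add (c2l N) (Nat.mul (Nat.mul 2 N.L2) ρ)) (er N) := by
  unfold sll; rw [b20, cond_false, b21, cond_false, b22, cond_true]
theorem sll3 (ρ : ℕ) : sll N ρ 3 = N.Lg := by
  unfold sll; rw [b30, cond_false, b31, cond_false, b32, cond_false]

theorem hull_r (h : NOK N P) {r ρ : ℕ} (hr : (r : ℝ) ≤ Sr / 2) (hk : Nat.div (rg N r ρ) 4 = 0) :
    Lp (Dn P) (((slp N r (rg N r ρ) : ℕ) - (sln N r (rg N r ρ) : ℕ)) / Sr)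
      ((sll N ρ (rg N r ρ) : ℕ) / Sr) ((r : ℝ) / Sr - ρ / Sr) (r / Sr + ρ / Sr) := by
  have hS := Sr_pos
  have hr2 : (r : ℝ) / Sr ≤ 1 / 2 := by rw [div_le_iff₀ hS]; linarith
  rcases h0 : Nat.ble (Nat.add r ρ) N.A with _ | _
  · have g0 := ble_false h0
    rw [cadd] at g0
    have g0' : P.a < (r : ℝ) / Sr + (ρ : ℝ) / Sr := by rw [h.a, ← add_div]; gcongr
    rcases h1 : Nat.ble (Nat.add N.A ρ) r with _ | _
    · have g1 := ble_false h1
      rw [cadd] at g1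
      have g1' : (r : ℝ) / Sr < P.a + (ρ : ℝ) / Sr := by rw [h.a, ← add_div]; gcongr
      rcases h2 : Nat.ble (Nat.mul 2 ρ) N.A with _ | _
      · rcases h3 : Nat.ble (Nat.mul 2 ρ) 1073741824 with _ | _
        · have e : rg N r ρ = 4 := by unfold rg; rw [h0, h1, h2, h3]; rfl
          rw [e] at hk
          exact absurd hk (by decide)
        · have e : rg N r ρ = 3 := by unfold rg; rw [h0, h1, h2, h3]; rfl
          rw [e, slp3, sln3, sll3]
          have g3 := ble_true h3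
          rw [cmul, Sr_eq] at g3
          push_cast at g3
          exact hull3 h hr2 (by rw [div_le_iff₀ hS]; linarith)
      · have e : rg N r ρ = 2 := by unfold rg; rw [h0, h1, h2]; rfl
        rw [e, slp2, sln2, sll2]
        have g2 := ble_true h2
        rw [cmul] at g2
        push_cast at g2
        have g2' : 2 * ((ρ : ℝ) / Sr) ≤ P.a := by
          rw [h.a, ← mul_div_assoc]; gcongr
        have := hull2 h g0' g1' g2'
        have e2 : ((Nat.add (Nat.add (c2l N) (Nat.mul (Nat.mul 2 N.L2) ρ)) (er N) : ℕ) : ℝ) =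
            ((c2l N : ℕ) : ℝ) + 2 * N.L2 * ρ + (er N : ℕ) := by
          rw [cadd, cadd, cmul, cmul]
          push_cast
          ring
        rw [e2]
        exact this
    · have e : rg N r ρ = 1 := by unfold rg; rw [h0, h1]; rfl
      rw [e, slp1, sln1, sll1]
      have g1 := ble_true h1
      rw [cadd] at g1
      exact hull1 h (by rw [h.a, ← add_div]; gcongr) hr2
  · have e : rg N r ρ = 0 := by unfold rg; rw [h0]; rfl
    rw [e, slp0, sln0, sll0]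
    have g0 := ble_true h0
    rw [cadd] at g0
    have := hull0 h (r := r) (ρ := ρ) (by rw [h.a, ← add_div]; gcongr)
    have e2 : ((Nat.add (Nat.mul N.L2 ρ) (Nat.mul 6 N.be) : ℕ) : ℝ) = N.L2 * ρ + 6 * N.be := by
      rw [cadd, cmul, cmul]
      push_cast
      ring
    rw [e2]
    exact this

theorem dsc_sp (p n ρ : ℕ) : (dsc N p n ρ).sp = slp N (rr (zc p n)) (rg N (rr (zc p n)) ρ) := rfl
theorem dsc_sn (p n ρ : ℕ) : (dsc N p n ρ).sn = sln N (rr (zc p n)) (rg N (rr (zc p n)) ρ) := rfl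
theorem dsc_l (p n ρ : ℕ) : (dsc N p n ρ).l = sll N ρ (rg N (rr (zc p n)) ρ) := rfl
theorem dsc_bad (p n ρ : ℕ) : (dsc N p n ρ).bad = Nat.div (rg N (rr (zc p n)) ρ) 4 := rfl
theorem dsc_p (p n ρ : ℕ) : (dsc N p n ρ).p = dPp N (zc p n) := rfl
theorem dsc_n (p n ρ : ℕ) : (dsc N p n ρ).n = dPn N (zc p n) := rfl

theorem dsc_hull (h : NOK N P) {p n ρ : ℕ} (hb : (dsc N p n ρ).bad = 0) :
    Lp (Dn P) ((((dsc N p n ρ).sp : ℕ) - ((dsc N p n ρ).sn : ℕ)) / Sr) (((dsc N p n ρ).l : ℕ) / Sr)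
      (((p : ℝ) - n) / Sr - ρ / Sr) (((p : ℝ) - n) / Sr + ρ / Sr) := by
  have hS := Sr_pos
  rw [dsc_bad] at hb
  rw [dsc_sp, dsc_sn, dsc_l]
  obtain ⟨k, hk, hz⟩ := zc_spec p n
  obtain ⟨r1, r2, r3⟩ := rr_spec hz
  have hh := hull_r h (r := rr (zc p n)) (ρ := ρ) r3 hb
  rcases hfl : Nat.ble (Nat.mul 2 (zc p n)) 1073741824 with _ | _
  · have e := r2 hfl
    have h1 := (hh.refl_one P).shift P k
    have e1 : 1 - (((rr (zc p n) : ℕ) : ℝ) / Sr + ρ / Sr) + k = ((p : ℝ) - n) / Sr - ρ / Sr := by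
      rw [hk, e]; field_simp; ring
    have e2 : 1 - (((rr (zc p n) : ℕ) : ℝ) / Sr - ρ / Sr) + k = ((p : ℝ) - n) / Sr + ρ / Sr := by
      rw [hk, e]; field_simp; ring
    rw [e1, e2] at h1
    exact h1
  · have e := r1 hfl
    have h1 := hh.shift P k
    have e1 : ((rr (zc p n) : ℕ) : ℝ) / Sr - ρ / Sr + k = ((p : ℝ) - n) / Sr - ρ / Sr := by
      rw [hk, e]; ring
    have e2 : ((rr (zc p n) : ℕ) : ℝ) / Sr + ρ / Sr + k = ((p : ℝ) - n) / Sr + ρ / Sr := by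
      rw [hk, e]; ring
    rw [e1, e2] at h1
    exact h1

theorem dsc_val (h : NOK N P) (p n ρ : ℕ) :
    |Sr * Dn P (((p : ℝ) - n) / Sr) - (((dsc N p n ρ).p : ℕ) - ((dsc N p n ρ).n : ℕ))| ≤ E0 N + 1 := by
  rw [dsc_p, dsc_n]
  have hS := Sr_pos
  obtain ⟨k, hk, hz⟩ := zc_spec p n
  obtain ⟨r1, r2, r3⟩ := rr_spec hz
  have hv := dv_err h r3
  have hz0 : (0 : ℝ) ≤ ((zc p n : ℕ) : ℝ) / Sr := by positivity
  have hz1 : ((zc p n : ℕ) : ℝ) / Sr ≤ 1 := by rw [div_le_one hS]; exact hz.le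
  rw [hk, Dn_add_int, Dn_of_mem P hz0 hz1]
  rcases hfl : Nat.ble (Nat.mul 2 (zc p n)) 1073741824 with _ | _
  · have e := r2 hfl
    have g1 := ble_false hfl
    rw [cmul, Sr_eq] at g1
    push_cast at g1
    have ez : 1 - ((zc p n : ℕ) : ℝ) / Sr = ((rr (zc p n) : ℕ) : ℝ) / Sr := by rw [e]; field_simp
    rw [Dp_of_ge P (by rw [le_div_iff₀ hS]; linarith), ez]
    have ep : dPp N (zc p n) = dvn N (rr (zc p n)) := by unfold dPp fl; rw [hfl, cond_false]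
    have en : dPn N (zc p n) = dvp N (rr (zc p n)) := by unfold dPn fl; rw [hfl, cond_false]
    rw [ep, en]
    have e3 : Sr * -del P (((rr (zc p n) : ℕ) : ℝ) / Sr) -
        (((dvn N (rr (zc p n)) : ℕ) : ℝ) - (dvp N (rr (zc p n)) : ℕ)) =
        -(Sr * del P (((rr (zc p n) : ℕ) : ℝ) / Sr) -
        (((dvp N (rr (zc p n)) : ℕ) : ℝ) - (dvn N (rr (zc p n)) : ℕ))) := by ring
    rw [e3, abs_neg]
    exact hv
  · have e := r1 hfl
    have g1 := ble_true hfl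
    rw [cmul, Sr_eq] at g1
    push_cast at g1
    have ez : ((zc p n : ℕ) : ℝ) / Sr = ((rr (zc p n) : ℕ) : ℝ) / Sr := by rw [e]
    rw [Dp_of_le P (by rw [div_le_iff₀ hS]; linarith), ez]
    have ep : dPp N (zc p n) = dvp N (rr (zc p n)) := by unfold dPp fl; rw [hfl, cond_true]
    have en : dPn N (zc p n) = dvn N (rr (zc p n)) := by unfold dPn fl; rw [hfl, cond_true]
    rw [ep, en]
    exact hv

theorem gc_val (h : NOK N P) (p n : ℕ) :
    |Sr * Gn P (((p : ℝ) - n) / Sr) - ((gcp N p n : ℕ) - (gcn N p n : ℕ))| ≤ EG N := by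
  have hS := Sr_pos
  obtain ⟨k, hk, hz⟩ := zc_spec p n
  obtain ⟨r1, r2, r3⟩ := rr_spec hz
  have hv := gv_err h r3
  rw [hk, Gn_add_int]
  unfold gcp gcn
  rcases hfl : Nat.ble (Nat.mul 2 (zc p n)) 1073741824 with _ | _
  · have e := r2 hfl
    have ez : 1 - ((zc p n : ℕ) : ℝ) / Sr = ((rr (zc p n) : ℕ) : ℝ) / Sr := by rw [e]; field_simp
    rw [← Gn_refl, ez]
    exact hv
  · have e := r1 hfl
    have ez : ((zc p n : ℕ) : ℝ) / Sr = ((rr (zc p n) : ℕ) : ℝ) / Sr := by rw [e]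
    rw [ez]
    exact hv

end Pool.Agent.Strip051.Box.Dens
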