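import Pool.Agent.Strip051.Box.C4

/-! # Free parameters in the box arithmetic (4 variables, generated)

A free parameter may be chosen on every box: its value is the affine part (or the centre) of any
form, so it is enclosed without remainder. -/

namespace Pool.Agent.Strip051.Box4

open Pool.Agent.Strip051.Box

/-- The affine part, as an exact form (zero if the form is unusable). -/
def tfree (X : TM) : TM :=
  cond (Nat.beq X.bad 0) ⟨X.p0, X.n0, X.p1, X.n1, X.p2, X.n2, X.p3, X.n3, X.p4, X.n4, 0, 0⟩ (tconst 0 0 0)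

/-- The centre, as an exact constant (zero if the form is unusable). -/
def tfix (X : TM) : TM :=
  cond (Nat.beq X.bad 0) ⟨X.p0, X.n0, 0, 0, 0, 0, 0, 0, 0, 0, 0, 0⟩ (tconst 0 0 0)

/-- The value of a form without remainder. -/
noncomputable def frv (S : Nat) (E : Pt) (X : TM) : ℝ := (c0 X + lin E X) / S

theorem enc_exact {S : ℕ} (hS : 0 < S) (E : Pt) {X : TM} (hr : X.r = 0) :
    Enc S E X (frv S E X) := by
  intro _
  have hSr : (S : ℝ) ≠ 0 := by
    have : (0 : ℝ) < S := by exact_mod_cast hS
    exact this.ne'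
  unfold frv
  rw [mul_div_cancel₀ _ hSr, sub_self, abs_zero, hr]
  exact le_of_eq Nat.cast_zero.symm

theorem enc_free {S : ℕ} (hS : 0 < S) (E : Pt) (X : TM) :
    Enc S E (tfree X) (frv S E (tfree X)) := by
  apply enc_exact hS
  unfold tfree
  rcases Nat.beq X.bad 0 with _ | _ <;> rfl

theorem enc_fix {S : ℕ} (hS : 0 < S) (E : Pt) (X : TM) :
    Enc S E (tfix X) (frv S E (tfix X)) := by
  apply enc_exact hS
  unfold tfix
  rcases Nat.beq X.bad 0 with _ | _ <;> rfl

end Pool.Agent.Strip051.Box4
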