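import Mathlib

/-! # The scale of the box arithmetic -/

namespace Pool.Agent.Strip051.Box

/-- the scale -/
abbrev S : Nat := 1073741824

theorem hS : 0 < S := by decide

end Pool.Agent.Strip051.Box
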